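import Pool.Agent.Lib.MP_eba68f_pr.Defs

/-! The time constant of first-passage percolation. -/

namespace Pool.Agent.Lib.MP_eba68f_edge

open MeasureTheory Filter Pool.Agent.Lib.MP_eba68f_pr
open scoped NNReal

/-- The time constant `limsup E T(0, n x) / n` for i.i.d. edge weights with law `F`; the limit
shape is the set where it is at most one. -/
noncomputable def mu {d : ℕ} (F : Measure ℝ≥0) (x : EuclideanSpace ℝ (Fin d)) : ℝ :=
  limsup (fun n : ℕ => (∫ τ, passage τ 0 (fun i => ⌊(n : ℝ) * x i⌋)
    ∂Measure.infinitePi fun _ : (lattice d).edgeSet => F) / n) atTop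

end Pool.Agent.Lib.MP_eba68f_edge
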