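import Pool.Agent.Lib.MP_eba68f_edge.March

/-! The edge speed is at least one half; the lattice points in the direction of the edge. -/

namespace Pool.Agent.Lib.MP_eba68f_edge

open MeasureTheory ProbabilityTheory Function Finset Filter SimpleGraph Pool.Agent.Lib.MP_eba68f_pr

lemma LL_le_rpow {κ : ℝ} (hκ : 0 < κ) : ∃ C > 0, ∀ n : ℕ, 1 ≤ n → (LL n : ℝ) ≤ C * (n : ℝ) ^ κ := by
  refine ⟨3 * (2 / κ + 1), by positivity, fun n hn => ?_⟩
  have hn' : (1 : ℝ) ≤ n := by exact_mod_cast hn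
  have h1 : (1 : ℝ) ≤ (n : ℝ) ^ κ := Real.one_le_rpow hn' hκ.le
  have e1 : ((2 ^ Nat.log 2 n : ℕ) : ℝ) ≤ n := by exact_mod_cast Nat.pow_log_le_self 2 (by omega)
  have e3 := Real.log_le_log (by positivity) e1
  push_cast at e3
  rw [Real.log_pow] at e3
  have e4 := Real.log_le_rpow_div (x := n) (by positivity) hκ
  have e5 : (1 / 2 : ℝ) ≤ Real.log 2 := by linarith [Real.log_two_gt_d9]
  have e6 := mul_le_mul_of_nonneg_left e5 (Nat.cast_nonneg (α := ℝ) (Nat.log 2 n))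
  have e7 : 3 * (2 / κ + 1) * (n : ℝ) ^ κ = 6 * ((n : ℝ) ^ κ / κ) + 3 * (n : ℝ) ^ κ := by ring
  unfold LL
  push_cast
  linarith

lemma LL_pow_le (j : ℕ) {κ : ℝ} (hκ : 0 < κ) :
    ∃ C > 0, ∀ n : ℕ, 1 ≤ n → (LL n : ℝ) ^ (j + 1) ≤ C * (n : ℝ) ^ κ := by
  obtain ⟨C, hC, h⟩ := LL_le_rpow (show 0 < κ / (j + 1 : ℕ) by positivity)
  refine ⟨C ^ (j + 1), by positivity, fun n hn => ?_⟩
  refine (pow_le_pow_left₀ (Nat.cast_nonneg _) (h n hn) _).trans_eq ?_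
  rw [mul_pow, ← Real.rpow_mul_natCast (Nat.cast_nonneg n), div_mul_cancel₀ _ (by positivity)]

lemma LL_small (j : ℕ) {c : ℝ} (hc : 0 < c) : ∀ᶠ n : ℕ in atTop, (LL n : ℝ) ^ (j + 1) ≤ c * n := by
  obtain ⟨C, hC, h⟩ := LL_pow_le j (show (0 : ℝ) < 1 / 2 by norm_num)
  have h1 : Tendsto (fun n : ℕ => (n : ℝ) ^ (1 / 2 : ℝ)) atTop atTop :=
    (tendsto_rpow_atTop (by norm_num)).comp tendsto_natCast_atTop_atTop
  filter_upwards [h1.eventually_ge_atTop (C / c), eventually_ge_atTop 1] with n a1 a2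
  have a3 : (n : ℝ) ^ (1 / 2 : ℝ) * (n : ℝ) ^ (1 / 2 : ℝ) = n := by
    rw [← Real.rpow_add (by exact_mod_cast a2)]; norm_num
  rw [div_le_iff₀ hc] at a1
  have a4 := mul_le_mul_of_nonneg_right a1 (show 0 ≤ (n : ℝ) ^ (1 / 2 : ℝ) by positivity)
  have := h n a2
  nlinarith

lemma int_exc_sq {z : V} {N A : ℝ} (h1 : n1 z ≤ N) (h2 : 0 ≤ lvl z) (hA : 0 ≤ A) :
    ∫ ω, exc z ω ^ 2 ∂PP _ ≤ A ^ 2 + 4 * N ^ 2 * (PP _).real {ω | A < exc z ω} := by
  have n2 := (nice_ind (meas_exc z A)).cmul (4 * N ^ 2)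
  refine (int_le (nice_exc z).sq ((Nice.const (A ^ 2)).add n2) fun ω => ?_).trans_eq (by
    rw [int_add (Nice.const _) n2, int_const, integral_const_mul, int_ind (meas_exc z A)])
  have h0 := exc_nonneg z ω
  by_cases h : A < exc z ω
  · have h3 := TT_up2 ω 0 z
    rw [sub_zero] at h3
    have h4 : exc z ω ≤ 2 * N := by unfold exc; linarith
    rw [ind_pos h]
    nlinarith [pow_le_pow_left₀ h0 h4 2]
  · rw [ind_neg h, mul_zero, add_zero]
    exact pow_le_pow_left₀ h0 (not_lt.1 h) 2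

lemma mm_le_exc (z : V) : mm z ≤ lvl z + 1 + ∫ ω, exc z ω ^ 2 ∂PP _ := by
  refine (int_le (nice_TT 0 z) ((Nice.const (lvl z + 1)).add (nice_exc z).sq) fun ω => ?_).trans_eq
    (by rw [int_add (Nice.const _) (nice_exc z).sq, int_const])
  have : TT ω 0 z = lvl z + exc z ω := by unfold exc; ring
  nlinarith [sq_nonneg (exc z ω - 1)]

lemma two_pow_LL (n : ℕ) (hn : 1 ≤ n) : 10 ^ 14 * (LL n : ℝ) ^ 9 * (4 * ((n : ℝ) + 1) ^ 2 *
    (((2 * n + 2 : ℕ) : ℝ) ^ 4 * (2 * (1 / 2) ^ (2 * (16 * LL n) + 2)))) ≤ 1 := by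
  have h1 : (n : ℝ) ^ 3 ≤ 2 ^ LL n := by exact_mod_cast LL_pow n
  have h2 : (LL n : ℝ) ≤ 2 ^ LL n := by exact_mod_cast (Nat.lt_two_pow_self (n := LL n)).le
  have h3 : (8 : ℝ) ≤ 2 ^ LL n :=
    le_trans (by norm_num) (pow_le_pow_right₀ one_le_two (LL_ge n))
  have hn' : (1 : ℝ) ≤ n := by exact_mod_cast hn
  set X : ℝ := 2 ^ LL n with hX
  have h4 : (1 / 2 : ℝ) ^ (2 * (16 * LL n) + 2) = 1 / (4 * X ^ 32) := by
    rw [hX, ← pow_mul, one_div_pow, pow_add]; congr 1; ring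
  have h5 : ((n : ℝ) + 1) ^ 6 ≤ 64 * X ^ 2 := by
    have a1 := pow_le_pow_left₀ (by linarith) (show (n : ℝ) + 1 ≤ 2 * n by linarith) 6
    have a2 := pow_le_pow_left₀ (by positivity) h1 2
    nlinarith
  have h6 := pow_le_pow_left₀ (Nat.cast_nonneg _) h2 9
  have h7 := pow_le_pow_left₀ (by norm_num) h3 21
  rw [h4]
  push_cast
  have h8 : 10 ^ 14 * (LL n : ℝ) ^ 9 *
      (4 * ((n : ℝ) + 1) ^ 2 * ((2 * n + 2) ^ 4 * (2 * (1 / (4 * X ^ 32))))) =
      32 * 10 ^ 14 * ((LL n : ℝ) ^ 9 * ((n : ℝ) + 1) ^ 6) / X ^ 32 := by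
    field_simp; ring
  rw [h8, div_le_one (by positivity)]
  have h9 := mul_le_mul h6 h5 (by positivity) (by positivity)
  have h10 := mul_le_mul_of_nonneg_right h7 (show 0 ≤ X ^ 11 by positivity)
  have h11 : 0 ≤ X ^ 11 := by positivity
  have e1 : X ^ 21 * X ^ 11 = X ^ 32 := by ring
  have e2 : X ^ 9 * (64 * X ^ 2) = 64 * X ^ 11 := by ring
  rw [e1] at h10
  rw [e2] at h9
  clear_value X
  calc _ ≤ 32 * 10 ^ 14 * (64 * X ^ 11) := mul_le_mul_of_nonneg_left h9 (by norm_num)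
    _ = (32 * 10 ^ 14 * 64) * X ^ 11 := by ring
    _ ≤ 8 ^ 21 * X ^ 11 := mul_le_mul_of_nonneg_right (by norm_num) h11
    _ ≤ _ := h10

lemma diag_le {n k : ℕ} (hk : k ≤ n) (r : ℕ) :
    (PP _).real {ω : Om | 2 * bb * r < TT ω 0 (pt k k) - 2 * k} ≤
      ((2 * n + 2 : ℕ) : ℝ) ^ 4 * (2 * (1 / 2) ^ (2 * r + 2)) :=
  (diag_prob r k).trans (mul_le_mul_of_nonneg_right (pow_le_pow_left₀ (Nat.cast_nonneg _)
    (by exact_mod_cast (by omega : 2 * k + 2 ≤ 2 * n + 2)) 4) (by positivity))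

theorem al_ge : 1 / 2 ≤ al := by
  by_contra hc
  obtain ⟨c, hc0, C, h⟩ := march (ε := 1 / 2 - al) (by linarith) (by linarith [al_nonneg])
  obtain ⟨k, ⟨a1, a2⟩, a3⟩ := (((LL_small 1 hc0).and
    ((tendsto_natCast_atTop_atTop (R := ℝ)).eventually_gt_atTop ((C + 2) / c))).and
    (eventually_ge_atTop 1)).exists
  have hk : (1 : ℝ) ≤ k := by exact_mod_cast a3
  have hl : lvl (pt k k) = 2 * k := by simp [lvl]; ring
  have b1 := h (pt k k) (by simp) (by simp) (by rw [hl]; simp)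
  have b2 := mm_le_exc (pt k k)
  have b3 := int_exc_sq (z := pt k k) (N := 2 * k) (A := 2 * bb * (16 * LL k : ℕ))
    (by simp [n1]; linarith) (by rw [hl]; linarith) (by have := bb_pos; positivity)
  have b4 := diag_le (le_refl k) (16 * LL k)
  have b5 := two_pow_LL k a3
  simp only [exc, hl] at b2 b3
  rw [hl] at b1
  have hL : (3 : ℝ) ≤ LL k := by exact_mod_cast LL_ge k
  rw [div_lt_iff₀ hc0] at a2
  set P := ((2 * k + 2 : ℕ) : ℝ) ^ 4 * (2 * (1 / 2) ^ (2 * (16 * LL k) + 2)) with hP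
  have hP0 : 0 ≤ P := by positivity
  have b6 := mul_le_mul_of_nonneg_left b4 (show 0 ≤ 4 * (2 * (k : ℝ)) ^ 2 by positivity)
  have b7 := mul_le_mul_of_nonneg_right (one_le_pow₀ (n := 9) (show (1 : ℝ) ≤ LL k by linarith))
    (show 0 ≤ 4 * ((k : ℝ) + 1) ^ 2 * P by positivity)
  have b8 := mul_le_mul_of_nonneg_right
    (pow_le_pow_left₀ (by linarith) (show (k : ℝ) ≤ k + 1 by linarith) 2) hP0
  have b9 : 0 ≤ (k : ℝ) ^ 2 * P := by positivity
  have b10 : (2 * bb * ((16 * LL k : ℕ) : ℝ)) ^ 2 ≤ (LL k : ℝ) ^ (1 + 1) := by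
    refine pow_le_pow_left₀ (by have := bb_pos; positivity) ?_ 2
    push_cast
    nlinarith [bb_le]
  nlinarith

lemma TT_rch {ω : Om} {x s y u : ℤ} (h : Rch ω x s y u) : TT ω (site x s) (site y u) ≤ u - s := by
  obtain ⟨h0, f, rfl, rfl, hf⟩ := h
  induction u, h0 using Int.leInduction with
  | base => rw [TT_self, sub_self]
  | succ u hu ih =>
    have h1 := ih (hf.sub le_rfl (by omega))
    obtain ⟨h2, h3⟩ := hf u hu (by omega)
    have h4 := TT_adj ω (by rw [adj_iff]; simp only [site_zero, site_one]; omega) h3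
    have h5 := TT_tri ω (site (f s) s) (site (f u) u) (site (f (u + 1)) (u + 1))
    push_cast
    linarith

lemma TT_near (ω : Om) {u v : V} {a b : ℤ} (h0 : |v 0 - u 0| ≤ a) (h1 : |v 1 - u 1| ≤ b) :
    TT ω u v ≤ 2 * (a + b) := by
  refine (TT_up2 ω u v).trans (mul_le_mul_of_nonneg_left ?_ (by norm_num))
  unfold n1
  exact_mod_cast add_le_add h0 h1

/-- the lattice point at level `n` in the direction of the edge -/
noncomputable def zz (n : ℕ) : V := site ⌈al * n⌉ n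

lemma lvl_zz (n : ℕ) : lvl (zz n) = n := by simp [lvl, zz]

lemma n1_zz (n : ℕ) : n1 (zz n) = n := by
  have hn : (0 : ℝ) ≤ n := Nat.cast_nonneg n
  have h1 : (0 : ℝ) ≤ ⌈al * n⌉ := (mul_nonneg al_nonneg hn).trans (Int.le_ceil _)
  have h2 : ⌈al * n⌉ ≤ (n : ℤ) := Int.ceil_le.2 (by
    simpa using mul_le_mul_of_nonneg_right al_le_one hn)
  have h3 : (⌈al * n⌉ : ℝ) ≤ n := by exact_mod_cast h2
  simp only [n1, zz, site_zero, site_one]
  push_cast
  rw [abs_of_nonneg h1, abs_of_nonneg (by linarith)]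
  ring

end Pool.Agent.Lib.MP_eba68f_edge
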