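import Pool.Agent.Lib.MP_eba68f_edge.Lin
import Pool.Agent.Lib.MP_eba68f_edge.Edge

/-! The excess passage time at the edge of the cone has a bounded second moment. -/

namespace Pool.Agent.Lib.MP_eba68f_edge

open MeasureTheory ProbabilityTheory Function Finset Filter SimpleGraph Pool.Agent.Lib.MP_eba68f_pr

/-- increasing when edges are opened -/
def Op {ι : Type} (f : (ι → Bool) → ℝ) : Prop :=
  ∀ ω ω', (∀ e, ω e = false → ω' e = false) → f ω ≤ f ω'

theorem harris {ι : Type} [DecidableEq ι] (S : Finset ι) : ∀ {f g : (ι → Bool) → ℝ}, Nice f →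
    Nice g → Op f → Op g → Dep (S : Set ι) f →
    (∫ ω, f ω ∂PP ι) * ∫ ω, g ω ∂PP ι ≤ ∫ ω, f ω * g ω ∂PP ι := by
  induction S using Finset.induction_on with
  | empty =>
    intro f g _ _ _ _ hd
    have : f = fun _ => f fun _ => false := funext fun ω => hd _ _ (by simp)
    rw [this, integral_const_mul, int_const]
  | insert e S he ih =>
    intro f g nf ng of og hd
    have q0 := qq_pos.le
    have q1 := sub_nonneg.2 qq_lt.le
    have nu : ∀ {k : (ι → Bool) → ℝ}, Nice k →
        Nice fun ω => qq * k (update ω e true) + (1 - qq) * k (update ω e false) := fun h =>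
      ((h.upd e true).cmul _).add ((h.upd e false).cmul _)
    have r1 : ∀ (ω ω' : ι → Bool) (b : Bool), (∀ a, ω a = false → ω' a = false) →
        ∀ a, update ω e b a = false → update ω' e b a = false := by
      intro ω ω' b h a ha
      by_cases hae : a = e
      · rwa [hae, update_self] at ha ⊢
      · rw [update_of_ne hae] at ha ⊢
        exact h a ha
    have ou : ∀ {k : (ι → Bool) → ℝ}, Op k →
        Op fun ω => qq * k (update ω e true) + (1 - qq) * k (update ω e false) :=
      fun h ω ω' hω => add_le_add (mul_le_mul_of_nonneg_left (h _ _ (r1 ω ω' _ hω)) q0)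
        (mul_le_mul_of_nonneg_left (h _ _ (r1 ω ω' _ hω)) q1)
    have r2 : ∀ (ω : ι → Bool) a, update ω e true a = false → update ω e false a = false := by
      intro ω a ha
      by_cases hae : a = e
      · rw [hae, update_self]
      · rwa [update_of_ne hae] at ha ⊢
    rw [int_upd nf e, int_upd ng e, int_upd (nf.mul ng) e]
    refine (ih (nu nf) (nu ng) (ou of) (ou og) fun ω ω' h => ?_).trans
      (int_le ((nu nf).mul (nu ng)) (nu (nf.mul ng)) fun ω => ?_)
    · have r3 : ∀ b, f (update ω e b) = f (update ω' e b) := fun b => hd _ _ fun a ha => by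
        by_cases hae : a = e
        · rw [hae, update_self, update_self]
        · rw [update_of_ne hae, update_of_ne hae]
          exact h a ((mem_insert.1 ha).resolve_left hae)
      simp only [r3]
    · nlinarith [mul_nonneg (mul_nonneg q0 q1) (mul_nonneg (sub_nonneg.2 (of _ _ (r2 ω)))
        (sub_nonneg.2 (og _ _ (r2 ω))))]

lemma op_ind {p : Om → Prop} (h : ∀ ω ω', (∀ e, ω e = false → ω' e = false) → p ω → p ω') :
    Op fun ω => ind (p ω) := fun ω ω' hω => by
  dsimp only
  by_cases hp : p ω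
  · rw [ind_pos hp, ind_pos (h ω ω' hω hp)]
  · rw [ind_neg hp]; exact ind_nonneg _

lemma harris_set {p q : Om → Prop} {S : Set (Sym2 V)} (hS : S.Finite) (dp : Dep S p)
    (mq : MeasurableSet {ω | q ω})
    (hp : ∀ ω ω', (∀ e, ω e = false → ω' e = false) → p ω → p ω')
    (hq : ∀ ω ω', (∀ e, ω e = false → ω' e = false) → q ω → q ω') :
    (PP _).real {ω | p ω} * (PP _).real {ω | q ω} ≤ (PP _).real {ω | p ω ∧ q ω} := by
  have mp : MeasurableSet {ω | p ω} := (dp.meas hS).setOf
  have h := harris hS.toFinset (nice_ind mp) (nice_ind mq) (op_ind hp) (op_ind hq)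
    fun ω ω' h => congrArg ind (dp ω ω' (by simpa using h))
  rw [int_ind mp, int_ind mq] at h
  rw [← int_ind (p := fun ω => p ω ∧ q ω) (mp.inter mq)]
  refine h.trans_eq (integral_congr_ae (ae_of_all _ fun ω => ?_))
  by_cases h1 : p ω <;> by_cases h2 : q ω <;> simp [ind, h1, h2]

/-- reflection exchanging the origin and `z` -/
def rf (z w : V) : V := pt (z 0 - w 1) (z 1 - w 0)

def refl (z : V) (ω : Om) : Om := fun e => ω (Sym2.map (rf z) e)

lemma map_refl (z : V) : (PP (Sym2 V)).map (refl z) = PP (Sym2 V) :=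
  Measure.map_infinitePi_infinitePi_of_inj (P := fun _ : Sym2 V => bern)
    (f := Sym2.map (rf z)) (Sym2.map.injective fun a b h => by
      simp only [rf, vext_iff, pt_zero, pt_one] at h ⊢
      omega)

lemma Rch_refl {ω : Om} {x y n : ℤ} (h : Rch (refl (site x n) ω) 0 0 y n) :
    Rch ω (x - n + y) 0 x n := by
  obtain ⟨h0, f, h1, h2, hf⟩ := h
  refine ⟨h0, fun t => x - (n - t) + f (n - t), by simp [h2], by simp [h1], fun t a b => ?_⟩
  obtain ⟨a1, a2⟩ := hf (n - (t + 1)) (by omega) (by omega)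
  rw [show n - (t + 1) + 1 = n - t by ring] at a1 a2
  refine ⟨by dsimp only; omega, ?_⟩
  rw [← a2]
  simp only [refl, ed, Sym2.map_mk]
  rw [Sym2.eq_swap]
  congr 2 <;> exact vext (by simp [rf]; ring) (by simp [rf]; ring)

lemma meas_rch (x s y u : ℤ) : MeasurableSet {ω | Rch ω x s y u} :=
  (Dep.meas (EB_fin x s u) (f := fun ω => Rch ω x s y u) fun _ _ h =>
    propext ⟨fun a => a.congr' le_rfl h, fun a => a.congr' le_rfl fun e he => (h e he).symm⟩).setOf

theorem hit_prob : ∃ δ > 0, ∀ n : ℕ, 1 ≤ n → δ ≤ (PP _).real {ω | Rch ω 0 0 ⌈al * n⌉ n} := by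
  obtain ⟨δ, hδ, h⟩ := edge_prob2
  refine ⟨(δ / 2) ^ 2, by positivity, fun n hn => ?_⟩
  set y := ⌈al * n⌉ with hy
  have hn0 : (0 : ℤ) ≤ n := Int.natCast_nonneg n
  have h1 : (n : ℤ) ≤ 2 * y := by
    have : (n : ℝ) ≤ 2 * ⌈al * n⌉ := by
      have := Int.le_ceil (al * n)
      nlinarith [al_ge, Nat.cast_nonneg (α := ℝ) n]
    exact_mod_cast this
  have h2 : 1 / 2 ≤ (PP _).real {ω | Surv ω 0 0 n} := by
    have a1 := prob_die 0 0 0 hn0
    have a2 : {ω : Om | Surv ω 0 0 (0 + (0 : ℕ)) ∧ ¬ Surv ω 0 0 n} = {ω | Surv ω 0 0 n}ᶜ := by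
      ext ω
      exact and_iff_right ⟨0, by simpa using Rch.refl ω 0 0⟩
    rw [a2, probReal_compl_eq_one_sub (meas_surv _ _ _)] at a1
    norm_num at a1
    linarith
  set A : Om → Prop := fun ω => ∃ w, y ≤ w ∧ Rch ω 0 0 w n with hA
  have dA : Dep (EB 0 0 n) A := fun _ _ h => propext
    ⟨fun ⟨w, a, b⟩ => ⟨w, a, b.congr' le_rfl h⟩,
      fun ⟨w, a, b⟩ => ⟨w, a, b.congr' le_rfl fun e he => (h e he).symm⟩⟩
  have h3 : δ / 2 ≤ (PP _).real {ω | A ω} := by
    have a1 := harris_set (EB_fin 0 0 n) (dep_surv 0 0 n) (q := fun ω => y ≤ R ω 0 0 n)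
      (measurableSet_le measurable_const ((dep_R 0 0 n).meas (EB_fin 0 0 n)))
      (fun ω ω' h ⟨w, a⟩ => ⟨w, a.anti h⟩) fun ω ω' h a => by
        obtain ⟨t, b1, b2⟩ := R_spec ω 0 hn0
        exact a.trans (le_R b1 (b2.anti h))
    refine le_trans ?_ (a1.trans (measureReal_mono (fun ω hω => ⟨_, hω.2, surv_R hω.1⟩)
      (measure_ne_top _ _)))
    nlinarith [mul_le_mul h2 (h n hn) hδ.le measureReal_nonneg]
  set B : Om → Prop := fun ω => ∃ x, 0 ≤ x ∧ Rch ω x 0 y n with hB
  have mB : MeasurableSet {ω | B ω} :=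
    (Measurable.exists fun x => measurable_const.and (meas_rch x 0 y n).mem).setOf
  have h4 : δ / 2 ≤ (PP _).real {ω | B ω} := by
    have hs : Measurable (refl (site y n)) := by unfold refl; fun_prop
    rw [← map_refl (site y n), map_measureReal_apply hs (dA.meas (EB_fin 0 0 n)).setOf] at h3
    exact h3.trans (measureReal_mono (fun ω ⟨w, a, b⟩ => ⟨_, by omega, Rch_refl b⟩)
      (measure_ne_top _ _))
  have h5 := harris_set (EB_fin 0 0 n) dA mB (fun ω ω' h ⟨w, a, b⟩ => ⟨w, a, b.anti h⟩)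
    fun ω ω' h ⟨w, a, b⟩ => ⟨w, a, b.anti h⟩
  refine le_trans ?_ (h5.trans (measureReal_mono ?_ (measure_ne_top _ _)))
  · rw [sq]
    exact mul_le_mul h3 h4 (by positivity) measureReal_nonneg
  · rintro ω ⟨⟨w, a1, a2⟩, x, b1, -, g, g1, g2, hg⟩
    obtain ⟨c, c1, c2, c3, -⟩ := a2.meet hg.inc (by omega) (by omega)
    exact c3.trans (g2 ▸ hg.rch c1 c2 le_rfl)

lemma sq_le_sum {x : ℝ} (hx : 0 ≤ x) (J : ℕ) :
    min x (J * 3) ^ 2 ≤ ∑ j ∈ range J, 9 * (2 * j + 1) * ind (0 + (j : ℝ) * (0 + 3) < x) := by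
  induction J with
  | zero => simp [min_eq_right hx]
  | succ J ih =>
    have hJ : (0 : ℝ) ≤ J := Nat.cast_nonneg J
    rw [sum_range_succ]
    push_cast
    by_cases h : 0 + (J : ℝ) * (0 + 3) < x
    · rw [min_eq_right (by linarith)] at ih
      rw [ind_pos h]
      have := pow_le_pow_left₀ (le_min hx (by positivity)) (min_le_right x ((J + 1) * 3)) 2
      nlinarith
    · rw [min_eq_left (by linarith)] at ih
      rw [ind_neg h, min_eq_left (by linarith)]
      linarith

theorem exc_bdd : ∃ C, ∀ n : ℕ, ∫ ω, exc (zz n) ω ^ 2 ∂PP _ ≤ C := by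
  obtain ⟨δ, hδ, h⟩ := hit_prob
  have hδ1 : δ ≤ 1 := (h 1 le_rfl).trans measureReal_le_one
  have hs : Summable fun j : ℕ => 9 * (2 * (j : ℝ) + 1) * (1 - δ) ^ j := by
    have a1 := summable_pow_mul_geometric_of_norm_lt_one 1 (r := 1 - δ)
      (by rw [Real.norm_eq_abs, abs_of_nonneg (by linarith)]; linarith)
    have a2 := summable_geometric_of_lt_one (r := 1 - δ) (by linarith) (by linarith)
    refine ((a1.mul_left 18).add (a2.mul_left 9)).congr fun j => by ring
  refine ⟨_, fun n => le_trans ?_ (hs.sum_le_tsum (range n) fun j _ =>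
    mul_nonneg (by positivity) (pow_nonneg (by linarith) _))⟩
  have n1 : ∀ j ∈ range n, Nice fun ω =>
      9 * (2 * (j : ℝ) + 1) * ind (0 + (j : ℝ) * (0 + 3) < exc (zz n) ω) := fun j _ =>
    (nice_ind (meas_exc _ _)).cmul _
  have hn0 : (0 : ℝ) ≤ n := Nat.cast_nonneg n
  refine (int_le (nice_exc _).sq (Nice.sum _ n1) fun ω => ?_).trans ?_
  · have a1 := TT_up2 ω 0 (zz n)
    rw [sub_zero, n1_zz] at a1
    have a2 := sq_le_sum (exc_nonneg (zz n) ω) n
    rwa [min_eq_left (by rw [exc, lvl_zz]; linarith)] at a2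
  · rw [integral_finsetSum _ fun j hj => (n1 j hj).integrable]
    refine sum_le_sum fun j hj => ?_
    rw [integral_const_mul, int_ind (meas_exc _ _)]
    refine mul_le_mul_of_nonneg_left ((tail_pow (by rw [lvl_zz]; exact hn0) le_rfl j).trans
      ((pow_le_pow_of_le_one measureReal_nonneg measureReal_le_one (Nat.le_succ j)).trans
        (pow_le_pow_left₀ measureReal_nonneg ?_ j))) (by positivity)
    have a1 := (h n (by have := mem_range.1 hj; omega)).trans (measureReal_mono
      (s₂ := {ω | 0 < exc (zz n) ω}ᶜ) (fun ω hω => by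
        have b1 := TT_rch hω
        rw [show site 0 0 = 0 from vext rfl rfl] at b1
        simp only [Set.mem_compl_iff, Set.mem_ofPred_eq, not_lt, exc, lvl_zz]
        simpa [zz] using b1) (measure_ne_top _ _))
    rw [probReal_compl_eq_one_sub (meas_exc _ _)] at a1
    linarith

end Pool.Agent.Lib.MP_eba68f_edge
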