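import Pool.Agent.Lib.MP_eba68f_edge.VarUp

/-! A covariance lower bound for the fluctuation of the right edge. -/

namespace Pool.Agent.Lib.MP_eba68f_edge

open MeasureTheory ProbabilityTheory Function Finset Filter Pool.Agent.Lib.MP_eba68f_pr

lemma surv_R {ω : Om} {x s u : ℤ} (h : Surv ω x s u) : Rch ω x s (R ω x s u) u := by
  obtain ⟨y, h0, f, rfl, rfl, hf⟩ := h
  obtain ⟨t, a1, a2⟩ := R_spec ω (f s) h0
  obtain ⟨c, b1, b2, -, b4⟩ := a2.meet (hf.inc.sub a1 le_rfl) ((hf.inc.sub le_rfl a2.1).bd a1).1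
    (le_R le_rfl (hf.rch le_rfl h0 le_rfl))
  exact (hf.rch le_rfl (a1.trans b1) b2).trans b4

lemma Rch.anti {ω ω' : Om} (hω : ∀ e, ω e = false → ω' e = false) {x s y u : ℤ}
    (h : Rch ω x s y u) : Rch ω' x s y u := by
  obtain ⟨h0, f, h1, h2, hf⟩ := h
  exact ⟨h0, f, h1, h2, fun t a b => ⟨(hf t a b).1, hω _ (hf t a b).2⟩⟩

lemma Rch.one {ω : Om} {x t y : ℤ} (h : Rch ω x t y (t + 1)) : St ω x t y := by
  obtain ⟨-, f, rfl, rfl, hf⟩ := h
  exact hf t le_rfl (by omega)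

noncomputable def Dl (y s u : ℤ) (ω : Om) : ℝ :=
  ind (Surv ω (y + 1) s u) * ((R ω (y + 1) s u : ℝ) - R ω y s u)

lemma nice_Rd {b b' s u : ℤ} (h : s ≤ u) : Nice fun ω => (R ω b' s u : ℝ) - R ω b s u :=
  (nice_R h fun y => (y : ℝ)).sub (nice_R h fun y => (y : ℝ))

lemma int_Rd {b b' s u : ℤ} (h : s ≤ u) :
    ∫ ω, ((R ω b' s u : ℝ) - R ω b s u) ∂PP _ = b' - b := by
  have key : ∀ c : ℤ, ∫ ω, (R ω c s u : ℝ) ∂PP _ = c + ∫ ω, (R ω 0 0 (u - s) : ℝ) ∂PP _ := by
    intro c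
    rw [← int_R c h fun y => (y : ℝ)]
    push_cast
    rw [int_sub (nice_R h fun y => (y : ℝ)) (Nice.const _), int_const]
    ring
  rw [int_sub (nice_R h fun y => (y : ℝ)) (nice_R h fun y => (y : ℝ)), key, key]
  ring

lemma nice_Dl {y s u : ℤ} (h : s ≤ u) : Nice (Dl y s u) :=
  (nice_ind (meas_surv _ _ _)).mul (nice_Rd h)

lemma dep_Dl (y s u : ℤ) : Dep (Lo s)ᶜ (Dl y s u) := fun ω ω' h => by
  have h1 := (dep_surv (y + 1) s u).mono (EB_hi _ u le_rfl) ω ω' h
  have h2 := (dep_R (y + 1) s u).mono (EB_hi _ u le_rfl) ω ω' h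
  have h3 := (dep_R y s u).mono (EB_hi _ u le_rfl) ω ω' h
  dsimp only at h1 h2 h3
  rw [Dl, Dl, h1, h2, h3]

lemma sum_half (m : ℕ) : ∑ j ∈ range m, ((j : ℝ) + 2) * (1 / 2) ^ j =
    6 - (2 * m + 6) * (1 / 2) ^ m := by
  induction m with
  | zero => simp
  | succ m ih => rw [sum_range_succ, ih]; push_cast; ring

lemma int_Dl (y s : ℤ) (m : ℕ) : 9 / 10 ≤ ∫ ω, Dl y s (s + m) ω ∂PP _ := by
  have hm : s ≤ s + m := by omega
  set D : ℕ → Om → Prop := fun j ω => Surv ω (y + 1) s (s + j) ∧ ¬ Surv ω (y + 1) s (s + j + 1)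
    with hD
  have hDm : ∀ j, MeasurableSet {ω | D j ω} := fun j =>
    (meas_surv _ _ _).inter (meas_surv _ _ _).compl
  set g : ℕ → Om → ℝ := fun j ω =>
    (R ω (y + j + 2) (s + j + 1) (s + m) : ℝ) - R ω y (s + j + 1) (s + m) with hg
  have hj : ∀ j ∈ range m, s + j + 1 ≤ s + m := fun j hj => by have := mem_range.1 hj; omega
  have n1 : ∀ j ∈ range m, Nice fun ω => ind (D j ω) * g j ω := fun j h =>
    (nice_ind (hDm j)).mul (nice_Rd (hj j h))
  have h1 := int_le (nice_Rd (b := y) (b' := y + 1) hm) ((nice_Dl hm).add (Nice.sum _ n1))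
    fun ω => by
      have e0 : ∀ j ∈ range m, 0 ≤ ind (D j ω) * g j ω := fun j h =>
        mul_nonneg (ind_nonneg _) (sub_nonneg.2 (by
          exact_mod_cast R_mono ω (by omega) le_rfl (hj j h)))
      by_cases hs : Surv ω (y + 1) s (s + m)
      · rw [Dl, ind_pos hs, one_mul]
        exact le_add_of_nonneg_right (sum_nonneg e0)
      · rw [Dl, ind_neg hs, zero_mul, zero_add]
        have hex : ∃ j ∈ range m, D j ω := by
          by_contra hc
          have : ∀ j ≤ m, Surv ω (y + 1) s (s + j) := by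
            intro j hj'
            induction j with
            | zero => exact ⟨y + 1, by simpa using Rch.refl ω (y + 1) s⟩
            | succ j ih =>
              by_contra h2
              exact hc ⟨j, mem_range.2 hj', ih (by omega), by rwa [add_assoc]⟩
          exact hs (this m le_rfl)
        obtain ⟨j, a1, a2⟩ := hex
        refine le_trans ?_ (single_le_sum e0 a1)
        rw [ind_pos a2, one_mul]
        have b1 := R_sub ω (y + 1) (show s ≤ s + j + 1 by omega) (hj j a1)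
        have b2 := R_mono ω (show R ω (y + 1) s (s + j + 1) ≤ y + j + 2 by
          have := (R_bd ω (y + 1) (show s ≤ s + j + 1 by omega)).2; omega) le_rfl (hj j a1)
        have b3 := R_mono ω (le_refl y) (show s ≤ s + j + 1 by omega) (hj j a1)
        simp only [hg]
        exact_mod_cast sub_le_sub (b1.trans b2) b3
  rw [int_Rd hm, int_add (nice_Dl hm) (Nice.sum _ n1),
    integral_finsetSum _ fun j h => (n1 j h).integrable] at h1
  have h2 : ∑ j ∈ range m, ∫ ω, ind (D j ω) * g j ω ∂PP _ ≤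
      ∑ j ∈ range m, ((j : ℝ) + 2) * (1 / 2) ^ j / 64 := by
    refine sum_le_sum fun j h => ?_
    rw [int_mul_dep (Lo (s + j + 1)) (nice_ind (hDm j)) (nice_Rd (hj j h)), int_ind (hDm j),
      int_Rd (hj j h)]
    · have := prob_die (y + 1) s j (N := s + j + 1) (by omega)
      push_cast
      have e : (0 : ℝ) ≤ (j : ℝ) + 2 := by positivity
      nlinarith [mul_le_mul_of_nonneg_right this e]
    · intro ω ω' hω
      have a1 := (dep_surv (y + 1) s (s + j)).mono (EB_lo _ s (by omega)) ω ω' hω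
      have a2 := (dep_surv (y + 1) s (s + j + 1)).mono (EB_lo _ s le_rfl) ω ω' hω
      dsimp only at a1 a2
      simp only [hD, a1, a2]
    · intro ω ω' hω
      have a1 := (dep_R (y + j + 2) (s + j + 1) (s + m)).mono (EB_hi _ _ le_rfl) ω ω' hω
      have a2 := (dep_R y (s + j + 1) (s + m)).mono (EB_hi _ _ le_rfl) ω ω' hω
      dsimp only at a1 a2 ⊢
      rw [a1, a2]
  rw [← sum_div, sum_half] at h2
  have h3 : (0 : ℝ) ≤ (2 * m + 6) * (1 / 2) ^ m := by positivity
  push_cast at h1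
  linarith

lemma upd_lo {β : Type} {t : ℤ} {f : Om → β} (hf : Dep (Lo t) f) (ω : Om) (x y : ℤ) (b : Bool) :
    f (update ω (ed x t y) b) = f ω := hf _ _ fun e he => update_of_ne (by
      rintro rfl
      simp [Lo, lv_ed] at he) _ _

lemma upd_hi {β : Type} {t : ℤ} {f : Om → β} (hf : Dep (Lo (t + 1))ᶜ f) (ω : Om) (x y : ℤ)
    (b : Bool) : f (update ω (ed x t y) b) = f ω := hf _ _ fun e he => update_of_ne (by
      rintro rfl
      simp [Lo, lv_ed] at he) _ _

lemma dep_r (t : ℤ) : Dep (Lo t) fun ω => R ω 0 0 t := (dep_R 0 0 t).mono (EB_lo _ _ le_rfl)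

lemma DD_RR (ω : Om) {t n : ℕ} (h : t < n) :
    DD (ed (R ω 0 0 t) t (R ω 0 0 t + 1)) (RR n) ω ≤ -Dl (R ω 0 0 t) (t + 1) n ω := by
  set y := R ω 0 0 t with hy
  set e := ed y t (y + 1) with he
  have h0 : (0 : ℤ) ≤ t := Int.natCast_nonneg t
  have h1 : (t : ℤ) + 1 ≤ n := by omega
  unfold DD RR Dl
  by_cases hs : Surv ω (y + 1) (t + 1) n
  · rw [ind_pos hs, one_mul]
    have a1 : R (update ω e true) 0 0 (t + 1) ≤ y := by
      obtain ⟨r, b1, b2⟩ := R_spec (update ω e true) 0 (show (0 : ℤ) ≤ t + 1 by omega)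
      by_cases hr : r ≤ t
      · obtain ⟨w, b3, b4⟩ := b2.split hr (by omega)
        have b5 := (le_R b1 b3).trans_eq (upd_lo (dep_r t) ω y (y + 1) true)
        obtain ⟨b6, b7⟩ := b4.one
        by_contra hc
        rw [show w = y by omega, show R (update ω e true) 0 0 (t + 1) = y + 1 by omega, ← he,
          update_self] at b7
        exact absurd b7 (by simp)
      · have := b2.bd
        have := b2.1
        have := (R_bd ω 0 h0).1
        omega
    have a2 := ((R_sub (update ω e true) 0 (by omega) h1).trans (R_mono _ a1 le_rfl h1)).trans_eq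
      (upd_hi ((dep_R y (t + 1) n).mono (EB_hi _ _ le_rfl)) ω y (y + 1) true)
    have a3 : R ω (y + 1) (t + 1) n ≤ R (update ω e false) 0 0 n := by
      obtain ⟨r, b1, b2⟩ := R_spec (update ω e false) 0 h0
      rw [upd_lo (dep_r t) ω y (y + 1) false, ← hy] at b2
      have b3 : St (update ω e false) y t (y + 1) := ⟨Or.inr rfl, update_self _ _ _⟩
      have b4 := surv_R ((upd_hi ((dep_surv (y + 1) (t + 1) n).mono (EB_hi _ _ le_rfl)) ω y (y + 1)
        false).mpr hs)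
      rw [upd_hi ((dep_R (y + 1) (t + 1) n).mono (EB_hi _ _ le_rfl)) ω y (y + 1) false] at b4
      exact le_R b1 ((b2.trans b3.rch).trans b4)
    rw [neg_sub]
    exact_mod_cast sub_le_sub a2 a3
  · rw [ind_neg hs, zero_mul, neg_zero, sub_nonpos]
    obtain ⟨r, b1, b2⟩ := R_spec (update ω e true) 0 (Int.natCast_nonneg n)
    have := le_R b1 (b2.anti (ω' := update ω e false) fun a ha => by
      by_cases hae : a = e
      · rw [hae, update_self]
      · rwa [update_of_ne hae] at ha ⊢)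
    exact_mod_cast this

noncomputable def xi (t : ℕ) (ω : Om) : ℝ := XX (ed (R ω 0 0 t) t (R ω 0 0 t + 1)) ω

lemma nice_xi (t : ℕ) : Nice (xi t) :=
  nice_adapt _ (R_mem (Int.natCast_nonneg t)) (meas_R 0 0 t)
    (g := fun k ω => XX (ed k t (k + 1)) ω) fun _ => nice_XX _

lemma xi_sq (t : ℕ) (ω : Om) : xi t ω ^ 2 ≤ 1 := by
  unfold xi XX qq
  split_ifs <;> norm_num

lemma int_xi (t : ℕ) {F : Om → ℝ} (hF : Nice F) : ∫ ω, F ω * xi t ω ∂PP _ =
    qq * (1 - qq) * ∫ ω, DD (ed (R ω 0 0 t) t (R ω 0 0 t + 1)) F ω ∂PP _ := by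
  have hK := R_mem (b := 0) (Int.natCast_nonneg t)
  have e1 : (fun ω => F ω * xi t ω) =
      fun ω => ∑ k ∈ Icc (0 : ℤ) (0 + (t - 0)), ind (R ω 0 0 t = k) * F ω * XX (ed k t (k + 1)) ω := by
    funext ω
    simp only [mul_assoc]
    exact eq_sum_ind _ _ (hK ω) fun k => F ω * XX (ed k t (k + 1)) ω
  have e2 : (fun ω => DD (ed (R ω 0 0 t) t (R ω 0 0 t + 1)) F ω) =
      fun ω => ∑ k ∈ Icc (0 : ℤ) (0 + (t - 0)), ind (R ω 0 0 t = k) * DD (ed k t (k + 1)) F ω :=
    funext fun ω => eq_sum_ind _ _ (hK ω) fun k => DD (ed k t (k + 1)) F ω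
  have n1 : ∀ k, Nice fun ω => ind (R ω 0 0 t = k) * F ω := fun k =>
    (nice_ind (meas_R 0 0 t k)).mul hF
  rw [e1, e2, integral_finsetSum _ fun k _ => ((n1 k).mul (nice_XX _)).integrable,
    integral_finsetSum _ fun k _ => ((nice_ind (meas_R 0 0 t k)).mul (hF.dd _)).integrable,
    mul_sum]
  refine sum_congr rfl fun k _ => ?_
  rw [int_mul_XX (n1 k)]
  refine congrArg _ (integral_congr_ae (ae_of_all _ fun ω => ?_))
  simp only [DD, upd_lo (dep_r t) ω k (k + 1)]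
  ring

lemma int_xi_zero (t : ℕ) {F : Om → ℝ} (hF : Nice F) (dF : Dep (Lo t) F) :
    ∫ ω, F ω * xi t ω ∂PP _ = 0 := by
  rw [int_xi t hF]
  simp only [DD, upd_lo dF, sub_self, integral_zero, mul_zero]

noncomputable def WW (n : ℕ) (ω : Om) : ℝ := ∑ t ∈ range n, xi t ω

lemma nice_WW (n : ℕ) : Nice (WW n) := Nice.sum _ fun t _ => nice_xi t

lemma dep_WW (n : ℕ) : Dep (Lo n) (WW n) := fun ω ω' h => sum_congr rfl fun t ht => by
  have ht' := mem_range.1 ht
  have h1 := (dep_R 0 0 t).mono (EB_lo _ _ (show (t : ℤ) ≤ n by omega)) ω ω' h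
  dsimp only at h1
  rw [xi, xi, h1, XX, XX, h _ (by simp only [Lo, Set.mem_ofPred_eq, lv_ed]; omega)]

lemma WW_mom (n : ℕ) : ∫ ω, WW n ω ^ 2 ∂PP _ ≤ n ∧ ∫ ω, (WW n ω ^ 2) ^ 2 ∂PP _ ≤ 7 * n ^ 2 := by
  induction n with
  | zero => simp [WW]
  | succ n ih =>
    have hW := nice_WW n
    have hx := nice_xi n
    have e : ∀ ω, WW (n + 1) ω = WW n ω + xi n ω := fun ω => sum_range_succ _ _
    have z1 := int_xi_zero n hW (dep_WW n)
    have z3 := int_xi_zero n (hW.sq.mul hW) fun ω ω' h => by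
      rw [dep_WW n ω ω' h]
    have h1 := int_le (nice_WW (n + 1)).sq ((hW.sq.add ((hW.mul hx).cmul 2)).add (Nice.const 1))
      fun ω => by rw [e]; nlinarith [xi_sq n ω]
    have h2 := int_le (nice_WW (n + 1)).sq.sq (((hW.sq.sq.add (((hW.sq.mul hW).mul hx).cmul 4)).add
      (hW.sq.cmul 8)).add (Nice.const 3)) fun ω => by
        rw [e]
        have a1 := xi_sq n ω
        have a2 := mul_le_mul_of_nonneg_left a1 (sq_nonneg (WW n ω))
        have a3 := mul_le_mul a1 a1 (sq_nonneg _) zero_le_one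
        have a4 := mul_le_mul a3 a1 (sq_nonneg _) (by norm_num)
        nlinarith [sq_nonneg (WW n ω - xi n ω ^ 3)]
    rw [int_add (hW.sq.add ((hW.mul hx).cmul 2)) (Nice.const 1), int_add hW.sq ((hW.mul hx).cmul 2),
      integral_const_mul, z1, int_const] at h1
    rw [int_add ((hW.sq.sq.add (((hW.sq.mul hW).mul hx).cmul 4)).add (hW.sq.cmul 8)) (Nice.const 3),
      int_add (hW.sq.sq.add (((hW.sq.mul hW).mul hx).cmul 4)) (hW.sq.cmul 8),
      int_add hW.sq.sq (((hW.sq.mul hW).mul hx).cmul 4), integral_const_mul, integral_const_mul,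
      z3, int_const] at h2
    push_cast
    have : (0 : ℝ) ≤ n := Nat.cast_nonneg n
    constructor <;> nlinarith [ih.1, ih.2]

lemma cov_RW (n : ℕ) : ∫ ω, (RR n ω - aa n) * WW n ω ∂PP _ ≤ -(1 / 80 * n) := by
  have hY : Nice fun ω => RR n ω - aa n := (nice_RR n).sub (Nice.const _)
  simp only [WW, mul_sum]
  rw [integral_finsetSum _ fun t _ => (hY.mul (nice_xi t)).integrable]
  refine (sum_le_card_nsmul _ _ (-(1 / 80)) fun t ht => ?_).trans (by simp [mul_comm])
  have ht' := mem_range.1 ht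
  have h0 : (0 : ℤ) ≤ t := Int.natCast_nonneg t
  have h1 : (t : ℤ) + 1 ≤ n := by omega
  simp only [sub_mul]
  rw [int_sub ((nice_RR n).mul (nice_xi t)) ((Nice.const _).mul (nice_xi t)),
    int_xi_zero t (Nice.const _) (fun _ _ _ => rfl), sub_zero, int_xi t (nice_RR n)]
  have n1 := nice_adapt _ (R_mem h0) (meas_R 0 0 t) (g := fun k => Dl k (t + 1) n)
    fun _ => nice_Dl h1
  have h2 := int_le (nice_adapt _ (R_mem h0) (meas_R 0 0 t)
    (g := fun k => DD (ed k t (k + 1)) (RR n)) fun _ => (nice_RR n).dd _) (n1.cmul (-1))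
    fun ω => by rw [neg_one_mul]; exact DD_RR ω ht'
  rw [integral_const_mul, stop _ (R_mem h0) (meas_R 0 0 t) (fun _ => Lo (t + 1))
    (fun ω ω' h => ((dep_R 0 0 t).mono (EB_lo _ _ (by omega)) ω ω' h).symm)
    (g := fun k => Dl k (t + 1) n) (fun _ => nice_Dl h1) fun k => dep_Dl k _ _] at h2
  have h3 := int_le (Nice.const (9 / 10)) (nice_R (b := 0) h0 fun k => ∫ ω, Dl k (t + 1) n ω ∂PP _)
    fun ω => by
      have := int_Dl (R ω 0 0 t) (t + 1) (n - (t + 1))
      rwa [show (t : ℤ) + 1 + (n - (t + 1) : ℕ) = n by omega] at this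
  rw [int_const] at h3
  unfold qq
  linarith

lemma pz {Y W : Om → ℝ} (hY : Nice Y) (hW : Nice W) {n c L : ℝ} (hn : 0 < n) (hc : 0 < c)
    (hL : 7 ≤ L) (h0 : ∫ ω, Y ω ∂PP _ = 0) (h1 : ∫ ω, Y ω ^ 2 ∂PP _ ≤ L * n)
    (h2 : ∫ ω, (W ω ^ 2) ^ 2 ∂PP _ ≤ 7 * n ^ 2) (h3 : ∫ ω, Y ω * W ω ∂PP _ ≤ -(c * n)) :
    c ^ 4 ≤ 128 * L ^ 3 * (PP _).real {ω | 0 ≤ Y ω} := by
  obtain ⟨s, hs, rfl⟩ : ∃ s, 0 < s ∧ n = s ^ 2 := ⟨√n, Real.sqrt_pos.2 hn, (Real.sq_sqrt hn.le).symm⟩
  have hm : MeasurableSet {ω | 0 ≤ Y ω} := measurableSet_le measurable_const hY.1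
  have hL0 : 0 < L := by linarith
  set K := 4 * L / c with hK
  set b := c / (4 * K * L) with hb
  have hK0 : 0 < K := by positivity
  have hb0 : 0 < b := by positivity
  have n1 := hY.sq.cmul (K * b + 1 / (2 * K))
  have n2 := (nice_ind hm).cmul (K * s ^ 2 / b)
  have n3 := hY.cmul (K * s)
  have n4 := hW.sq.sq.cmul (1 / (2 * K * s ^ 2))
  have h4 := int_le ((hY.mul hW).cmul (-1)) (((n1.add n2).sub n3).add n4) fun ω => by
    set y := Y ω
    set w := W ω
    have a1 : |w| ≤ K * s + w ^ 2 / (K * s) := by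
      rw [← sq_abs w, ← sub_le_iff_le_add', le_div_iff₀ (by positivity)]
      nlinarith [sq_nonneg (|w| - K * s), mul_pos hK0 hs, abs_nonneg w]
    have a2 : -1 * (y * w) ≤ |y| * (K * s + w ^ 2 / (K * s)) := by
      refine le_trans ?_ (mul_le_mul_of_nonneg_left a1 (abs_nonneg y))
      rw [← abs_mul, neg_one_mul]
      exact neg_le_abs _
    have a3 : |y| * (w ^ 2 / (K * s)) ≤ 1 / (2 * K) * y ^ 2 + 1 / (2 * K * s ^ 2) * (w ^ 2) ^ 2 := by
      have e : 1 / (2 * K) * |y| ^ 2 + 1 / (2 * K * s ^ 2) * (w ^ 2) ^ 2 - |y| * (w ^ 2 / (K * s)) =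
          1 / (2 * K) * (|y| - w ^ 2 / s) ^ 2 := by field_simp; ring
      have : 0 ≤ 1 / (2 * K) * (|y| - w ^ 2 / s) ^ 2 := by positivity
      rw [← sq_abs y]
      linarith
    have a4 : |y| * (K * s) ≤ K * b * y ^ 2 + K * s ^ 2 / b * ind (0 ≤ y) - K * s * y := by
      by_cases hy : 0 ≤ y
      · rw [ind_pos hy, abs_of_nonneg hy]
        have e : K * b * y ^ 2 + K * s ^ 2 / b * 1 - K * s * y - y * (K * s) =
            K * b * (y - s / b) ^ 2 := by field_simp; ring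
        have : 0 ≤ K * b * (y - s / b) ^ 2 := by positivity
        linarith
      · rw [ind_neg hy, abs_of_neg (not_le.1 hy)]
        have : 0 ≤ K * b * y ^ 2 := by positivity
        linarith
    nlinarith
  rw [int_add ((n1.add n2).sub n3) n4, int_sub (n1.add n2) n3, int_add n1 n2, integral_const_mul,
    integral_const_mul, integral_const_mul, integral_const_mul, integral_const_mul, h0,
    int_ind hm] at h4
  set p := (PP _).real {ω | 0 ≤ Y ω}
  have h5 := mul_le_mul_of_nonneg_left h1 (show 0 ≤ K * b + 1 / (2 * K) by positivity)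
  have h6 := mul_le_mul_of_nonneg_left h2 (show 0 ≤ 1 / (2 * K * s ^ 2) by positivity)
  have e1 : (K * b + 1 / (2 * K)) * (L * s ^ 2) = 3 / 8 * (c * s ^ 2) := by
    rw [hb, hK]; field_simp; ring
  have e2 : 1 / (2 * K * s ^ 2) * (7 * (s ^ 2) ^ 2) = 7 / L / 8 * (c * s ^ 2) := by
    rw [hK]; field_simp; ring
  have e3 : 7 / L / 8 * (c * s ^ 2) ≤ 1 / 8 * (c * s ^ 2) :=
    mul_le_mul_of_nonneg_right (by have := (div_le_one hL0).2 hL; linarith) (by positivity)
  have h7 : 1 / 2 * (c * s ^ 2) ≤ K * s ^ 2 / b * p := by linarith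
  have e4 : K * s ^ 2 / b * p = (128 * L ^ 3 * p) * (s ^ 2 / (2 * c ^ 3)) := by
    rw [hb, hK]; field_simp; ring
  have e5 : 1 / 2 * (c * s ^ 2) = c ^ 4 * (s ^ 2 / (2 * c ^ 3)) := by field_simp
  rw [e4, e5] at h7
  exact le_of_mul_le_mul_right h7 (by positivity)

end Pool.Agent.Lib.MP_eba68f_edge
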