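import Pool.Agent.Lib.MP_eba68f_pr.Main

/-! The variance lower bound in the direction of a supporting parabola, with the parabola
kept as a hypothesis (proofs as in the files Curv, Heavy, Main). -/

namespace Pool.Agent.Lib.MP_eba68f_edge

open MeasureTheory ProbabilityTheory Function Filter SimpleGraph Pool.Agent.Lib.MP_eba68f_pr
open scoped NNReal ENNReal

theorem curv' {ψ t : ℝ} (H : Good ψ t) : ∀ v : ℝ, 1 ≤ v → ∀ x z : V, 2 ≤ x 0 → |ww t x| ≤ 2 →
    n1 x ≤ v ^ 16 → n1 z ≤ 2 * v ^ 16 → mm z + mm (x - z) ≤ mm x + 1600 * v ^ 12 →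
    |ww t z| ≤ 8000 * v ^ 15 := by
  intro v hv x z h0 hw hx hz hadd
  have h1 := H.excess hv h0 hw hx
  obtain ⟨k1, k2⟩ := H.key z
  have k3 := (H.key (x - z)).1
  rw [ff_sub] at k3
  have h12 : v ^ 12 ≤ v ^ 14 := pow_le_pow_right₀ hv (by norm_num)
  have h14 : 0 ≤ v ^ 14 := by positivity
  apply abs_le_of_sq_le_sq _ (by positivity)
  have : 4 * n1 z * (mm z - ff ψ t z) ≤ 4 * (2 * v ^ 16) * (8000000 * v ^ 14) :=
    mul_le_mul (by linarith) (by linarith) k1 (by positivity)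
  linarith [show (8000 * v ^ 15) ^ 2 = 4 * (2 * v ^ 16) * (8000000 * v ^ 14) by ring]

open Finset in
theorem var_lower' {ψ t : ℝ} (H : Good ψ t) : ∀ v : ℕ, 1 ≤ v → ∀ x : V, (2000000 : ℝ) ≤ x 0 →
    |ww t x| ≤ 2 → n1 x ≤ (v : ℝ) ^ 16 →
    qq * (1 - qq) * (bb * x 0 / 2000) ^ 2 ≤ 200000 * (v : ℝ) ^ 31 * Vr fun ω => TT ω 0 x := by
  have ht := H.t_le
  have hcurv := curv' H
  intro v hv x ha hw hx
  have hv' : (1 : ℝ) ≤ v := by exact_mod_cast hv
  set f : Om → ℝ := fun ω => TT ω 0 x with hf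
  have hfn : Nice f := nice_TT 0 x
  set N : Om → ℝ := fun ω => ∑ e ∈ stripE t v, DD e f ω with hN
  have hNn : Nice N := Nice.sum _ fun e _ => hfn.dd e
  have hN0 : ∀ ω, 0 ≤ N ω := fun ω => sum_nonneg fun e _ => DD_nonneg 0 x e ω
  have hA := badA_le (u := (v : ℝ) ^ 4) (one_le_pow₀ hv') x (by rw [← pow_mul]; exact hx)
  have hB := badB_le x ha (by
    have h1 : (x 1 : ℝ) = ww t x + t * x 0 := by unfold ww; ring
    rw [h1]
    refine (abs_add_le _ _).trans ?_
    rw [abs_mul, abs_of_pos (show (0 : ℝ) < x 0 by linarith)]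
    nlinarith)
  have hcover : (Set.univ : Set Om) ⊆ {ω | bb * x 0 / 1000 ≤ N ω} ∪
      (BadA x (1600 * ((v : ℝ) ^ 4) ^ 3) ∪ BadB x (x 0 / 1000)) := by
    intro ω _
    by_contra hcon
    simp only [Set.mem_union, not_or, Set.mem_ofPred_eq] at hcon
    obtain ⟨h1, h2, h3⟩ := hcon
    obtain ⟨p, hp, hg⟩ := exists_geo ω 0 x
    have hsupp : ∀ z ∈ p.support, z ∈ strip t v := by
      intro z hz
      have h4 := TT_split ω p hz
      rw [hg] at h4
      have h5 : n1 z ≤ 2 * (v : ℝ) ^ 16 := by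
        have e1 := TT_ge ω 0 z
        have e2 := TT_up2 ω 0 x
        have e3 := (n1_nonneg _).trans (TT_ge ω z x)
        rw [sub_zero] at e1 e2
        linarith
      refine mem_strip h5 (hcurv v hv' x z (by exact_mod_cast (show (2 : ℝ) ≤ x 0 by linarith))
        hw hx h5 ?_)
      by_contra hc
      exact h2 ⟨z, h4, by rw [← pow_mul]; exact not_le.1 hc⟩
    have hedge : ∀ e ∈ p.edges, e ∈ stripE t v := by
      intro e he
      induction e using Sym2.ind with
      | h y z =>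
        exact mem_stripE (p.adj_of_mem_edges he) (hsupp _ (p.fst_mem_support_of_mem_edges he))
          (hsupp _ (p.snd_mem_support_of_mem_edges he))
    have h4 : (x 0 : ℝ) / 1000 < ((p.edges.toFinset.filter fun e => ω e = true).card : ℝ) := by
      by_contra hc
      exact h3 ⟨p, hp, by simpa using geo_length hg, not_lt.1 hc⟩
    apply h1
    have h5 : ∑ e ∈ p.edges.toFinset.filter fun e => ω e = true, DD e f ω ≤ N ω :=
      sum_le_sum_of_subset_of_nonneg
        (fun e he => hedge e (List.mem_toFinset.1 (mem_filter.1 he).1))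
        fun e _ _ => DD_nonneg 0 x e ω
    have h6 := card_nsmul_le_sum (p.edges.toFinset.filter fun e => ω e = true)
      (fun e => DD e f ω) bb fun e he =>
        DD_ge hp hg (mem_filter.1 he).2 (List.mem_toFinset.1 (mem_filter.1 he).1)
    rw [nsmul_eq_mul] at h6
    nlinarith [bb_pos]
  have hhalf : 1 / 2 ≤ (PP _).real {ω | bb * x 0 / 1000 ≤ N ω} := by
    have h1 := (measureReal_mono (μ := PP (Sym2 V)) hcover (measure_ne_top _ _)).trans
      ((measureReal_union_le _ _).trans (add_le_add le_rfl (measureReal_union_le _ _)))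
    rw [probReal_univ] at h1
    linarith
  have hc : 0 ≤ bb * x 0 / 1000 := by have := bb_pos; positivity
  have h1 := markov hNn hN0 (bb * x 0 / 1000)
  have h2 : bb * x 0 / 2000 ≤ ∑ e ∈ stripE t v, ∫ ω, DD e f ω ∂PP _ := by
    rw [← integral_finsetSum _ fun e _ => (hfn.dd e).integrable]
    nlinarith [mul_le_mul_of_nonneg_left hhalf hc]
  have h3 := cov_bound (stripE t v) hfn
  have h4 : 0 ≤ Vr f := integral_nonneg fun ω => sq_nonneg _
  have h5 := mul_le_mul_of_nonneg_right (card_stripE t hv) h4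
  have h6 := mul_le_mul_of_nonneg_left (pow_le_pow_left₀ (by linarith) h2 2)
    (mul_nonneg qq_pos.le (sub_nonneg.2 qq_lt.le))
  linarith

theorem dir_good {ψ t : ℝ} (H : Good ψ t) : ∃ c : ℝ, 0 < c ∧
    ‖(!₂[c, c * t] : EuclideanSpace ℝ (Fin 2))‖ = 1 ∧
    ((1 / 32 : ℝ) : EReal) ≤ chi FF !₂[c, c * t] := by
  have ht := H.t_le
  have hvar := var_lower' H
  have ht1 : |t| ≤ 1 := by linarith [bb_le]
  have ht2 : t ^ 2 ≤ 1 := by rw [← sq_abs]; nlinarith [abs_nonneg t]
  set c := (√(1 + t ^ 2))⁻¹ with hc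
  have hs1 : 1 ≤ √(1 + t ^ 2) := Real.one_le_sqrt.2 (by nlinarith)
  have hs2 : √(1 + t ^ 2) ≤ 2 := Real.sqrt_le_iff.2 ⟨by norm_num, by nlinarith⟩
  have hc1 : c ≤ 1 := inv_le_one_of_one_le₀ hs1
  have hc2 : 1 / 2 ≤ c := by rw [hc, one_div]; exact inv_anti₀ (by linarith) hs2
  have hcsq : c ^ 2 * (1 + t ^ 2) = 1 := by
    rw [hc, inv_pow, Real.sq_sqrt (by positivity)]; field_simp
  refine ⟨c, by linarith, ?_, ?_⟩
  · rw [EuclideanSpace.norm_eq, Fin.sum_univ_two]
    simp only [Real.norm_eq_abs, sq_abs]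
    rw [Real.sqrt_eq_one]
    simp
    linarith
  set y : EuclideanSpace ℝ (Fin 2) := !₂[c, c * t] with hy
  set c₀ := qq * (1 - qq) * (bb / 8000) ^ 2 / (200000 * 2 ^ 31) with hc₀
  have hc₀pos : 0 < c₀ := by
    have := qq_pos
    have := sub_pos.2 qq_lt
    have := bb_pos
    positivity
  have hlow : ∀ j : ℕ, 3 ≤ j → ENNReal.ofReal (c₀ * j) ≤ passVar FF y (j ^ 16) := by
    intro j hj
    have hj' : (3 : ℝ) ≤ j := by exact_mod_cast hj
    have hN : (8000000 : ℝ) ≤ (j : ℝ) ^ 16 :=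
      le_trans (by norm_num) (pow_le_pow_left₀ (by norm_num) hj' 16)
    set N := (j : ℝ) ^ 16 with hNdef
    set x : V := fun i => ⌊((j ^ 16 : ℕ) : ℝ) * y i⌋ with hx
    have hx0 : x 0 = ⌊N * c⌋ := by simp [hx, hy, hNdef]
    have hx1 : x 1 = ⌊N * (c * t)⌋ := by simp [hx, hy, hNdef]
    have a1 := Int.floor_le (N * c)
    have a2 := Int.lt_floor_add_one (N * c)
    have b1 := Int.floor_le (N * (c * t))
    have b2 := Int.lt_floor_add_one (N * (c * t))
    rw [← hx0] at a1 a2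
    rw [← hx1] at b1 b2
    have hNc1 : N * c ≤ N := mul_le_of_le_one_right (by linarith) hc1
    have hNc2 : N / 2 ≤ N * c := by nlinarith
    have ha : N / 4 ≤ x 0 := by linarith
    obtain ⟨t1, t2⟩ := abs_le.1 ht1
    have hw : |ww t x| ≤ 2 := by
      have e : ww t x = ((x 1 : ℝ) - N * (c * t)) + t * (N * c - x 0) := by unfold ww; ring
      rw [e, abs_le]
      constructor <;> nlinarith
    have hn1 : n1 x ≤ ((2 * j : ℕ) : ℝ) ^ 16 := by
      have e1 : |(x 1 : ℝ)| ≤ N + 1 := by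
        rw [abs_le]
        constructor <;> nlinarith
      unfold n1
      rw [abs_of_pos (show (0 : ℝ) < x 0 by linarith)]
      push_cast
      rw [mul_pow, ← hNdef]
      linarith
    have h1 := hvar (2 * j) (by omega) x (by linarith) hw hn1
    rw [passVar_eq]
    refine ENNReal.ofReal_le_ofReal ?_
    have h2 : bb / 8000 * N ≤ bb * x 0 / 2000 := by nlinarith [bb_pos]
    have h3 := mul_le_mul_of_nonneg_left
      (pow_le_pow_left₀ (by have := bb_pos; positivity) h2 2)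
      (mul_nonneg qq_pos.le (sub_nonneg.2 qq_lt.le))
    have h4 := h3.trans h1
    push_cast at h4
    have h5 : (0 : ℝ) < 200000 * (2 * (j : ℝ)) ^ 31 := by positivity
    refine le_of_mul_le_mul_left (le_trans (le_of_eq ?_) h4) h5
    rw [hc₀, hNdef]
    field_simp
  refine le_sInf ?_
  rintro _ ⟨κ, hκ, rfl⟩
  simp only [Set.mem_ofPred_eq] at hκ
  by_contra hlt
  have hlt : κ < 1 / 32 := EReal.coe_lt_coe_iff.1 (not_le.1 hlt)
  obtain ⟨B, hB1, hB2⟩ := ENNReal.lt_iff_exists_nnreal_btwn.1 hκ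
  have h1 := eventually_lt_of_limsup_lt hB1
  have h2 := (tendsto_pow_atTop (α := ℕ) (n := 16) (by norm_num)).eventually h1
  have h3 : Tendsto (fun j : ℕ => c₀ * (j : ℝ) ^ (1 - 32 * κ)) atTop atTop :=
    ((tendsto_rpow_atTop (by linarith)).comp tendsto_natCast_atTop_atTop).const_mul_atTop hc₀pos
  obtain ⟨j, ⟨e1, e2⟩, e3⟩ := ((h2.and (h3.eventually_gt_atTop B)).and
    (eventually_ge_atTop 3)).exists
  have hj : (0 : ℝ) < j := by exact_mod_cast (show 0 < j by omega)
  have e4 := (mul_le_mul_right (hlow j e3) _).trans_lt e1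
  rw [← ENNReal.ofReal_mul (by positivity), ENNReal.ofReal_lt_coe_iff (by positivity)] at e4
  have e5 : (((j ^ 16 : ℕ) : ℝ)) ^ (-2 * κ) * (c₀ * j) = c₀ * (j : ℝ) ^ (1 - 32 * κ) := by
    push_cast
    rw [← Real.rpow_natCast, ← Real.rpow_mul hj.le, Real.rpow_sub hj, Real.rpow_one,
      show ((16 : ℕ) : ℝ) * (-2 * κ) = -(32 * κ) by push_cast; ring, Real.rpow_neg hj.le]
    ring
  linarith

end Pool.Agent.Lib.MP_eba68f_edge
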