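import Pool.Agent.Lib.MP_eba68f_edge.Path

/-! Peierls estimate: a site which survives for a long time and then dies is unlikely. -/

namespace Pool.Agent.Lib.MP_eba68f_edge

open MeasureTheory ProbabilityTheory Function Finset SimpleGraph Pool.Agent.Lib.MP_eba68f_pr

def DR (ω : Om) (s : ℤ) (u v : V) : Prop :=
  ∃ p : G.Walk u v, DOpen ω p ∧ ∀ z ∈ p.support, s ≤ z 0 + z 1

lemma DR.trans {ω : Om} {s : ℤ} {u v w : V} (h : DR ω s u v) (h' : DR ω s v w) : DR ω s u w := by
  obtain ⟨p, a1, a2⟩ := h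
  obtain ⟨q, b1, b2⟩ := h'
  refine ⟨p.append q, fun d hd => ?_, fun z hz => ?_⟩
  · rw [Walk.darts_append, List.mem_append] at hd
    exact hd.elim (a1 d) (b1 d)
  · exact (Walk.mem_support_append_iff p q).1 hz |>.elim (a2 z) (b2 z)

lemma DR.mono {ω : Om} {s s' : ℤ} {u v : V} (h : DR ω s u v) (hs : s' ≤ s) : DR ω s' u v := by
  obtain ⟨p, a1, a2⟩ := h
  exact ⟨p, a1, fun z hz => hs.trans (a2 z hz)⟩

lemma DR.step {ω : Om} {s : ℤ} {u v : V} (h : G.Adj u v)
    (hc : costly ⟨(u, v), h⟩ = true → ω (cr ⟨(u, v), h⟩) = true) (hu : s ≤ u 0 + u 1)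
    (hv : s ≤ v 0 + v 1) : DR ω s u v := by
  refine ⟨Walk.cons h Walk.nil, fun d hd => ?_, fun z hz => ?_⟩
  · simp only [Walk.darts_cons, Walk.darts_nil, List.mem_singleton] at hd
    rw [hd]; exact hc
  · simp only [Walk.support_cons, Walk.support_nil, List.mem_cons, List.not_mem_nil,
      or_false] at hz
    rcases hz with rfl | rfl <;> assumption

lemma cr_N {u v : V} (h : G.Adj u v) (h1 : v 1 = u 1 + 1) :
    cr ⟨(u, v), h⟩ = ed (v 0) (v 0 + v 1) (v 0 + 1) := by
  simp only [cr, ed, h1, if_true]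
  congr 1 <;> exact vext (by simp) (by simp [h1])

lemma cr_W {u v : V} (h : G.Adj u v) (h1 : v 1 ≠ u 1 + 1) :
    cr ⟨(u, v), h⟩ = ed (u 0) (u 0 + u 1) (u 0) := by
  simp only [cr, ed, h1, if_false]
  congr 1 <;> exact vext (by simp) (by simp; try ring)

def Surv (ω : Om) (x s u : ℤ) : Prop := ∃ y, Rch ω x s y u

lemma dead_walk (ω : Om) (N : ℤ) (n : ℕ) : ∀ x s : ℤ, s + n = N → ¬ Surv ω x s N →
    DR ω (s - 1) (site x (s - 1)) (site (x - 1) (s - 1)) := by
  induction n with
  | zero =>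
    intro x s hs h
    exact absurd ⟨x, by rw [← hs]; simpa using Rch.refl ω x s⟩ h
  | succ n ih =>
    intro x s hs h
    have h1 : DR ω (s - 1) (site x (s - 1)) (site x s) := by
      by_cases he : ω (ed x s (x + 1)) = true
      · refine DR.step (by simp [adj_iff]; omega) (fun _ => ?_) (by simp) (by simp)
        rw [cr_N _ (by simp; omega)]
        simpa using he
      · have a1 := ih (x + 1) (s + 1) (by push_cast at hs; omega) fun ⟨y, hy⟩ =>
          h ⟨y, (St.rch ⟨Or.inr rfl, by simpa using he⟩).trans hy⟩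
        simp only [add_sub_cancel_right] at a1
        refine DR.trans (DR.step (v := site (x + 1) s) (by simp [adj_iff]; omega) (fun hc => ?_)
          (by simp) (by simp)) (a1.mono (by omega))
        simp only [costly, site_zero, site_one, decide_eq_true_eq] at hc
        omega
    refine h1.trans ?_
    by_cases he : ω (ed x s x) = true
    · refine DR.step (by simp [adj_iff]) (fun _ => ?_) (by simp) (by simp)
      rw [cr_W _ (by simp)]
      simpa using he
    · have a1 := ih x (s + 1) (by push_cast at hs; omega) fun ⟨y, hy⟩ =>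
        h ⟨y, (St.rch ⟨Or.inl rfl, by simpa using he⟩).trans hy⟩
      simp only [add_sub_cancel_right] at a1
      refine DR.trans (a1.mono (by omega)) (DR.step (by simp [adj_iff]; omega) (fun hc => ?_)
        (by simp) (by simp))
      simp only [costly, site_zero, site_one, decide_eq_true_eq] at hc
      omega

lemma no_cross {ω : Om} {f : ℤ → ℤ} {s c : ℤ} (hf : Pth ω f s c) {u v : V} (p : G.Walk u v)
    (hp : DOpen ω p) (hl : ∀ z ∈ p.support, s - 1 ≤ z 0 + z 1 ∧ z 0 + z 1 < c)
    (h : f (u 0 + u 1 + 1) ≤ u 0) : f (v 0 + v 1 + 1) ≤ v 0 := by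
  induction p with
  | nil => exact h
  | @cons a b v hab p ih =>
    refine ih (fun d hd => hp d (by simp [hd])) (fun z hz => hl z (by simp [hz])) ?_
    have ha := hl a (by simp)
    have hb := hl b (by simp)
    have hc := hp ⟨(a, b), hab⟩ (by simp)
    simp only [costly, decide_eq_true_eq] at hc
    rcases adj_iff.1 hab with ⟨h0, h1⟩ | ⟨h0, h1⟩ | ⟨h0, h1⟩ | ⟨h0, h1⟩
    · have := (hf (a 0 + a 1 + 1) (by omega) (by omega)).1
      rw [show b 0 + b 1 + 1 = a 0 + a 1 + 1 + 1 by omega]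
      omega
    · obtain ⟨e1, e2⟩ := hf (a 0 + a 1) (by omega) (by omega)
      have e3 := hc (Or.inr h0)
      rw [cr_W _ (by omega)] at e3
      rw [show b 0 + b 1 + 1 = a 0 + a 1 by omega]
      by_contra hcon
      rw [show f (a 0 + a 1) = a 0 by omega, show f (a 0 + a 1 + 1) = a 0 by omega, e3] at e2
      exact absurd e2 (by simp)
    · obtain ⟨e1, e2⟩ := hf (b 0 + b 1) (by omega) (by omega)
      have e3 := hc (Or.inl h1)
      rw [cr_N _ h1] at e3
      rw [show a 0 + a 1 + 1 = b 0 + b 1 by omega] at h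
      by_contra hcon
      rw [show f (b 0 + b 1) = b 0 by omega, show f (b 0 + b 1 + 1) = b 0 + 1 by omega, e3] at e2
      exact absurd e2 (by simp)
    · have := (hf (a 0 + a 1) (by omega) (by omega)).1
      rw [show b 0 + b 1 + 1 = a 0 + a 1 by omega]
      omega

lemma lev_le_length {u v : V} (p : G.Walk u v) :
    ∀ z ∈ p.support, z 0 + z 1 ≤ u 0 + u 1 + p.length := by
  induction p with
  | nil => intro z hz; simp at hz; simp [hz]
  | @cons a b v hab p ih =>
    intro z hz
    rw [Walk.support_cons, List.mem_cons] at hz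
    rw [Walk.length_cons]
    rcases hz with rfl | hz
    · omega
    · have := ih z hz
      have := adj_iff.1 hab
      push_cast
      omega

lemma prob_open2 {u v : V} (p : G.Walk u v) (hp : p.IsPath) (h : v 0 - v 1 + 2 ≤ u 0 - u 1) :
    (PP _).real {ω : Om | DOpen ω p} ≤ (1 / 8) ^ (p.length + 2) := by
  set l := (p.darts.filter costly).map cr with hl
  have hnd : l.Nodup := by
    refine List.Nodup.map_on ?_ ((List.Nodup.of_map _ hp.isTrail.edges_nodup).filter _)
    intro d hd d' hd' he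
    exact cr_inj (List.mem_filter.1 hd).2 (List.mem_filter.1 hd').2 he
  have h1 := prob_all l.toFinset
  rw [List.toFinset_card_of_nodup hnd, hl, List.length_map] at h1
  have h2 := count_costly p
  refine (measureReal_mono ?_ (measure_ne_top _ _)).trans (h1.trans ?_)
  · intro ω hω e he
    obtain ⟨d, hd, rfl⟩ := List.mem_map.1 (List.mem_toFinset.1 he)
    exact hω d (List.mem_filter.1 hd).1 (List.mem_filter.1 hd).2
  · rw [show qq = (1 / 8) ^ 2 by norm_num [qq], ← pow_mul]
    exact pow_le_pow_of_le_one (by norm_num) (by norm_num) (by omega)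

lemma badL_le (u v : V) (ρ : ℕ) (h : v 0 - v 1 + 2 ≤ u 0 - u 1) :
    (PP _).real {ω : Om | ∃ p : G.Walk u v, p.IsPath ∧ DOpen ω p ∧ ρ ≤ p.length} ≤
      (1 / 2) ^ ρ / 32 := by
  set B : ℕ → Set Om := fun j =>
    ⋃ p ∈ (G.finsetWalkLength (ρ + j) u v).filter (fun p => p.IsPath), {ω | DOpen ω p} with hB
  have hsub : {ω : Om | ∃ p : G.Walk u v, p.IsPath ∧ DOpen ω p ∧ ρ ≤ p.length} ⊆ ⋃ j, B j := by
    rintro ω ⟨p, h1, h2, h3⟩
    simp only [hB, Set.mem_iUnion]
    exact ⟨p.length - ρ, p, mem_filter.2 ⟨mem_finsetWalkLength_iff.2 (by omega), h1⟩, h2⟩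
  have h1 : ∀ j, (PP _).real (B j) ≤ (1 / 2) ^ ρ / 64 * (1 / 2) ^ j := by
    intro j
    refine (measureReal_biUnion_finset_le _ _).trans
      ((sum_le_card_nsmul _ _ ((1 / 8) ^ (ρ + j + 2)) fun p hp => ?_).trans ?_)
    · rw [← mem_finsetWalkLength_iff.1 (mem_filter.1 hp).1]
      exact prob_open2 p (mem_filter.1 hp).2 h
    · rw [nsmul_eq_mul]
      have h3 : (((G.finsetWalkLength (ρ + j) u v).filter fun p => p.IsPath).card : ℝ) ≤
          (G.finsetWalkLength (ρ + j) u v).card := by exact_mod_cast card_filter_le _ _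
      refine (mul_le_mul_of_nonneg_right (h3.trans (card_walks _ u v)) (by positivity)).trans ?_
      rw [pow_add (1 / 8 : ℝ) (ρ + j), ← mul_assoc, ← mul_pow, div_mul_eq_mul_div, ← pow_add]
      norm_num
      exact le_of_eq (by ring)
  have h2 : PP _ {ω : Om | ∃ p : G.Walk u v, p.IsPath ∧ DOpen ω p ∧ ρ ≤ p.length} ≤
      ENNReal.ofReal ((1 / 2) ^ ρ / 32) := by
    refine (measure_mono hsub).trans ((measure_iUnion_le _).trans ?_)
    have h3 : ∀ j, PP _ (B j) ≤ ENNReal.ofReal ((1 / 2) ^ ρ / 64 * (1 / 2) ^ j) := fun j => by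
      rw [← ofReal_measureReal (measure_ne_top _ _)]
      exact ENNReal.ofReal_le_ofReal (h1 j)
    refine (ENNReal.tsum_le_tsum h3).trans_eq ?_
    rw [← ENNReal.ofReal_tsum_of_nonneg (fun j => by positivity)
      (summable_geometric_two.mul_left _), tsum_mul_left, tsum_geometric_two]
    congr 1
    ring
  exact ENNReal.toReal_le_of_le_ofReal (by positivity) h2

lemma dep_surv (x s u : ℤ) : Dep (EB x s u) fun ω => Surv ω x s u := fun _ _ h =>
  propext ⟨fun ⟨y, hy⟩ => ⟨y, hy.congr' le_rfl h⟩,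
    fun ⟨y, hy⟩ => ⟨y, hy.congr' le_rfl fun e he => (h e he).symm⟩⟩

lemma meas_surv (x s u : ℤ) : MeasurableSet {ω | Surv ω x s u} :=
  ((dep_surv x s u).meas (EB_fin x s u)).setOf

theorem prob_die (x s : ℤ) (l : ℕ) {N : ℤ} (h : s ≤ N) :
    (PP _).real {ω : Om | Surv ω x s (s + l) ∧ ¬ Surv ω x s N} ≤ (1 / 2) ^ l / 64 := by
  refine (measureReal_mono ?_ (measure_ne_top _ _)).trans
    ((badL_le (site x (s - 1)) (site (x - 1) (s - 1)) (l + 1) (by simp; omega)).trans
      (le_of_eq (by ring)))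
  rintro ω ⟨⟨y, -, f, h1, -, hf⟩, h2⟩
  obtain ⟨p, a1, a2⟩ := dead_walk ω N (N - s).toNat x s (by omega) h2
  have a3 : DOpen ω p.bypass := fun d hd => a1 d (p.darts_bypass_subset_darts hd)
  refine ⟨p.bypass, p.bypass_isPath, a3, ?_⟩
  by_contra hcon
  have a4 := no_cross hf p.bypass a3 (fun z hz => ⟨a2 z (p.support_bypass_subset_support hz), by
    have := lev_le_length _ z hz
    simp only [site_zero, site_one] at this
    omega⟩) (by simp [h1])
  simp only [site_zero, site_one] at a4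
  rw [show x - 1 + (s - 1 - (x - 1)) + 1 = s by ring] at a4
  omega

end Pool.Agent.Lib.MP_eba68f_edge
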