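import Pool.Agent.Lib.MP_eba68f_edge.Bnd
import Pool.Agent.Lib.MP_eba68f_edge.Curved
import Pool.Agent.Lib.MP_eba68f_edge.SDefs

/-! The limit shape, its two extreme points, and the variance at the edge of the cone. -/

namespace Pool.Agent.Lib.MP_eba68f_edge

open MeasureTheory ProbabilityTheory Function Filter SimpleGraph Topology
open Pool.Agent.Lib.MP_eba68f_pr
open scoped NNReal ENNReal

abbrev E2 : Type := EuclideanSpace ℝ (Fin 2)

noncomputable def fl (s : ℝ) (u : E2) : V := fun i => ⌊s * u i⌋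

lemma mu_eq (u : E2) : mu FF u = limsup (fun n : ℕ => mm (fl n u) / n) atTop := by
  unfold mu
  congr 1
  funext n
  rw [← map_Phi, integral_map meas_Phi.aemeasurable (meas_passage _ _).aestronglyMeasurable]
  simp only [passage_Phi]
  rfl

lemma tendsto_fl (u : E2) (i : Fin 2) : Tendsto (fun n : ℕ => (fl n u i : ℝ) / n) atTop (𝓝 (u i)) := by
  have h1 : Tendsto (fun n : ℕ => u i - 1 / (n : ℝ)) atTop (𝓝 (u i - 0)) :=
    tendsto_const_nhds.sub tendsto_one_div_atTop_nhds_zero_nat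
  rw [sub_zero] at h1
  refine tendsto_of_tendsto_of_tendsto_of_le_of_le' h1 tendsto_const_nhds ?_ ?_
  · filter_upwards [eventually_gt_atTop 0] with n hn
    have hn' : (0 : ℝ) < n := by exact_mod_cast hn
    rw [le_div_iff₀ hn', sub_mul, one_div_mul_cancel hn'.ne', mul_comm]
    exact (Int.sub_one_lt_floor _).le
  · filter_upwards [eventually_gt_atTop 0] with n hn
    have hn' : (0 : ℝ) < n := by exact_mod_cast hn
    rw [div_le_iff₀ hn', mul_comm]
    exact Int.floor_le _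

lemma tendsto_n1 (u : E2) : Tendsto (fun n : ℕ => n1 (fl n u) / n) atTop (𝓝 (|u 0| + |u 1|)) := by
  refine ((tendsto_fl u 0).abs.add (tendsto_fl u 1).abs).congr fun n => ?_
  rw [abs_div, abs_div, Nat.abs_cast, n1, add_div]

lemma tendsto_lin (u : E2) (a b : ℝ) :
    Tendsto (fun n : ℕ => (a * fl n u 0 + b * fl n u 1) / n) atTop (𝓝 (a * u 0 + b * u 1)) := by
  refine (((tendsto_fl u 0).const_mul a).add ((tendsto_fl u 1).const_mul b)).congr fun n => ?_
  ring

lemma mu_le {u : E2} (h : ∀ ε > 0, ∀ᶠ n : ℕ in atTop, mm (fl n u) ≤ (1 + ε) * n) : mu FF u ≤ 1 := by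
  rw [mu_eq]
  refine le_of_forall_pos_le_add fun ε hε => limsup_le_of_le
    (isCoboundedUnder_le_of_le atTop (x := 0) fun n =>
      div_nonneg ((n1_nonneg _).trans (mm_ge _)) (Nat.cast_nonneg n)) ?_
  filter_upwards [h ε hε, eventually_gt_atTop 0] with n h1 h2
  rwa [div_le_iff₀ (by exact_mod_cast h2)]

lemma ev_of_mu {u : E2} (h : mu FF u ≤ 1) {ε : ℝ} (hε : 0 < ε) :
    ∀ᶠ n : ℕ in atTop, mm (fl n u) / n ≤ 1 + ε := by
  rw [mu_eq] at h
  refine (eventually_lt_of_limsup_lt (h.trans_lt (lt_add_of_pos_right 1 hε)) ?_).mono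
    fun _ => le_of_lt
  refine (((tendsto_n1 u).const_mul (1 + bb)).isBoundedUnder_le).mono_le
    (Eventually.of_forall fun n => ?_)
  show mm (fl n u) / n ≤ (1 + bb) * (n1 (fl n u) / n)
  rw [← mul_div_assoc]
  exact div_le_div_of_nonneg_right (mm_le _) (Nat.cast_nonneg n)

lemma le_one_of_mu {u : E2} (h : mu FF u ≤ 1) {g : ℕ → ℝ} {L : ℝ}
    (hg : Tendsto (fun n : ℕ => g n / n) atTop (𝓝 L)) (hl : ∀ᶠ n : ℕ in atTop, g n ≤ mm (fl n u)) :
    L ≤ 1 := by
  refine le_of_forall_pos_le_add fun ε hε => le_of_tendsto hg ?_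
  filter_upwards [ev_of_mu h hε, hl] with n h1 h2
  exact (div_le_div_of_nonneg_right h2 (Nat.cast_nonneg n)).trans h1

lemma l1_le {u : E2} (h : mu FF u ≤ 1) : |u 0| + |u 1| ≤ 1 :=
  le_one_of_mu h (tendsto_n1 u) (Eventually.of_forall fun _ => mm_ge _)

lemma slope_le_al {u : E2} (h : mu FF u ≤ 1) (h1 : u 0 + u 1 = 1) : u 0 ≤ al := by
  have h2 := l1_le h
  have h3 : 0 ≤ u 0 := by
    by_contra hc
    rw [abs_of_neg (not_le.1 hc)] at h2
    linarith [le_abs_self (u 1), not_le.1 hc]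
  have h4 : 0 ≤ u 1 := by
    by_contra hc
    rw [abs_of_neg (not_le.1 hc)] at h2
    linarith [le_abs_self (u 0), not_le.1 hc]
  by_contra hc
  obtain ⟨c, hc0, C, hm⟩ := march (ε := u 0 - al) (by linarith) (by linarith [al_nonneg])
  have h5 := (tendsto_lin u (1 + c) (1 + c)).sub (tendsto_const_div_atTop_nhds_zero_nat C)
  have h6 := le_one_of_mu h (g := fun n => (1 + c) * lvl (fl n u) - C)
    (h5.congr fun n => by unfold lvl; ring) (Eventually.of_forall fun n => by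
      have hn : (0 : ℝ) ≤ n := Nat.cast_nonneg n
      refine hm _ (Int.floor_nonneg.2 (by positivity)) (Int.floor_nonneg.2 (by positivity)) ?_
      have a1 : (fl n u 0 : ℝ) ≤ n * u 0 := Int.floor_le _
      have a2 : (fl n u 1 : ℝ) ≤ n * u 1 := Int.floor_le _
      have a3 : n * u 0 - 1 < (fl n u 0 : ℝ) := Int.sub_one_lt_floor _
      have a4 : lvl (fl n u) ≤ n := by
        unfold lvl
        linarith [show (n : ℝ) * u 0 + n * u 1 = n by rw [← mul_add, h1, mul_one]]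
      nlinarith [mul_le_mul_of_nonneg_left a4 h3])
  rw [← mul_add, h1] at h6
  linarith

noncomputable def p0 : E2 := !₂[al, 1 - al]

lemma edge_sq : ∃ C, ∀ s : ℝ, 0 ≤ s → ∫ ω, (TT ω 0 (fl s p0) - ⌊s⌋₊) ^ 2 ∂PP _ ≤ C := by
  obtain ⟨C, hC⟩ := exc_bdd
  refine ⟨2 * C + 128, fun s hs => ?_⟩
  set n := ⌊s⌋₊ with hn
  have a1 : (n : ℝ) ≤ s := Nat.floor_le hs
  have a2 : s < n + 1 := Nat.lt_floor_add_one s
  have a3 := Int.le_ceil (al * n)
  have a4 := Int.ceil_lt_add_one (al * n)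
  have b0 := al_nonneg
  have b1 := sub_nonneg.2 al_le_one
  have c1 : (fl s p0 0 : ℝ) ≤ s * al := Int.floor_le _
  have c2 : s * al - 1 < (fl s p0 0 : ℝ) := Int.sub_one_lt_floor _
  have c3 : (fl s p0 1 : ℝ) ≤ s * (1 - al) := Int.floor_le _
  have c4 : s * (1 - al) - 1 < (fl s p0 1 : ℝ) := Int.sub_one_lt_floor _
  have d1 := mul_nonneg (sub_nonneg.2 a1) b0
  have d2 := mul_nonneg (sub_nonneg.2 a1) b1
  have e0 : |fl s p0 0 - zz n 0| ≤ 2 := by
    have : |(fl s p0 0 : ℝ) - (⌈al * n⌉ : ℤ)| ≤ 2 := abs_le.2 ⟨by nlinarith, by nlinarith⟩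
    exact_mod_cast this
  have e1 : |fl s p0 1 - zz n 1| ≤ 2 := by
    have : |(fl s p0 1 : ℝ) - (n - (⌈al * n⌉ : ℤ))| ≤ 2 := abs_le.2 ⟨by nlinarith, by nlinarith⟩
    exact_mod_cast this
  have n2 := (nice_exc (zz n)).sq.cmul 2
  refine (int_le ((nice_TT 0 _).sub (Nice.const _)).sq (n2.add (Nice.const 128)) fun ω => ?_).trans ?_
  · have f1 := TT_near ω e0 e1
    have f2 := TT_near ω (u := fl s p0) (v := zz n) ((abs_sub_comm _ _).trans_le e0)
      ((abs_sub_comm _ _).trans_le e1)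
    have f3 := TT_tri ω 0 (zz n) (fl s p0)
    have f4 := TT_tri ω 0 (fl s p0) (zz n)
    rw [exc, lvl_zz]
    push_cast at f1 f2
    have f5 : (TT ω 0 (fl s p0) - TT ω 0 (zz n)) ^ 2 ≤ 8 ^ 2 := sq_le_sq' (by linarith) (by linarith)
    nlinarith [sq_nonneg ((TT ω 0 (fl s p0) - TT ω 0 (zz n)) - (TT ω 0 (zz n) - n))]
  · rw [int_add n2 (Nice.const _), int_const, integral_const_mul]
    linarith [hC n]

lemma p0_ext : p0 ∈ Set.extremePoints ℝ {z | mu FF z ≤ 1} := by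
  refine mem_extremePoints_iff_left.2 ⟨mu_le fun ε hε => ?_, ?_⟩
  · obtain ⟨C, hC⟩ := edge_sq
    filter_upwards [(tendsto_natCast_atTop_atTop (R := ℝ)).eventually_ge_atTop ((1 + C) / ε)]
      with n hn
    have h1 := hC n (Nat.cast_nonneg n)
    rw [Nat.floor_natCast] at h1
    have n2 := ((nice_TT 0 (fl n p0)).sub (Nice.const (n : ℝ))).sq
    have h2 := int_le (nice_TT 0 (fl n p0)) ((Nice.const ((n : ℝ) + 1)).add n2) fun ω => by
      nlinarith [sq_nonneg (TT ω 0 (fl n p0) - n - 1)]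
    rw [int_add (Nice.const _) n2, int_const] at h2
    rw [div_le_iff₀ hε] at hn
    unfold mm
    linarith
  · rintro u hu v hv ⟨a, b, ha, hb, hab, h⟩
    have h0 : a * u 0 + b * v 0 = al := congrArg (fun z : E2 => z 0) h
    have h1 : a * u 1 + b * v 1 = 1 - al := congrArg (fun z : E2 => z 1) h
    have su : u 0 + u 1 ≤ 1 := by linarith [l1_le hu, le_abs_self (u 0), le_abs_self (u 1)]
    have sv : v 0 + v 1 ≤ 1 := by linarith [l1_le hv, le_abs_self (v 0), le_abs_self (v 1)]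
    have key : ∀ x y L : ℝ, x ≤ L → y ≤ L → a * x + b * y = L → x = L ∧ y = L := by
      intro x y L e1 e2 e3
      have : a * L + b * L = L := by rw [← add_mul, hab, one_mul]
      constructor <;> nlinarith [mul_le_mul_of_nonneg_left e1 ha.le,
        mul_le_mul_of_nonneg_left e2 hb.le]
    obtain ⟨e1, e2⟩ := key _ _ 1 su sv (by linarith)
    have e3 := (key _ _ al (slope_le_al hu e1) (slope_le_al hv e2) h0).1
    ext i
    fin_cases i
    · exact e3
    · show u 1 = 1 - al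
      linarith

lemma var_pos {z : V} (hz : z ≠ 0) :
    qq * (1 - qq) * (bb * qq ^ 4) ^ 2 / 4 ≤ Vr fun ω => TT ω 0 z := by
  classical
  set A : Finset (Sym2 V) := (nb 0).image fun v => s(0, v) with hA
  have hc : A.card ≤ 4 := Finset.card_image_le.trans Finset.card_le_four
  have hf := nice_TT 0 z
  have h1 := cov_bound A hf
  have h2 := int_prod A fun b => if b then (1 : ℝ) else 0
  have n1 := (Nice.prod A fun e _ => Nice.coord e fun b => if b then (1 : ℝ) else 0).cmul bb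
  have h3 := int_le n1 (Nice.sum A fun e _ => hf.dd e) fun ω => by
    have a0 : ∀ e ∈ A, 0 ≤ DD e (fun ω => TT ω 0 z) ω := fun e _ => DD_nonneg 0 z e ω
    by_cases h : ∀ e ∈ A, ω e = true
    · rw [Finset.prod_eq_one fun e he => if_pos (h e he), mul_one]
      obtain ⟨p, hp, hg⟩ := exists_geo ω 0 z
      cases p with
      | nil => exact absurd rfl hz
      | @cons _ v _ hv p =>
        have a1 : s(0, v) ∈ A := Finset.mem_image.2 ⟨v, mem_nb.2 hv, rfl⟩
        exact (DD_ge hp hg (h _ a1) (by simp)).trans (Finset.single_le_sum a0 a1)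
    · push Not at h
      obtain ⟨e, he, h⟩ := h
      rw [Finset.prod_eq_zero he (if_neg h), mul_zero]
      exact Finset.sum_nonneg a0
  rw [integral_const_mul, h2, integral_finsetSum _ fun e _ => (hf.dd e).integrable] at h3
  simp only [if_true, mul_one, Bool.false_eq_true, if_false, mul_zero, add_zero] at h3
  have q0 := qq_pos
  have q1 := sub_pos.2 qq_lt
  have hb := bb_pos
  have h4 := pow_le_pow_left₀ (by positivity) ((mul_le_mul_of_nonneg_left
    (pow_le_pow_of_le_one q0.le qq_lt.le hc) hb.le).trans h3) 2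
  have h5 := mul_le_mul_of_nonneg_left h4 (mul_pos q0 q1).le
  have h6 : (A.card : ℝ) ≤ 4 := by exact_mod_cast hc
  have h7 : 0 ≤ Vr fun ω => TT ω 0 z := integral_nonneg fun ω => sq_nonneg _
  linarith [mul_le_mul_of_nonneg_right h6 h7]

lemma chi_zero {x : E2} {c C : ℝ} (hc : 0 < c)
    (h1 : ∀ᶠ n : ℕ in atTop, ENNReal.ofReal c ≤ passVar FF x n)
    (h2 : ∀ n : ℕ, passVar FF x n ≤ ENNReal.ofReal C) : chi FF x = 0 := by
  apply le_antisymm
  · refine sInf_le ⟨0, lt_of_le_of_lt (limsup_le_of_le (by isBoundedDefault)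
      (Eventually.of_forall fun n => ?_)) (ENNReal.ofReal_lt_top (r := C)), rfl⟩
    simpa using h2 n
  · refine le_sInf ?_
    rintro _ ⟨κ, hκ, rfl⟩
    simp only [Set.mem_ofPred_eq] at hκ
    by_contra hlt
    have hlt : κ < 0 := EReal.coe_lt_coe_iff.1 (not_le.1 hlt)
    obtain ⟨B, hB1, hB2⟩ := ENNReal.lt_iff_exists_nnreal_btwn.1 hκ
    have h3 : Tendsto (fun n : ℕ => (n : ℝ) ^ (-2 * κ) * c) atTop atTop :=
      ((tendsto_rpow_atTop (by linarith)).comp tendsto_natCast_atTop_atTop).atTop_mul_const hc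
    obtain ⟨n, ⟨e1, e2⟩, e3⟩ :=
      (((eventually_lt_of_limsup_lt hB1).and (h3.eventually_gt_atTop B)).and h1).exists
    have e4 := (mul_le_mul_right e3 _).trans_lt e1
    rw [← ENNReal.ofReal_mul (by positivity), ENNReal.ofReal_lt_coe_iff (by positivity)] at e4
    linarith

theorem edge_dir : ∃ x : E2, ‖x‖ = 1 ∧
    (∃ r : ℝ, 0 < r ∧ r • x ∈ Set.extremePoints ℝ {z | mu FF z ≤ 1} ∧ ∑ i, |(r • x) i| = 1) ∧
    (∃ C : ℝ≥0, ∀ n : ℕ, passVar FF x n ≤ C) ∧ chi FF x = 0 := by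
  have h0 : p0 ≠ 0 := fun h => by
    have : al = 0 := congrArg (fun z : E2 => z 0) h
    linarith [al_ge]
  have h1 : 0 < ‖p0‖ := norm_pos_iff.2 h0
  have h2 : 0 < ‖p0‖⁻¹ := inv_pos.2 h1
  obtain ⟨C, hC⟩ := edge_sq
  have h3 : ∀ n : ℕ, passVar FF (‖p0‖⁻¹ • p0) n =
      ENNReal.ofReal (Vr fun ω => TT ω 0 (fl (n * ‖p0‖⁻¹) p0)) := fun n => by
    rw [passVar_eq]
    simp only [PiLp.smul_apply, smul_eq_mul, ← mul_assoc]
    rfl
  have h4 : ∀ n : ℕ, passVar FF (‖p0‖⁻¹ • p0) n ≤ ENNReal.ofReal C := fun n => by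
    rw [h3]
    exact ENNReal.ofReal_le_ofReal ((Vr_le (nice_TT _ _) _).trans (hC _ (by positivity)))
  refine ⟨‖p0‖⁻¹ • p0, norm_smul_inv_norm h0, ⟨‖p0‖, h1, ?_⟩, ⟨C.toNNReal, h4⟩,
    chi_zero (c := qq * (1 - qq) * (bb * qq ^ 4) ^ 2 / 4) ?_ ?_ h4⟩
  · rw [smul_inv_smul₀ h1.ne', Fin.sum_univ_two]
    refine ⟨p0_ext, ?_⟩
    show |al| + |1 - al| = 1
    rw [abs_of_nonneg al_nonneg, abs_of_nonneg (sub_nonneg.2 al_le_one)]
    ring
  · have := qq_pos
    have := sub_pos.2 qq_lt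
    have := bb_pos
    positivity
  · filter_upwards [((tendsto_natCast_atTop_atTop (R := ℝ)).atTop_mul_const h2).eventually_ge_atTop 2]
      with n hn
    rw [h3]
    refine ENNReal.ofReal_le_ofReal (var_pos fun h => ?_)
    have a1 : ⌊n * ‖p0‖⁻¹ * al⌋ = 0 := congrFun h 0
    have a2 := (Int.floor_eq_iff.1 a1).2
    norm_num at a2
    nlinarith [al_ge]

lemma good_ext {ψ t : ℝ} (H : Good ψ t) :
    (!₂[(ψ + t ^ 2 / 4)⁻¹, (ψ + t ^ 2 / 4)⁻¹ * t] : E2) ∈ Set.extremePoints ℝ {z | mu FF z ≤ 1} := by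
  have hρ1 : 1 ≤ ψ + t ^ 2 / 4 := by linarith [H.psi_ge, sq_nonneg t]
  have hρ2 : ψ + t ^ 2 / 4 ≤ 2 := by linarith [H.psi_le, H.t_sq, bb_le]
  set ρ := (ψ + t ^ 2 / 4)⁻¹ with hρ
  have r1 : ρ ≤ 1 := inv_le_one_of_one_le₀ hρ1
  have r2 : 1 / 2 ≤ ρ := by rw [hρ, one_div]; exact inv_anti₀ (by linarith) hρ2
  have r3 : (ψ + t ^ 2 / 4) * ρ = 1 := mul_inv_cancel₀ (by linarith)
  obtain ⟨t1, t2⟩ := abs_le.1 H.t_small
  set y : E2 := !₂[ρ, ρ * t] with hy
  refine mem_extremePoints_iff_left.2 ⟨mu_le fun ε hε => ?_, ?_⟩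
  · have l1 := tendsto_lin y (ψ - t ^ 2 / 4) (t / 2)
    rw [show (ψ - t ^ 2 / 4) * y 0 + t / 2 * y 1 = 1 by
      show (ψ - t ^ 2 / 4) * ρ + t / 2 * (ρ * t) = 1
      linarith] at l1
    have l2 : Tendsto (fun n : ℕ => (2 * (n : ℝ)) ^ (1 / 16 : ℝ)) atTop atTop :=
      (tendsto_rpow_atTop (by norm_num)).comp
        (tendsto_natCast_atTop_atTop.const_mul_atTop two_pos)
    filter_upwards [l1.eventually (gt_mem_nhds (show (1 : ℝ) < 1 + ε / 2 by linarith)),
      l2.eventually_ge_atTop (28000000 / ε), l2.eventually_ge_atTop 1, eventually_ge_atTop 10]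
      with n a1 a2 a3 a4
    have hn : (10 : ℝ) ≤ n := by exact_mod_cast a4
    set v := (2 * (n : ℝ)) ^ (1 / 16 : ℝ) with hv
    have v16 : v ^ 16 = 2 * n := by
      rw [hv, one_div]
      exact Real.rpow_inv_natCast_pow (by positivity) (by norm_num)
    have c1 : (fl n y 0 : ℝ) ≤ n * ρ := Int.floor_le _
    have c2 : n * ρ - 1 < (fl n y 0 : ℝ) := Int.sub_one_lt_floor _
    have c3 : (fl n y 1 : ℝ) ≤ n * (ρ * t) := Int.floor_le _
    have c4 : n * (ρ * t) - 1 < (fl n y 1 : ℝ) := Int.sub_one_lt_floor _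
    have c5 : n * ρ ≤ n := mul_le_of_le_one_right (by linarith) r1
    have c6 : n / 2 ≤ n * ρ := by nlinarith
    have d1 := H.excess a3 (x := fl n y)
      (by exact_mod_cast (show (2 : ℝ) ≤ fl n y 0 by linarith)) (by
        have e : ww t (fl n y) = ((fl n y 1 : ℝ) - n * (ρ * t)) + t * (n * ρ - fl n y 0) := by
          unfold ww; ring
        rw [e, abs_le]
        constructor <;> nlinarith) (by
        have e1 : |(fl n y 1 : ℝ)| ≤ n := by
          rw [abs_le]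
          constructor <;> nlinarith
        rw [v16, n1, abs_of_pos (show (0 : ℝ) < fl n y 0 by linarith)]
        linarith)
    rw [div_lt_iff₀ (by linarith)] at a1
    rw [div_le_iff₀ hε] at a2
    have d2 := mul_le_mul_of_nonneg_left a2 (show 0 ≤ v ^ 14 by positivity)
    have d3 : v ^ 15 ≤ v ^ 16 := pow_le_pow_right₀ a3 (by norm_num)
    have d4 := mul_le_mul_of_nonneg_right d3 hε.le
    rw [v16] at d4
    unfold ff at d1
    nlinarith
  · have k1 : ∀ u : E2, mu FF u ≤ 1 → (ψ - t ^ 2 / 4) * u 0 + t / 2 * u 1 ≤ 1 := fun u hu =>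
      le_one_of_mu hu (tendsto_lin u _ _) (Eventually.of_forall fun n => sub_nonneg.1 (H.key _).1)
    have k2 : ∀ u : E2, mu FF u ≤ 1 → (ψ - t ^ 2 / 4) * u 0 + t / 2 * u 1 = 1 →
        -t * u 0 + 1 * u 1 = 0 := by
      intro u hu h1
      have l1 := tendsto_lin u (ψ - t ^ 2 / 4) (t / 2)
      rw [h1] at l1
      have l2 : ∀ ε > 0, (-t * u 0 + 1 * u 1) ^ 2 ≤ 4 * (|u 0| + |u 1|) * (1 + ε - 1) := by
        intro ε hε
        refine le_of_tendsto_of_tendsto ((tendsto_lin u (-t) 1).pow 2)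
          (((tendsto_n1 u).const_mul 4).mul (l1.const_sub (1 + ε))) ?_
        filter_upwards [ev_of_mu hu hε, eventually_gt_atTop 0] with n a1 a2
        have hn : (0 : ℝ) < n := by exact_mod_cast a2
        have a3 := div_le_div_of_nonneg_right (H.key (fl n u)).2 (sq_nonneg (n : ℝ))
        have a4 : 0 ≤ 4 * (n1 (fl n u) / n) := by have := n1_nonneg (fl n u); positivity
        refine le_trans (le_of_eq ?_) (a3.trans (le_trans (le_of_eq ?_)
          (mul_le_mul_of_nonneg_left (sub_le_sub_right a1 _) a4)))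
        · unfold ww; ring
        · unfold ff; ring
      refine pow_eq_zero_iff two_ne_zero |>.1 (le_antisymm
        (le_of_forall_pos_le_add fun ε hε => (l2 (ε / 4) (by positivity)).trans ?_) (sq_nonneg _))
      nlinarith [l1_le hu]
    rintro u hu v hv ⟨a, b, ha, hb, hab, h⟩
    have h0 : a * u 0 + b * v 0 = ρ := congrArg (fun z : E2 => z 0) h
    have h1 : a * u 1 + b * v 1 = ρ * t := congrArg (fun z : E2 => z 1) h
    have e0 : a * ((ψ - t ^ 2 / 4) * u 0 + t / 2 * u 1) + b * ((ψ - t ^ 2 / 4) * v 0 + t / 2 * v 1) =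
        1 := by linear_combination (ψ - t ^ 2 / 4) * h0 + t / 2 * h1 + r3
    have e1 : (ψ - t ^ 2 / 4) * u 0 + t / 2 * u 1 = 1 := by
      nlinarith [mul_le_mul_of_nonneg_left (k1 u hu) ha.le,
        mul_le_mul_of_nonneg_left (k1 v hv) hb.le]
    have e2 := k2 u hu e1
    have e3 : u 0 = ρ := by
      refine mul_left_cancel₀ (show ψ + t ^ 2 / 4 ≠ 0 by linarith) ?_
      linear_combination e1 - t / 2 * e2 - r3
    ext i
    fin_cases i
    · exact e3
    · show u 1 = ρ * t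
      linear_combination e2 + t * e3

theorem curved_dir : ∃ y : E2, ‖y‖ = 1 ∧
    (∃ r : ℝ, 0 < r ∧ r • y ∈ Set.extremePoints ℝ {z | mu FF z ≤ 1}) ∧
    ((1 / 32 : ℝ) : EReal) ≤ chi FF y := by
  obtain ⟨ψ, t, H⟩ := exists_good
  obtain ⟨c, hc, h1, h2⟩ := dir_good H
  have hρ : 0 < ψ + t ^ 2 / 4 := by linarith [H.psi_ge, sq_nonneg t]
  refine ⟨_, h1, ⟨(ψ + t ^ 2 / 4)⁻¹ / c, by positivity, ?_⟩, h2⟩
  have e : ((ψ + t ^ 2 / 4)⁻¹ / c) • (!₂[c, c * t] : E2) =
      !₂[(ψ + t ^ 2 / 4)⁻¹, (ψ + t ^ 2 / 4)⁻¹ * t] := by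
    ext i
    fin_cases i
    · show (ψ + t ^ 2 / 4)⁻¹ / c * c = _
      exact div_mul_cancel₀ _ hc.ne'
    · show (ψ + t ^ 2 / 4)⁻¹ / c * (c * t) = (ψ + t ^ 2 / 4)⁻¹ * t
      rw [← mul_assoc, div_mul_cancel₀ _ hc.ne']
  rw [e]
  exact good_ext H

lemma FF_Iio : FF (Set.Iio 1) = 0 := by
  rw [FF, Measure.map_apply Measurable.of_discrete measurableSet_Iio,
    show wN ⁻¹' Set.Iio 1 = ∅ from Set.eq_empty_of_forall_notMem fun b => by
      cases b <;> simp [wN], measure_empty]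

end Pool.Agent.Lib.MP_eba68f_edge
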