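import Pool.Agent.Lib.MP_eba68f_pr.Main

/-! Dependence on sets of coordinates, independence, and the stopping lemma. -/

namespace Pool.Agent.Lib.MP_eba68f_edge

open MeasureTheory ProbabilityTheory Function Finset Pool.Agent.Lib.MP_eba68f_pr

variable {ι : Type}

/-- `f` is determined by the coordinates in `S`. -/
def Dep {β : Type} (S : Set ι) (f : (ι → Bool) → β) : Prop :=
  ∀ ω ω', (∀ e ∈ S, ω e = ω' e) → f ω = f ω'

lemma Dep.mono {β : Type} {S T : Set ι} {f : (ι → Bool) → β} (h : Dep S f) (hST : S ⊆ T) :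
    Dep T f := fun ω ω' hω => h ω ω' fun e he => hω e (hST he)

lemma Dep.meas {β : Type} [MeasurableSpace β] {S : Set ι} (hS : S.Finite) {f : (ι → Bool) → β}
    (h : Dep S f) : Measurable f := by
  classical
  have : Fintype S := hS.fintype
  let ext : (S → Bool) → (ι → Bool) := fun η e => if he : e ∈ S then η ⟨e, he⟩ else false
  have e1 : f = (f ∘ ext) ∘ fun (ω : ι → Bool) (e : S) => ω e := by
    funext ω
    exact h _ _ fun e he => by simp [ext, he]
  rw [e1]
  exact (Measurable.of_discrete (f := f ∘ ext)).comp (by fun_prop)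

lemma int_mul_dep (S : Set ι) {f g : (ι → Bool) → ℝ} (hf : Nice f) (hg : Nice g)
    (df : Dep S f) (dg : Dep Sᶜ g) :
    ∫ ω, f ω * g ω ∂PP ι = (∫ ω, f ω ∂PP ι) * ∫ ω, g ω ∂PP ι := by
  classical
  have hi : iIndepFun (fun (e : ι) (ω : ι → Bool) => ω e) (PP ι) :=
    iIndepFun_infinitePi (X := fun _ => id) fun _ => measurable_id
  let m : ι → MeasurableSpace (ι → Bool) := fun e =>
    MeasurableSpace.comap (fun ω : ι → Bool => ω e) inferInstance
  have h1 : Indep (⨆ e ∈ S, m e) (⨆ e ∈ Sᶜ, m e) (PP ι) :=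
    indep_biSup_compl (fun e => (measurable_pi_apply e).comap_le) hi S
  have key : ∀ (T : Set ι) (k : (ι → Bool) → ℝ), Measurable k → Dep T k →
      Measurable[⨆ e ∈ T, m e] k := by
    intro T k hk dk
    have e1 : k = k ∘ fun (ω : ι → Bool) (e : ι) => if e ∈ T then ω e else false := by
      funext ω
      exact dk _ _ fun e he => by simp [he]
    rw [e1]
    refine hk.comp (@measurable_pi_lambda _ _ _ (⨆ e ∈ T, m e) _ _ fun e => ?_)
    by_cases he : e ∈ T
    · simp only [he, if_true]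
      exact Measurable.of_comap_le (le_iSup₂_of_le (f := fun e (_ : e ∈ T) => m e) e he le_rfl)
    · simp only [he, if_false]
      exact measurable_const
  have h2 : IndepFun f g (PP ι) :=
    (IndepFun_iff_Indep _ _ _).2 (indep_of_indep_of_le_right
      (indep_of_indep_of_le_left h1 (key S f hf.1 df).comap_le) (key Sᶜ g hg.1 dg).comap_le)
  exact h2.integral_fun_mul_eq_mul_integral hf.1.aestronglyMeasurable hg.1.aestronglyMeasurable

open Classical in
/-- indicator of a proposition -/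
noncomputable def ind (p : Prop) : ℝ := if p then 1 else 0

lemma ind_pos {p : Prop} (h : p) : ind p = 1 := if_pos h
lemma ind_neg {p : Prop} (h : ¬ p) : ind p = 0 := if_neg h
lemma ind_nonneg (p : Prop) : 0 ≤ ind p := by unfold ind; split_ifs <;> norm_num
lemma ind_le (p : Prop) : ind p ≤ 1 := by unfold ind; split_ifs <;> norm_num

lemma nice_ind {p : (ι → Bool) → Prop} (h : MeasurableSet {ω | p ω}) : Nice fun ω => ind (p ω) := by
  refine ⟨Measurable.ite h measurable_const measurable_const, 1, fun ω => ?_⟩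
  rw [abs_of_nonneg (ind_nonneg _)]
  exact ind_le _

lemma int_ind {p : (ι → Bool) → Prop} (h : MeasurableSet {ω | p ω}) :
    ∫ ω, ind (p ω) ∂PP ι = (PP ι).real {ω | p ω} := by
  rw [← integral_indicator_one h]
  refine integral_congr_ae (ae_of_all _ fun ω => ?_)
  show ind (p ω) = _
  by_cases hp : p ω
  · rw [ind_pos hp, Set.indicator_of_mem (by exact hp)]; rfl
  · rw [ind_neg hp, Set.indicator_of_notMem (by exact hp)]

lemma eq_sum_ind {κ : Type} (K : Finset κ) (a : κ) (ha : a ∈ K) (g : κ → ℝ) :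
    g a = ∑ k ∈ K, ind (a = k) * g k := by
  rw [sum_eq_single_of_mem a ha fun k _ hk => by rw [ind_neg (Ne.symm hk), zero_mul],
    ind_pos rfl, one_mul]

lemma nice_adapt {κ : Type} (K : Finset κ) {σ : (ι → Bool) → κ} (hK : ∀ ω, σ ω ∈ K)
    (hm : ∀ k, MeasurableSet {ω | σ ω = k}) {g : κ → (ι → Bool) → ℝ} (hg : ∀ k, Nice (g k)) :
    Nice fun ω => g (σ ω) ω := by
  have e : (fun ω => g (σ ω) ω) = fun ω => ∑ k ∈ K, ind (σ ω = k) * g k ω :=
    funext fun ω => eq_sum_ind K _ (hK ω) fun k => g k ω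
  rw [e]
  exact Nice.sum K fun k _ => (nice_ind (hm k)).mul (hg k)

lemma stop {κ : Type} (K : Finset κ) {σ : (ι → Bool) → κ} (hK : ∀ ω, σ ω ∈ K)
    (hm : ∀ k, MeasurableSet {ω | σ ω = k}) (A : κ → Set ι)
    (hA : ∀ ω ω', (∀ e ∈ A (σ ω), ω e = ω' e) → σ ω' = σ ω)
    {g : κ → (ι → Bool) → ℝ} (hg : ∀ k, Nice (g k)) (dg : ∀ k, Dep (A k)ᶜ (g k)) :
    ∫ ω, g (σ ω) ω ∂PP ι = ∫ ω, (∫ ω', g (σ ω) ω' ∂PP ι) ∂PP ι := by
  have e1 : (fun ω => g (σ ω) ω) = fun ω => ∑ k ∈ K, ind (σ ω = k) * g k ω :=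
    funext fun ω => eq_sum_ind K _ (hK ω) fun k => g k ω
  have e2 : (fun ω => ∫ ω', g (σ ω) ω' ∂PP ι) =
      fun ω => ∑ k ∈ K, ind (σ ω = k) * ∫ ω', g k ω' ∂PP ι :=
    funext fun ω => eq_sum_ind K _ (hK ω) fun k => ∫ ω', g k ω' ∂PP ι
  rw [e1, e2, integral_finsetSum _ fun k _ => ((nice_ind (hm k)).mul (hg k)).integrable,
    integral_finsetSum _ fun k _ => ((nice_ind (hm k)).mul (Nice.const _)).integrable]
  refine sum_congr rfl fun k _ => ?_
  rw [int_mul_dep (A k) (nice_ind (hm k)) (hg k) ?_ (dg k), integral_mul_const]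
  intro ω ω' h
  refine congrArg ind (propext ?_)
  constructor
  · intro hk
    rw [← hk] at h ⊢
    exact hA ω ω' h
  · intro hk
    rw [← hk] at h ⊢
    exact hA ω' ω fun e he => (h e he).symm

lemma int_le {f g : (ι → Bool) → ℝ} (hf : Nice f) (hg : Nice g) (h : ∀ ω, f ω ≤ g ω) :
    ∫ ω, f ω ∂PP ι ≤ ∫ ω, g ω ∂PP ι := integral_mono hf.integrable hg.integrable h

lemma int_add {f g : (ι → Bool) → ℝ} (hf : Nice f) (hg : Nice g) :
    ∫ ω, (f ω + g ω) ∂PP ι = ∫ ω, f ω ∂PP ι + ∫ ω, g ω ∂PP ι :=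
  integral_add hf.integrable hg.integrable

lemma int_sub {f g : (ι → Bool) → ℝ} (hf : Nice f) (hg : Nice g) :
    ∫ ω, (f ω - g ω) ∂PP ι = ∫ ω, f ω ∂PP ι - ∫ ω, g ω ∂PP ι :=
  integral_sub hf.integrable hg.integrable

lemma int_const (c : ℝ) : ∫ _ω, c ∂PP ι = c := by simp

/-- a function of an integer-valued variable with values in a finite set is nice -/
lemma nice_comp {κ : Type} (K : Finset κ) {σ : (ι → Bool) → κ} (hK : ∀ ω, σ ω ∈ K)
    (hm : ∀ k, MeasurableSet {ω | σ ω = k}) (φ : κ → ℝ) : Nice fun ω => φ (σ ω) :=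
  nice_adapt K hK hm (g := fun k _ => φ k) fun _ => Nice.const _

end Pool.Agent.Lib.MP_eba68f_edge
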