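import Pool.Agent.Lib.MP_eba68f_edge.Cov

/-! The variance of the right edge is at most linear. -/

namespace Pool.Agent.Lib.MP_eba68f_edge

open MeasureTheory ProbabilityTheory Function Finset Filter Pool.Agent.Lib.MP_eba68f_pr

def Bad (m n l : ℕ) (ω : Om) : Prop :=
  ∃ x ∈ Icc (0 : ℤ) m, Surv ω x (m - l) m ∧ ¬ Surv ω x (m - l) (m + n : ℕ)

lemma Bad_eq (m n l : ℕ) : {ω | Bad m n l ω} =
    ⋃ x ∈ Icc (0 : ℤ) m, {ω | Surv ω x (m - l) m ∧ ¬ Surv ω x (m - l) (m + n : ℕ)} := by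
  ext ω; simp only [Bad, Set.mem_iUnion, Set.mem_ofPred_eq, exists_prop]

lemma meas_Bad (m n l : ℕ) : MeasurableSet {ω | Bad m n l ω} := by
  rw [Bad_eq]
  exact Finset.measurableSet_biUnion _ fun x _ => (meas_surv _ _ _).inter (meas_surv _ _ _).compl

lemma prob_Bad {m n l N : ℕ} (h1 : 1 ≤ N) (hN : m + n ≤ N) (hN' : N ^ 3 ≤ 2 ^ l) :
    (N : ℝ) ^ 2 * (PP _).real {ω | Bad m n l ω} ≤ 1 := by
  have hBp : (PP _).real {ω | Bad m n l ω} ≤ ((m : ℝ) + 1) * ((1 / 2) ^ l / 64) := by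
    rw [Bad_eq]
    refine (measureReal_biUnion_finset_le _ _).trans
      ((sum_le_card_nsmul _ _ ((1 / 2) ^ l / 64) fun x _ => ?_).trans (le_of_eq ?_))
    · simpa only [sub_add_cancel] using prob_die x (m - l) l (N := (m + n : ℕ)) (by omega)
    · simp
  refine (mul_le_mul_of_nonneg_left hBp (by positivity)).trans ?_
  have e1 : (N : ℝ) ^ 3 * (1 / 2) ^ l ≤ 1 := by
    have : (N : ℝ) ^ 3 ≤ 2 ^ l := by exact_mod_cast hN'
    refine (mul_le_mul_of_nonneg_right this (by positivity)).trans (le_of_eq ?_)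
    rw [← mul_pow]; norm_num
  have e2 : (N : ℝ) ^ 2 * ((m : ℝ) + 1) ≤ 64 * N ^ 3 := by
    have : (1 : ℝ) ≤ N := by exact_mod_cast h1
    have : (m : ℝ) ≤ N := by exact_mod_cast (by omega : m ≤ N)
    nlinarith [sq_nonneg (N : ℝ)]
  have e3 : (0 : ℝ) ≤ (1 / 2) ^ l := by positivity
  nlinarith

noncomputable def YY (m : ℕ) (ω : Om) : ℝ := RR m ω - aa m

lemma nice_YY (m : ℕ) : Nice (YY m) := (nice_RR m).sub (Nice.const _)

lemma int_YY (m : ℕ) : ∫ ω, YY m ω ∂PP _ = 0 := by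
  unfold YY
  rw [int_sub (nice_RR m) (Nice.const _), int_const]
  exact sub_self _

lemma int_YY_sq (m : ℕ) : ∫ ω, YY m ω ^ 2 ∂PP _ = vv m := rfl

noncomputable def w4 (m : ℕ) : ℝ := ∫ ω, (YY m ω ^ 2) ^ 2 ∂PP _

lemma w4_nonneg (m : ℕ) : 0 ≤ w4 m := integral_nonneg fun _ => sq_nonneg _

noncomputable def S2 (κ : ℤ) (m n : ℕ) (ω : Om) : ℝ := ((R ω 0 0 m : ℝ) - aa m) +
  (((R ω (R ω 0 0 m + κ) m (m + n : ℕ) - (R ω 0 0 m + κ) : ℤ) : ℝ) - aa n)

lemma nice_S2 (κ : ℤ) (m n : ℕ) : Nice (S2 κ m n) :=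
  nice_two 0 κ (Int.natCast_nonneg m) (by push_cast; omega)
    fun a b => ((a : ℝ) - aa m) + ((b : ℝ) - aa n)

lemma int_S2 (κ : ℤ) (m n : ℕ) (φ : ℝ → ℝ) : ∫ ω, φ (S2 κ m n ω) ∂PP _ =
    ∫ ω, (∫ ω', φ (YY m ω + YY n ω') ∂PP _) ∂PP _ := by
  have := int_two 0 κ (Int.natCast_nonneg m) (show (m : ℤ) ≤ (m + n : ℕ) by push_cast; omega)
    fun a b => φ (((a : ℝ) - aa m) + ((b : ℝ) - aa n))
  rw [show ((m + n : ℕ) : ℤ) - m = n by push_cast; ring] at this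
  exact this

lemma S2_one (κ : ℤ) (m n : ℕ) : ∫ ω, S2 κ m n ω ∂PP _ = 0 := by
  rw [int_S2 κ m n fun x => x]
  simp only [int_add (Nice.const _) (nice_YY n), int_const, int_YY, add_zero]

lemma S2_two (κ : ℤ) (m n : ℕ) : ∫ ω, S2 κ m n ω ^ 2 ∂PP _ = vv m + vv n := by
  rw [int_S2 κ m n fun x => x ^ 2]
  have h : ∀ c : ℝ, ∫ ω', (c + YY n ω') ^ 2 ∂PP _ = c ^ 2 + vv n := fun c =>
    int_sq_add (nice_RR n) c
  simp only [h]
  rw [int_add (nice_YY m).sq (Nice.const _), int_const, int_YY_sq]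

lemma S2_four (κ : ℤ) (m n : ℕ) :
    ∫ ω, (S2 κ m n ω ^ 2) ^ 2 ∂PP _ = w4 m + w4 n + 6 * (vv m * vv n) := by
  rw [int_S2 κ m n fun x => (x ^ 2) ^ 2]
  have hn := nice_YY n
  have hm := nice_YY m
  have h : ∀ c : ℝ, ∫ ω', ((c + YY n ω') ^ 2) ^ 2 ∂PP _ = (c ^ 2) ^ 2 + 6 * vv n * c ^ 2 +
      (4 * ∫ ω', YY n ω' ^ 2 * YY n ω' ∂PP _) * c + w4 n := fun c => by
    have e : ∀ y : ℝ, ((c + y) ^ 2) ^ 2 = (c ^ 2) ^ 2 + 4 * c ^ 3 * y + 6 * c ^ 2 * y ^ 2 +
        4 * c * (y ^ 2 * y) + (y ^ 2) ^ 2 := fun y => by ring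
    simp only [e]
    rw [int_add ((((Nice.const _).add (hn.cmul _)).add (hn.sq.cmul _)).add ((hn.sq.mul hn).cmul _))
      hn.sq.sq, int_add (((Nice.const _).add (hn.cmul _)).add (hn.sq.cmul _))
      ((hn.sq.mul hn).cmul _), int_add ((Nice.const _).add (hn.cmul _)) (hn.sq.cmul _),
      int_add (Nice.const _) (hn.cmul _), int_const, integral_const_mul, integral_const_mul,
      integral_const_mul, int_YY, int_YY_sq, w4]
    ring
  simp only [h]
  rw [int_add ((hm.sq.sq.add (hm.sq.cmul _)).add (hm.cmul _)) (Nice.const _),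
    int_add (hm.sq.sq.add (hm.sq.cmul _)) (hm.cmul _), int_add hm.sq.sq (hm.sq.cmul _), int_const,
    integral_const_mul, integral_const_mul, int_YY, int_YY_sq, w4, w4]
  ring

lemma S2_up (m n : ℕ) (ω : Om) : RR (m + n) ω - (aa m + aa n) ≤ S2 0 m n ω := by
  have e2 : RR (m + n) ω ≤ R ω (R ω 0 0 m) m (m + n : ℕ) := by
    unfold RR
    exact_mod_cast R_sub ω 0 (Int.natCast_nonneg m) (by push_cast; omega)
  simp only [S2, add_zero]
  push_cast at e2 ⊢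
  linarith

lemma S2_low {m n l : ℕ} {ω : Om} (h : ¬ Bad m n l ω) :
    S2 (-l) m n ω - l ≤ RR (m + n) ω - (aa m + aa n) := by
  have e3 : (R ω (R ω 0 0 m + -l) m (m + n : ℕ) : ℝ) ≤ RR (m + n) ω := by
    unfold RR
    exact_mod_cast R_low ω l (Int.natCast_nonneg m) (by push_cast; omega) fun x a1 a2 a3 => by
      by_contra a4
      exact h ⟨x, mem_Icc.2 ⟨a1, a2⟩, a3, a4⟩
  simp only [S2]
  push_cast at e3 ⊢
  linarith

lemma S2_le (κ : ℤ) (m n : ℕ) (ω : Om) : S2 κ m n ω ≤ m + n - (aa m + aa n) := by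
  have h1 := (R_bd ω 0 (Int.natCast_nonneg m)).2
  have h2 := (R_bd ω (R ω 0 0 m + κ) (show (m : ℤ) ≤ (m + n : ℕ) by push_cast; omega)).2
  have h3 : ((R ω 0 0 m + (R ω (R ω 0 0 m + κ) m (m + n : ℕ) - (R ω 0 0 m + κ)) : ℤ) : ℝ) ≤ m + n := by
    exact_mod_cast (by omega : R ω 0 0 m + (R ω (R ω 0 0 m + κ) m (m + n : ℕ) - (R ω 0 0 m + κ)) ≤
      (m + n : ℕ))
  rw [Int.cast_add] at h3
  unfold S2
  linarith

lemma aa_gap {m n l N : ℕ} (h1 : 1 ≤ N) (hN : m + n ≤ N) (hN' : N ^ 3 ≤ 2 ^ l) :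
    aa m + aa n - aa (m + n) ≤ l + 1 := by
  have n1 := (nice_ind (meas_Bad m n l)).cmul ((N : ℝ) ^ 2)
  have hN1 : (1 : ℝ) ≤ N := by exact_mod_cast h1
  have hNr : (m : ℝ) + n ≤ N := by exact_mod_cast hN
  have h := int_le (nice_S2 (-l) m n) (((nice_RR (m + n)).add n1).add
    (Nice.const (l - (aa m + aa n)))) fun ω => by
      by_cases hb : Bad m n l ω
      · rw [ind_pos hb]
        have : (0 : ℝ) ≤ l := Nat.cast_nonneg l
        nlinarith [S2_le (-l) m n ω, (RR_bd (m + n) ω).1]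
      · rw [ind_neg hb]
        linarith [S2_low hb]
  rw [S2_one, int_add ((nice_RR _).add n1) (Nice.const _), int_add (nice_RR _) n1, int_const,
    integral_const_mul, int_ind (meas_Bad m n l)] at h
  have := prob_Bad h1 hN hN'
  unfold aa at *
  linarith

lemma quart (a b : ℝ) : ((a + b) ^ 2) ^ 2 ≤ 6 / 5 * (a ^ 2) ^ 2 + 4913 * (b ^ 2) ^ 2 := by
  have h : ∀ a b : ℝ, (a + b) ^ 2 ≤ 17 / 16 * a ^ 2 + 17 * b ^ 2 := fun a b => by
    nlinarith [sq_nonneg (a / 4 - 4 * b)]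
  have h1 := pow_le_pow_left₀ (sq_nonneg _) (h a b) 2
  have h2 := h (17 / 16 * a ^ 2) (17 * b ^ 2)
  nlinarith [sq_nonneg (a ^ 2)]

lemma w4_step {m n l N : ℕ} (h1 : 1 ≤ N) (hN : m + n ≤ N) (hN' : N ^ 3 ≤ 2 ^ l) :
    w4 (m + n) ≤ 12 / 5 * (w4 m + w4 n + 6 * (vv m * vv n)) +
      (9826 * (((l : ℝ) + 1) ^ 2) ^ 2 + N ^ 2) := by
  have n0 := (nice_S2 0 m n).sq.sq.cmul (6 / 5)
  have n1 := (nice_S2 (-l) m n).sq.sq.cmul (6 / 5)
  have n2 := (nice_ind (meas_Bad m n l)).cmul (((N : ℝ) ^ 2) ^ 2)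
  have g0 := aa_sub m n
  have g1 := aa_gap h1 hN hN'
  have hNr : ((m + n : ℕ) : ℝ) ≤ N := by exact_mod_cast hN
  have h := int_le (nice_YY (m + n)).sq.sq (((n0.add n1).add n2).add
    (Nice.const (9826 * (((l : ℝ) + 1) ^ 2) ^ 2))) fun ω => by
      have a0 := sq_nonneg (S2 0 m n ω ^ 2)
      have a1 := sq_nonneg (S2 (-l) m n ω ^ 2)
      have a2 := sq_nonneg (((l : ℝ) + 1) ^ 2)
      by_cases hb : Bad m n l ω
      · rw [ind_pos hb]
        have a3 : YY (m + n) ω ^ 2 ≤ (N : ℝ) ^ 2 := by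
          unfold YY
          exact sq_le_sq' (by linarith [(RR_bd (m + n) ω).1, (aa_bd (m + n)).2])
            (by linarith [(RR_bd (m + n) ω).2, (aa_bd (m + n)).1])
        linarith [pow_le_pow_left₀ (sq_nonneg _) a3 2]
      · rw [ind_neg hb]
        have b1 := S2_up m n ω
        have b2 := S2_low hb
        rcases le_total 0 (YY (m + n) ω) with e | e
        · have b3 := pow_le_pow_left₀ e (show _ ≤ S2 0 m n ω + (l + 1) by unfold YY; linarith) 2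
          linarith [pow_le_pow_left₀ (sq_nonneg _) b3 2, quart (S2 0 m n ω) (l + 1)]
        · have b3 := pow_le_pow_left₀ (neg_nonneg.2 e)
            (show _ ≤ -S2 (-l) m n ω + (l + 1) by unfold YY; linarith) 2
          have b4 := quart (-S2 (-l) m n ω) (l + 1)
          rw [neg_sq] at b3 b4
          linarith [pow_le_pow_left₀ (sq_nonneg _) b3 2]
  rw [int_add ((n0.add n1).add n2) (Nice.const _), int_add (n0.add n1) n2, int_add n0 n1, int_const,
    integral_const_mul, integral_const_mul, integral_const_mul, S2_four, S2_four,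
    int_ind (meas_Bad m n l)] at h
  have h2 := mul_le_mul_of_nonneg_left (prob_Bad h1 hN hN') (sq_nonneg (N : ℝ))
  unfold w4 at *
  nlinarith

lemma trunc {D N T : ℝ} (x : ℝ) (h0 : 0 ≤ D) (h1 : D ≤ N) (hT : 0 < T) :
    D * |x| ≤ T * D + N / T ^ 3 * (x ^ 2) ^ 2 := by
  have hN : 0 ≤ N / T ^ 3 * (x ^ 2) ^ 2 := by have := h0.trans h1; positivity
  rcases le_total |x| T with h | h
  · nlinarith [mul_le_mul_of_nonneg_left h h0]
  · have a1 := mul_le_mul_of_nonneg_right (pow_le_pow_left₀ hT.le h 3) (abs_nonneg x)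
    have a2 : |x| ≤ 1 / T ^ 3 * (x ^ 2) ^ 2 := by
      rw [← sq_abs x, one_div_mul_eq_div, le_div_iff₀ (by positivity)]
      nlinarith
    have a3 := mul_le_mul h1 a2 (abs_nonneg x) (h0.trans h1)
    rw [← mul_assoc, mul_one_div] at a3
    nlinarith [mul_nonneg hT.le h0]

lemma vv_step2 {m n l N : ℕ} (h1 : 1 ≤ N) (hN : m + n ≤ N) (hN' : N ^ 3 ≤ 2 ^ l) {T : ℝ}
    (hT : 0 < T) : vv (m + n) ≤ vv m + vv n + 2 * T * (l + 1) + N / T ^ 3 *
      (w4 m + w4 n + 6 * (vv m * vv n) + 6 / 5 * w4 (m + n) + 4913 * (((l : ℝ) + 1) ^ 2) ^ 2) := by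
  have g0 := aa_sub m n
  have g1 := aa_gap h1 hN hN'
  have hNr : (m : ℝ) + n ≤ N := by exact_mod_cast hN
  have hS := nice_S2 0 m n
  have hZ : Nice fun ω => RR (m + n) ω - (aa m + aa n) := (nice_RR _).sub (Nice.const _)
  have n1 := (hS.sub hZ).cmul (2 * T)
  have n2 := (hS.sq.sq.add ((nice_YY (m + n)).sq.sq.cmul (6 / 5))).add
    (Nice.const (4913 * (((l : ℝ) + 1) ^ 2) ^ 2))
  have h := int_le hZ.sq ((hS.sq.add n1).add (n2.cmul (N / T ^ 3))) fun ω => by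
    have a1 := S2_up m n ω
    have a2 := S2_le 0 m n ω
    have a3 := (RR_bd (m + n) ω).1
    set S := S2 0 m n ω
    set Z := RR (m + n) ω - (aa m + aa n) with hZ'
    have b1 := trunc S (sub_nonneg.2 a1) (show S - Z ≤ N by linarith) hT
    have b2 := trunc Z (sub_nonneg.2 a1) (show S - Z ≤ N by linarith) hT
    have b3 := quart (YY (m + n) ω) (aa (m + n) - (aa m + aa n))
    rw [show YY (m + n) ω + (aa (m + n) - (aa m + aa n)) = Z by rw [hZ', YY]; ring] at b3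
    have b4 : (aa (m + n) - (aa m + aa n)) ^ 2 ≤ ((l : ℝ) + 1) ^ 2 :=
      sq_le_sq' (by linarith) (by linarith [Nat.cast_nonneg (α := ℝ) l])
    have b5 := pow_le_pow_left₀ (sq_nonneg _) b4 2
    have b6 := mul_le_mul_of_nonneg_left (show (Z ^ 2) ^ 2 ≤ 6 / 5 * (YY (m + n) ω ^ 2) ^ 2 +
      4913 * (((l : ℝ) + 1) ^ 2) ^ 2 by linarith) (show 0 ≤ N / T ^ 3 by positivity)
    have b7 := mul_le_mul_of_nonneg_left (neg_le_abs S) (sub_nonneg.2 a1)
    have b8 := mul_le_mul_of_nonneg_left (neg_le_abs Z) (sub_nonneg.2 a1)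
    nlinarith
  rw [int_add (hS.sq.add n1) (n2.cmul _), int_add hS.sq n1, integral_const_mul, integral_const_mul,
    int_add (hS.sq.sq.add ((nice_YY (m + n)).sq.sq.cmul _)) (Nice.const _),
    int_add hS.sq.sq ((nice_YY (m + n)).sq.sq.cmul _), integral_const_mul, int_const, S2_two,
    S2_four, int_sub hS hZ, S2_one, int_sub (nice_RR _) (Nice.const _), int_const] at h
  have h5 := Vr_le (nice_RR (m + n)) (aa m + aa n)
  have h6 := mul_le_mul_of_nonneg_left g1 (show 0 ≤ 2 * T by positivity)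
  unfold vv w4 aa at *
  linarith

lemma poly_geom : ∃ C : ℝ, 1 ≤ C ∧ ∀ k : ℕ, ((k : ℝ) + 2) ^ 6 ≤ C * (21 / 20) ^ k := by
  refine ⟨720 * 21 ^ 6 * (21 / 20) ^ 2, by norm_num, fun k => ?_⟩
  have h1 := Real.pow_div_factorial_le_exp (((k : ℝ) + 2) / 21) (by positivity) 6
  have h2 : Real.exp (1 / 21) ≤ 21 / 20 := by
    have := Real.add_one_le_exp (-(1 / 21) : ℝ)
    rw [Real.exp_neg, le_inv_comm₀ (by norm_num) (Real.exp_pos _)] at this
    linarith
  have h3 := pow_le_pow_left₀ (Real.exp_pos _).le h2 (k + 2)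
  rw [← Real.exp_nat_mul, mul_one_div] at h3
  push_cast at h3
  have h4 := h1.trans h3
  rw [div_pow, div_div, div_le_iff₀ (by positivity), pow_add] at h4
  norm_num [Nat.factorial] at h4 ⊢
  linarith

lemma vv_dy {k m : ℕ} (h : m ≤ 2 ^ k) : vv m ≤ 432 * (((k : ℝ) + 2) ^ 3 * 2 ^ k) := by
  rcases Nat.eq_zero_or_pos m with rfl | hm
  · have := vv_rec 1 0 le_rfl (by norm_num) 0 0 le_rfl (by norm_num)
    have h1 : (1 : ℝ) ≤ ((k : ℝ) + 2) ^ 3 * 2 ^ k := one_le_mul_of_one_le_of_one_le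
      (one_le_pow₀ (by linarith [Nat.cast_nonneg (α := ℝ) k])) (one_le_pow₀ one_le_two)
    norm_num at this
    linarith
  · have h1 : Nat.log 2 m ≤ k := (Nat.log_mono_right h).trans_eq (Nat.log_pow one_lt_two k)
    have h2 : (LL m : ℝ) ≤ 3 * ((k : ℝ) + 2) := by
      exact_mod_cast (by unfold LL; omega : LL m ≤ 3 * (k + 2))
    have h3 : (m : ℝ) ≤ 2 ^ k := by exact_mod_cast h
    have h4 := mul_le_mul (pow_le_pow_left₀ (Nat.cast_nonneg _) h2 3) h3 (Nat.cast_nonneg _)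
      (by positivity)
    linarith [vv_le m hm]

lemma aux_dy : ∃ C : ℝ, 1 ≤ C ∧ ∀ k : ℕ,
    (∀ m n, m ≤ 2 ^ k → n ≤ 2 ^ k → vv m * vv n ≤ C * 5 ^ k) ∧
    ((((3 * (k + 1) : ℕ) : ℝ) + 1) ^ 2) ^ 2 ≤ C * (21 / 20) ^ k := by
  obtain ⟨C, h1, h2⟩ := poly_geom
  refine ⟨432 ^ 2 * C, by linarith, fun k => ⟨fun m n hm hn => ?_, ?_⟩⟩
  · have a1 := mul_le_mul (vv_dy hm) (vv_dy hn) (vv_nonneg n) (by positivity)
    have a2 := mul_le_mul_of_nonneg_right (h2 k) (show (0 : ℝ) ≤ 2 ^ k * 2 ^ k by positivity)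
    have a3 : (21 / 20 : ℝ) ^ k * (2 ^ k * 2 ^ k) ≤ 5 ^ k := by
      rw [← mul_pow, ← mul_pow]
      exact pow_le_pow_left₀ (by norm_num) (by norm_num) k
    nlinarith [mul_le_mul_of_nonneg_left a3 (show 0 ≤ C by linarith)]
  · have hk : (0 : ℝ) ≤ k := Nat.cast_nonneg k
    have a1 := pow_le_pow_left₀ (by positivity)
      (show 3 * ((k : ℝ) + 1) + 1 ≤ 3 * (k + 2) by linarith) 4
    have a2 := pow_le_pow_right₀ (show (1 : ℝ) ≤ k + 2 by linarith) (show 4 ≤ 6 by norm_num)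
    have a3 : 0 ≤ C * (21 / 20) ^ k := by positivity
    push_cast
    nlinarith [h2 k]

lemma w4_dy : ∃ B : ℝ, 1 ≤ B ∧ ∀ k m : ℕ, m ≤ 2 ^ k → w4 m ≤ B * 5 ^ k := by
  obtain ⟨C, h1, h2⟩ := aux_dy
  refine ⟨50000 * C, by linarith, fun k => ?_⟩
  induction k with
  | zero =>
    intro m hm
    have h3 : (m : ℝ) ≤ 1 := by exact_mod_cast hm
    have := (int_le (nice_YY m).sq.sq (Nice.const 1) fun ω => by
      have a1 : YY m ω ^ 2 ≤ 1 ^ 2 := by
        unfold YY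
        exact sq_le_sq' (by linarith [(RR_bd m ω).1, (aa_bd m).2])
          (by linarith [(RR_bd m ω).2, (aa_bd m).1])
      simpa using pow_le_pow_left₀ (sq_nonneg _) a1 2).trans_eq (int_const _)
    unfold w4
    linarith
  | succ k ih =>
    intro m hm
    have a1 := w4_step (m := m / 2) (n := m - m / 2) (l := 3 * (k + 1)) (N := 2 ^ (k + 1))
      Nat.one_le_two_pow (by omega) (by rw [← pow_mul, mul_comm])
    rw [show m / 2 + (m - m / 2) = m by omega] at a1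
    have a2 := ih (m / 2) (by omega)
    have a3 := ih (m - m / 2) (by omega)
    have a4 := (h2 k).1 (m / 2) (m - m / 2) (by omega) (by omega)
    have a5 := (h2 k).2.trans (mul_le_mul_of_nonneg_left
      (pow_le_pow_left₀ (by norm_num) (show (21 / 20 : ℝ) ≤ 5 by norm_num) k) (by linarith))
    have a6 : (((2 ^ (k + 1) : ℕ) : ℝ)) ^ 2 ≤ 4 * (C * 5 ^ k) := by
      have b1 : (2 : ℝ) ^ k * 2 ^ k ≤ 5 ^ k := by
        rw [← mul_pow]; exact pow_le_pow_left₀ (by norm_num) (by norm_num) k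
      have b2 := mul_le_mul_of_nonneg_right h1 (show (0 : ℝ) ≤ 5 ^ k by positivity)
      push_cast
      rw [pow_succ 2 k]
      nlinarith
    have a7 : 0 ≤ C * 5 ^ k := by positivity
    rw [pow_succ]
    nlinarith

theorem vv_lin : ∃ L : ℝ, 7 ≤ L ∧ ∀ n : ℕ, 1 ≤ n → vv n ≤ L * n := by
  obtain ⟨C, h1, h2⟩ := aux_dy
  obtain ⟨B, h3, h4⟩ := w4_dy
  set E := 2 * C + 2 * (8 * B + 4919 * C) with hE
  have key : ∀ k m : ℕ, m ≤ 2 ^ k → vv m ≤ (10 * E + 1) * 2 ^ k - 10 * E * (19 / 10) ^ k := by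
    intro k
    induction k with
    | zero =>
      intro m hm
      have := vv_rec 1 1 le_rfl (by norm_num) 0 m hm hm
      norm_num at this ⊢
      linarith
    | succ k ih =>
      intro m hm
      have a1 := vv_step2 (m := m / 2) (n := m - m / 2) (l := 3 * (k + 1)) (N := 2 ^ (k + 1))
        Nat.one_le_two_pow (by omega) (by rw [← pow_mul, mul_comm]) (T := (9 / 5) ^ k)
        (by positivity)
      rw [show m / 2 + (m - m / 2) = m by omega] at a1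
      have a2 := ih (m / 2) (by omega)
      have a3 := ih (m - m / 2) (by omega)
      have a4 := (h2 k).1 (m / 2) (m - m / 2) (by omega) (by omega)
      have a5 := (h2 k).2
      have a5' := a5.trans (mul_le_mul_of_nonneg_left
        (pow_le_pow_left₀ (by norm_num) (show (21 / 20 : ℝ) ≤ 5 by norm_num) k) (by linarith))
      have a6 := h4 k (m / 2) (by omega)
      have a7 := h4 k (m - m / 2) (by omega)
      have a8 := h4 (k + 1) m hm
      set l : ℝ := ((3 * (k + 1) : ℕ) : ℝ) + 1 with hl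
      have b0 : 1 ≤ l := by rw [hl]; linarith [Nat.cast_nonneg (α := ℝ) (3 * (k + 1))]
      have b1 : l ≤ C * (21 / 20) ^ k :=
        le_trans (by rw [← pow_mul]; exact le_self_pow₀ b0 (by norm_num)) a5
      have b2 : (9 / 5 : ℝ) ^ k * (21 / 20) ^ k ≤ (19 / 10) ^ k := by
        rw [← mul_pow]; exact pow_le_pow_left₀ (by norm_num) (by norm_num) k
      have b3 : 2 * (9 / 5 : ℝ) ^ k * l ≤ 2 * C * (19 / 10) ^ k := by
        nlinarith [mul_le_mul_of_nonneg_left b1 (show (0 : ℝ) ≤ (9 / 5) ^ k by positivity),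
          mul_le_mul_of_nonneg_left b2 (show 0 ≤ C by linarith)]
      have b4 : ((2 ^ (k + 1) : ℕ) : ℝ) / ((9 / 5) ^ k) ^ 3 * 5 ^ k ≤ 2 * (19 / 10) ^ k := by
        push_cast
        rw [pow_succ, pow_right_comm, mul_comm _ 2, mul_div_assoc, ← div_pow, mul_assoc, ← mul_pow]
        exact mul_le_mul_of_nonneg_left (pow_le_pow_left₀ (by norm_num) (by norm_num) k)
          (by norm_num)
      have b5 := mul_le_mul_of_nonneg_left (show w4 (m / 2) + w4 (m - m / 2) +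
        6 * (vv (m / 2) * vv (m - m / 2)) + 6 / 5 * w4 m + 4913 * (l ^ 2) ^ 2 ≤
          (8 * B + 4919 * C) * 5 ^ k by rw [pow_succ] at a8; linarith)
        (show 0 ≤ ((2 ^ (k + 1) : ℕ) : ℝ) / ((9 / 5) ^ k) ^ 3 by positivity)
      have b6 := mul_le_mul_of_nonneg_left b4 (show 0 ≤ 8 * B + 4919 * C by linarith)
      have b7 : vv m ≤ vv (m / 2) + vv (m - m / 2) + E * (19 / 10) ^ k := by
        rw [hE]; nlinarith
      rw [pow_succ, pow_succ]
      linarith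
  have hE0 : 1 ≤ E := by rw [hE]; linarith
  refine ⟨2 * (10 * E + 1), by linarith, fun n hn => ?_⟩
  have h5 := key (Nat.log 2 n + 1) n (Nat.lt_pow_succ_log_self one_lt_two n).le
  have h6 : (2 : ℝ) ^ (Nat.log 2 n + 1) ≤ 2 * n := by
    rw [pow_succ, mul_comm]
    have : ((2 ^ Nat.log 2 n : ℕ) : ℝ) ≤ n := by exact_mod_cast Nat.pow_log_le_self 2 (by omega)
    push_cast at this
    linarith
  have h7 : 0 ≤ 10 * E * (19 / 10) ^ (Nat.log 2 n + 1) := by positivity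
  nlinarith [mul_le_mul_of_nonneg_left h6 (show 0 ≤ 10 * E + 1 by linarith)]

theorem edge_prob2 : ∃ δ > 0, ∀ n : ℕ, 1 ≤ n → δ ≤ (PP _).real {ω | ⌈al * n⌉ ≤ R ω 0 0 n} := by
  obtain ⟨L, h1, h2⟩ := vv_lin
  refine ⟨(1 / 80) ^ 4 / (128 * L ^ 3), by positivity, fun n hn => ?_⟩
  have h3 := pz (nice_YY n) (nice_WW n) (n := n) (c := 1 / 80) (by exact_mod_cast hn) (by norm_num)
    h1 (int_YY n) (h2 n hn) (WW_mom n).2 (cov_RW n)
  rw [div_le_iff₀' (by positivity)]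
  exact h3.trans (mul_le_mul_of_nonneg_left (measureReal_mono
    (fun ω hω => Int.ceil_le.2 ((al_le n).trans (sub_nonneg.1 hω))) (measure_ne_top _ _))
    (by positivity))

end Pool.Agent.Lib.MP_eba68f_edge
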