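import Pool.Agent.Lib.MP_eba68f_edge.Sub

/-! Beyond the edge speed the passage time has a linear excess. -/

namespace Pool.Agent.Lib.MP_eba68f_edge

open MeasureTheory ProbabilityTheory Function Finset Filter SimpleGraph Pool.Agent.Lib.MP_eba68f_pr

noncomputable def HH (θ lam : ℝ) (m K : ℕ) : ℕ → ℤ → ℤ → Om → ℝ
  | 0, _, y, _ => Real.exp (θ * (y + m))
  | i + 1, s, y, ω => HH θ lam m K i (s + m) (R ω y s (s + m)) ω +
      ∑ k ∈ range K, Real.exp (-(lam * (k + 1))) * HH θ lam m K i (s + m) (y + m + (k + 1)) ω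

variable {θ lam : ℝ} {m K : ℕ}

lemma HH_nonneg (i : ℕ) : ∀ s y ω, 0 ≤ HH θ lam m K i s y ω := by
  induction i with
  | zero => intro s y ω; exact (Real.exp_pos _).le
  | succ i ih =>
    intro s y ω
    exact add_nonneg (ih _ _ _) (sum_nonneg fun k _ => mul_nonneg (Real.exp_pos _).le (ih _ _ _))

lemma nice_HH (i : ℕ) : ∀ s y, Nice (HH θ lam m K i s y) := by
  induction i with
  | zero => intro s y; exact Nice.const _
  | succ i ih =>
    intro s y
    exact (nice_adapt _ (R_mem (show s ≤ s + m by omega)) (meas_R y s _) (ih (s + m))).add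
      (Nice.sum _ fun k _ => (ih _ _).cmul _)

lemma dep_HH (i : ℕ) : ∀ s y, Dep (Lo s)ᶜ (HH θ lam m K i s y) := by
  induction i with
  | zero => intro s y ω ω' _; rfl
  | succ i ih =>
    intro s y ω ω' h
    have h1 := (dep_R y s (s + m)).mono (EB_hi _ _ le_rfl) ω ω' h
    have h2 : ∀ y, HH θ lam m K i (s + m) y ω = HH θ lam m K i (s + m) y ω' := fun y =>
      ih (s + m) y ω ω' fun e he => h e fun he' => he (by
        simp only [Lo, Set.mem_ofPred_eq] at he' ⊢; omega)
    dsimp only at h1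
    simp only [HH, h1, h2]

noncomputable def kap (θ lam : ℝ) (m K : ℕ) : ℝ := ∫ ω, Real.exp (θ * RR m ω) ∂PP _ +
  Real.exp (θ * m) * ∑ k ∈ range K, Real.exp (θ - lam) ^ (k + 1)

lemma int_HH (i : ℕ) : ∀ s y : ℤ, ∫ ω, HH θ lam m K i s y ω ∂PP _ =
    Real.exp (θ * (y + m)) * kap θ lam m K ^ i := by
  induction i with
  | zero => intro s y; simp [HH]
  | succ i ih =>
    intro s y
    have hs : s ≤ s + m := by omega
    simp only [HH]
    rw [int_add (nice_adapt _ (R_mem hs) (meas_R y s _) (nice_HH i (s + m)))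
      (Nice.sum _ fun k _ => (nice_HH i _ _).cmul _),
      integral_finsetSum _ fun k _ => ((nice_HH i _ _).cmul _).integrable,
      stop _ (R_mem hs) (meas_R y s _) (fun _ => Lo (s + m))
        (fun ω ω' h => ((dep_R y s _).mono (EB_lo _ _ le_rfl) ω ω' h).symm) (nice_HH i (s + m))
        (dep_HH i (s + m))]
    simp only [integral_const_mul, ih, integral_mul_const]
    have h1 := int_R y hs fun a => Real.exp (θ * a)
    rw [add_sub_cancel_left] at h1
    have h2 : ∀ ω, Real.exp (θ * (R ω y s (s + m) + m)) =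
        Real.exp (θ * (y + m)) * Real.exp (θ * (R ω y s (s + m) - y : ℤ)) := fun ω => by
      rw [← Real.exp_add]; push_cast; ring_nf
    have h3 : ∀ k : ℕ, Real.exp (-(lam * (k + 1))) * (Real.exp (θ * ((y + m + (k + 1) : ℤ) + m)) *
        kap θ lam m K ^ i) = Real.exp (θ * (y + m)) * kap θ lam m K ^ i *
          (Real.exp (θ * m) * Real.exp (θ - lam) ^ (k + 1)) := fun k => by
      rw [← Real.exp_nat_mul, ← mul_assoc, ← Real.exp_add, ← Real.exp_add, mul_right_comm,
        ← Real.exp_add]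
      push_cast; ring_nf
    simp only [h2, h3, integral_const_mul, h1, ← mul_sum]
    rw [pow_succ]
    conv_rhs => rw [← mul_assoc]; arg 2; rw [kap]
    unfold RR
    ring

noncomputable def ex (ω : Om) {u v : V} (p : G.Walk u v) : ℝ := LW ω p.edges - (lvl v - lvl u)

lemma ex_nonneg (ω : Om) {u v : V} (p : G.Walk u v) : 0 ≤ ex ω p := sub_nonneg.2 (lvl_le_LW ω p)

lemma ex_disp (ω : Om) {u v : V} (p : G.Walk u v) :
    2 * (((v 0 : ℝ) - u 0) - (lvl v - lvl u)) ≤ ex ω p := by
  have := n1_le_LW ω p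
  simp only [ex, lvl, n1, Pi.sub_apply, Int.cast_sub] at this ⊢
  linarith [le_abs_self ((v 0 : ℝ) - u 0), neg_le_abs ((v 1 : ℝ) - u 1)]

lemma open_or (ω : Om) {u v : V} (p : G.Walk u v) :
    bb ≤ ex ω p ∨ Rch ω (u 0) (u 0 + u 1) (v 0) (v 0 + v 1) := by
  induction p with
  | nil => exact Or.inr (Rch.refl _ _ _)
  | @cons u w v h p ih =>
    have a0 := ex_nonneg ω p
    have a1 := (lvl_le_n1 u w).trans_eq (n1_adj h)
    have a2 := wt_ge (ω s(u, w))
    have a3 : ex ω (Walk.cons h p) = wt (ω s(u, w)) - (lvl w - lvl u) + ex ω p := by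
      simp only [ex, Walk.edges_cons, LW_cons]; ring
    rw [a3]
    by_cases hl : w 0 + w 1 = u 0 + u 1 + 1
    · by_cases ho : ω s(u, w) = true
      · left
        rw [ho, wt, if_pos rfl]
        linarith
      · rcases ih with ih | ih
        · left; linarith
        · refine Or.inr (Rch.trans ?_ ih)
          rw [hl]
          refine St.rch ⟨by have := adj_iff.1 h; omega, ?_⟩
          rw [ed, show site (u 0) (u 0 + u 1) = u from vext rfl (by simp),
            show site (w 0) (u 0 + u 1 + 1) = w from vext rfl (by simp; omega)]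
          simpa using ho
    · left
      have a4 : w 0 + w 1 ≤ u 0 + u 1 := by have := adj_iff.1 h; omega
      have a5 : lvl w ≤ lvl u := by unfold lvl; exact_mod_cast a4
      linarith [bb_le]

lemma split_walk (ω : Om) {u v : V} (p : G.Walk u v) (c : ℤ) (h1 : u 0 + u 1 ≤ c)
    (h2 : c ≤ v 0 + v 1) : ∃ w : V, w 0 + w 1 = c ∧ ∃ (p1 : G.Walk u w) (p2 : G.Walk w v),
      ex ω p = ex ω p1 + ex ω p2 := by
  induction p with
  | @nil u => exact ⟨u, by omega, Walk.nil, Walk.nil, by simp [ex]⟩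
  | @cons u w v h p ih =>
    by_cases hc : u 0 + u 1 = c
    · exact ⟨u, hc, Walk.nil, Walk.cons h p, by simp [ex]⟩
    · obtain ⟨x, a1, p1, p2, a2⟩ := ih (by have := adj_iff.1 h; omega) h2
      refine ⟨x, a1, Walk.cons h p1, p2, ?_⟩
      simp only [ex, Walk.edges_cons, LW_cons] at a2 ⊢
      linarith

lemma le_HH (h0 : 0 ≤ θ) (h1 : θ ≤ lam) (ω : Om) (i : ℕ) : ∀ (s y : ℤ) (u v : V) (p : G.Walk u v),
    u 0 ≤ y → u 0 + u 1 = s → s + i * m ≤ v 0 + v 1 → v 0 + v 1 ≤ s + i * m + m →
    ex ω p ≤ bb * K → Real.exp (θ * v 0 - lam / bb * ex ω p) ≤ HH θ lam m K i s y ω := by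
  have hb := bb_pos
  have hL : lam ≤ lam / bb := le_div_self (h0.trans h1) hb (by linarith [bb_le])
  induction i with
  | zero =>
    intro s y u v p a1 a2 _ a4 _
    refine Real.exp_le_exp.2 ?_
    have b1 := ex_disp ω p
    have b0 := ex_nonneg ω p
    have b2 : lvl v - lvl u ≤ m := by
      unfold lvl; exact_mod_cast (by simp at a4; omega : v 0 + v 1 - (u 0 + u 1) ≤ m)
    have b3 : (u 0 : ℝ) ≤ y := by exact_mod_cast a1
    nlinarith [mul_le_mul_of_nonneg_left (show (v 0 : ℝ) ≤ y + m + ex ω p by linarith) h0,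
      mul_le_mul_of_nonneg_right (h1.trans hL) b0]
  | succ i ih =>
    intro s y u v p a1 a2 a3 a4 a5
    have hm : (0 : ℤ) ≤ i * m := by positivity
    push_cast at a3 a4
    obtain ⟨w, b1, p1, p2, b2⟩ := split_walk ω p (s + m) (by omega) (by linarith)
    have c1 := ex_nonneg ω p1
    have c2 := ex_nonneg ω p2
    have key := fun y' hy => ih (s + m) y' w v p2 hy b1 (by linarith) (by linarith) (by linarith)
    have s0 : ∀ k ∈ range K, 0 ≤ Real.exp (-(lam * (k + 1))) *
        HH θ lam m K i (s + m) (y + m + (k + 1)) ω := fun k _ =>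
      mul_nonneg (Real.exp_pos _).le (HH_nonneg _ _ _ _)
    simp only [HH]
    rcases open_or ω p1 with b3 | b3
    · set k := (w 0 - y - m - 1).toNat with hk
      have d1 : bb * ((k : ℝ) + 1) ≤ ex ω p1 := by
        rcases Nat.eq_zero_or_pos k with e | e
        · simpa [e] using b3
        · have e1 := ex_disp ω p1
          have e2 : lvl w - lvl u = m := by
            unfold lvl; exact_mod_cast (by omega : w 0 + w 1 - (u 0 + u 1) = m)
          have e3 : (k : ℝ) + 1 ≤ (w 0 : ℝ) - u 0 - m := by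
            exact_mod_cast (by omega : (k : ℤ) + 1 ≤ w 0 - u 0 - m)
          have e4 : (0 : ℝ) ≤ k := Nat.cast_nonneg k
          nlinarith [bb_le]
      have d2 : k < K := by
        have : (k : ℝ) + 1 ≤ K := le_of_mul_le_mul_left (by linarith) hb
        exact_mod_cast this
      refine le_trans ?_ (le_add_of_nonneg_left (HH_nonneg _ _ _ _))
      refine le_trans ?_ (single_le_sum s0 (mem_range.2 d2))
      refine le_trans ?_ (mul_le_mul_of_nonneg_left (key _ (by omega)) (Real.exp_pos _).le)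
      rw [← Real.exp_add, b2]
      refine Real.exp_le_exp.2 ?_
      have d3 := mul_le_mul_of_nonneg_left d1 (show 0 ≤ lam / bb by linarith)
      rw [← mul_assoc, div_mul_cancel₀ _ hb.ne'] at d3
      linarith
    · rw [a2, b1] at b3
      refine le_trans ?_ (le_add_of_nonneg_right (sum_nonneg s0))
      refine le_trans (Real.exp_le_exp.2 ?_) (key _ (le_R' a1 le_rfl b3))
      rw [b2]
      nlinarith [mul_nonneg (show 0 ≤ lam / bb by linarith) c1]

lemma geo_half {τ : ℝ} (h0 : 0 ≤ τ) (h1 : τ ≤ 1 / 2) (K : ℕ) :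
    ∑ k ∈ range K, τ ^ (k + 1) ≤ 2 * τ := by
  induction K with
  | zero => simp; linarith
  | succ K ih =>
    rw [sum_range_succ']
    simp only [pow_succ _ (_ + 1)]
    rw [← sum_mul, zero_add, pow_one]
    nlinarith [mul_le_mul_of_nonneg_right ih h0]

theorem march {ε : ℝ} (hε : 0 < ε) (hε1 : ε ≤ 1) : ∃ c > 0, ∃ C, ∀ z : V, 0 ≤ z 0 → 0 ≤ z 1 →
    (al + ε) * lvl z - 1 ≤ z 0 → (1 + c) * lvl z - C ≤ mm z := by
  obtain ⟨m, hm, ha⟩ := exists_block (show 0 < ε / 4 by positivity)
  have hm' : (1 : ℝ) ≤ m := by exact_mod_cast hm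
  have hb := bb_pos
  set θ := ε / (4 * m) with hθ
  have hθ0 : 0 < θ := by positivity
  have hθm : θ * m = ε / 4 := by rw [hθ]; field_simp
  set τ := ε ^ 2 / 96 with hτ
  have hτ0 : 0 < τ := by positivity
  have hτ1 : τ ≤ 1 / 2 := by rw [hτ]; nlinarith
  set lam := θ - Real.log τ with hlam
  have hl1 : θ ≤ lam := by linarith [Real.log_nonpos hτ0.le (by linarith)]
  have hl0 : 0 < lam := by linarith
  have hk : ∀ K, kap θ lam m K ≤ Real.exp (θ * m * (al + 3 / 4 * ε)) := by
    intro K
    refine le_trans ?_ (Real.add_one_le_exp _)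
    have e1 := int_le (nice_R (b := 0) (Int.natCast_nonneg m) fun y => Real.exp (θ * y))
      (((nice_RR m).cmul θ).add (Nice.const (1 + (ε / 4) ^ 2))) fun ω => by
        obtain ⟨a1, a2⟩ := RR_bd m ω
        have a3 : θ * RR m ω ≤ ε / 4 := hθm ▸ mul_le_mul_of_nonneg_left a2 hθ0.le
        have a4 : 0 ≤ θ * RR m ω := by positivity
        have a5 := (abs_le.1 (Real.abs_exp_sub_one_sub_id_le (x := θ * RR m ω)
          (by rw [abs_of_nonneg a4]; linarith))).2
        have a6 := pow_le_pow_left₀ a4 a3 2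
        show Real.exp (θ * RR m ω) ≤ _
        linarith
    rw [int_add ((nice_RR m).cmul θ) (Nice.const _), integral_const_mul, int_const] at e1
    have e2 : Real.exp (θ * m) ≤ 3 :=
      (Real.exp_le_exp.2 (show _ ≤ 1 by linarith)).trans (by linarith [Real.exp_one_lt_d9])
    have e3 := mul_le_mul e2 (geo_half hτ0.le hτ1 K) (sum_nonneg fun k _ => by positivity)
      (by norm_num)
    have e4 := mul_le_mul_of_nonneg_left ha hθ0.le
    rw [mul_left_comm, hθm] at e4
    rw [kap, show θ - lam = Real.log τ by rw [hlam]; ring, Real.exp_log hτ0, hθm] at *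
    unfold aa RR at *
    nlinarith
  have hk0 : ∀ K, 0 ≤ kap θ lam m K := fun K =>
    add_nonneg (integral_nonneg fun _ => (Real.exp_pos _).le) (by positivity)
  refine ⟨θ * ε / 4 / (lam / bb), by positivity, θ * (1 + m) / (lam / bb), fun z z0 z1 hz => ?_⟩
  obtain ⟨n, hn⟩ := Int.eq_ofNat_of_zero_le (add_nonneg z0 z1)
  have hl : lvl z = n := by unfold lvl; exact_mod_cast hn
  have hn1 : n1 z = n := by
    rw [← hl, n1, lvl, abs_of_nonneg (by exact_mod_cast z0), abs_of_nonneg (by exact_mod_cast z1)]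
  set i := n / m with hi
  have i1 : i * m ≤ n := Nat.div_mul_le_self n m
  have i2 : n ≤ i * m + m := (Nat.lt_div_mul_add (a := n) hm).le
  set c0 := θ * m + i * (θ * m * (al + 3 / 4 * ε)) with hc0
  have h1 := int_le ((Nice.const (θ * z 0 - c0 + 1)).sub ((nice_exc z).cmul (lam / bb)))
    ((nice_HH (θ := θ) (lam := lam) (m := m) (K := n) i 0 0).cmul (Real.exp (-c0))) fun ω => by
      obtain ⟨p, -, hp⟩ := exists_geo ω 0 z
      have a1 : ex ω p = exc z ω := by simp [ex, exc, hp, lvl]
      have a2 := le_HH (m := m) (K := n) hθ0.le hl1 ω i 0 0 0 z p le_rfl rfl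
        (by rw [hn]; exact_mod_cast (by omega : 0 + i * m ≤ n))
        (by rw [hn]; exact_mod_cast (by omega : n ≤ 0 + i * m + m)) (by
          have := TT_up ω 0 z
          rw [sub_zero, hn1] at this
          rw [a1, exc, hl]
          linarith)
      refine le_trans ?_ (mul_le_mul_of_nonneg_left a2 (Real.exp_pos _).le)
      rw [← Real.exp_add, a1]
      exact le_trans (by linarith) (Real.add_one_le_exp _)
  rw [int_sub (Nice.const _) ((nice_exc z).cmul _), int_const, integral_const_mul,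
    integral_const_mul, int_HH] at h1
  have h2 : Real.exp (-c0) * (Real.exp (θ * ((0 : ℤ) + m)) * kap θ lam m n ^ i) ≤ 1 := by
    have := pow_le_pow_left₀ (hk0 n) (hk n) i
    rw [← Real.exp_nat_mul] at this
    refine (mul_le_mul_of_nonneg_left (mul_le_mul_of_nonneg_left this (Real.exp_pos _).le)
      (Real.exp_pos _).le).trans_eq ?_
    rw [← Real.exp_add, ← Real.exp_add, hc0]
    simp
  have h3 : ∫ ω, exc z ω ∂PP _ = mm z - n := by
    unfold exc
    rw [int_sub (nice_TT 0 z) (Nice.const _), int_const, hl]; rfl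
  rw [h3] at h1
  rw [hl] at hz ⊢
  have i1' : (i : ℝ) * m ≤ n := by exact_mod_cast i1
  have h4 := mul_le_mul_of_nonneg_right i1'
    (show 0 ≤ θ * (al + 3 / 4 * ε) by have := al_nonneg; positivity)
  have h5 := mul_le_mul_of_nonneg_left hz hθ0.le
  have hL : 0 < lam / bb := by positivity
  have h6 : θ * ε / 4 * n - θ * (1 + m) ≤ lam / bb * (mm z - n) := by
    have e1 : θ * z 0 - c0 ≤ lam / bb * (mm z - n) := by
      have := h1.trans h2
      linarith
    have e2 : c0 = θ * m + i * m * (θ * (al + 3 / 4 * ε)) := by rw [hc0]; ring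
    clear_value θ
    linarith
  have h7 : θ * ε / 4 / (lam / bb) * n - θ * (1 + m) / (lam / bb) ≤ mm z - n := by
    rw [div_mul_eq_mul_div, ← sub_div, div_le_iff₀' hL]
    exact h6
  linarith

end Pool.Agent.Lib.MP_eba68f_edge
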