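import Pool.Agent.Lib.MP_eba68f_edge.Ind

/-! Oriented open paths and the right edge started from a wall. -/

namespace Pool.Agent.Lib.MP_eba68f_edge

open MeasureTheory ProbabilityTheory Function Pool.Agent.Lib.MP_eba68f_pr

def site (x t : ℤ) : V := pt x (t - x)

@[simp] lemma site_zero (x t : ℤ) : site x t 0 = x := rfl
@[simp] lemma site_one (x t : ℤ) : site x t 1 = t - x := rfl

def ed (x t y : ℤ) : Sym2 V := s(site x t, site y (t + 1))

def lv : Sym2 V → ℤ := Sym2.lift ⟨fun u v => min (u 0 + u 1) (v 0 + v 1), fun _ _ => min_comm _ _⟩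

lemma lv_ed (x t y : ℤ) : lv (ed x t y) = t := by
  simp only [lv, ed, Sym2.lift_mk, site_zero, site_one]; omega

def St (ω : Om) (x t y : ℤ) : Prop := (y = x ∨ y = x + 1) ∧ ω (ed x t y) = false

def Pth (ω : Om) (f : ℤ → ℤ) (s u : ℤ) : Prop := ∀ t, s ≤ t → t < u → St ω (f t) t (f (t + 1))

def Rch (ω : Om) (x s y u : ℤ) : Prop := s ≤ u ∧ ∃ f, f s = x ∧ f u = y ∧ Pth ω f s u

def Inc (f : ℤ → ℤ) (s u : ℤ) : Prop := ∀ t, s ≤ t → t < u → f (t + 1) = f t ∨ f (t + 1) = f t + 1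

lemma Pth.inc {ω : Om} {f : ℤ → ℤ} {s u : ℤ} (h : Pth ω f s u) : Inc f s u :=
  fun t h1 h2 => (h t h1 h2).1

lemma Pth.sub {ω : Om} {f : ℤ → ℤ} {s u s' u' : ℤ} (h : Pth ω f s u) (h1 : s ≤ s') (h2 : u' ≤ u) :
    Pth ω f s' u' := fun t a b => h t (by omega) (by omega)

lemma Inc.sub {f : ℤ → ℤ} {s u s' u' : ℤ} (h : Inc f s u) (h1 : s ≤ s') (h2 : u' ≤ u) :
    Inc f s' u' := fun t a b => h t (by omega) (by omega)

lemma Inc.bd {f : ℤ → ℤ} {s u : ℤ} (hsu : s ≤ u) (h : Inc f s u) :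
    f s ≤ f u ∧ f u ≤ f s + (u - s) := by
  induction u, hsu using Int.leInduction with
  | base => omega
  | succ u hu ih =>
    have h1 := ih (h.sub le_rfl (by omega))
    have h2 := h u hu (by omega)
    omega

lemma ivt {f g : ℤ → ℤ} {s u : ℤ} (hsu : s ≤ u) (hf : Inc f s u) (hg : Inc g s u)
    (h1 : f s ≤ g s) (h2 : g u ≤ f u) : ∃ c, s ≤ c ∧ c ≤ u ∧ f c = g c := by
  induction u, hsu using Int.leInduction with
  | base => exact ⟨s, le_rfl, le_rfl, by omega⟩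
  | succ u hu ih =>
    by_cases h3 : g u ≤ f u
    · obtain ⟨c, a1, a2, a3⟩ := ih (hf.sub le_rfl (by omega)) (hg.sub le_rfl (by omega)) h3
      exact ⟨c, a1, by omega, a3⟩
    · have a1 := hf u hu (by omega)
      have a2 := hg u hu (by omega)
      exact ⟨u + 1, by omega, le_rfl, by omega⟩

lemma Pth.rch {ω : Om} {f : ℤ → ℤ} {s u s' u' : ℤ} (h : Pth ω f s u) (h1 : s ≤ s') (h2 : s' ≤ u')
    (h3 : u' ≤ u) : Rch ω (f s') s' (f u') u' := ⟨h2, f, rfl, rfl, h.sub h1 h3⟩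

lemma Rch.refl (ω : Om) (x s : ℤ) : Rch ω x s x s :=
  ⟨le_rfl, fun _ => x, rfl, rfl, fun t h1 h2 => by omega⟩

lemma Rch.bd {ω : Om} {x s y u : ℤ} (h : Rch ω x s y u) : x ≤ y ∧ y ≤ x + (u - s) := by
  obtain ⟨h1, f, rfl, rfl, h2⟩ := h
  exact h2.inc.bd h1

lemma Rch.trans {ω : Om} {x s y u z v : ℤ} (h : Rch ω x s y u) (h' : Rch ω y u z v) :
    Rch ω x s z v := by
  obtain ⟨h1, f, rfl, hf, h2⟩ := h
  obtain ⟨h3, g, hg, rfl, h4⟩ := h'
  refine ⟨by omega, fun t => if t ≤ u then f t else g t, if_pos h1, ?_, fun t a b => ?_⟩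
  · dsimp only
    by_cases e : v ≤ u
    · rw [if_pos e, show v = u by omega, hf, hg]
    · exact if_neg e
  · dsimp only
    by_cases e : t < u
    · rw [if_pos (by omega), if_pos (by omega)]
      exact h2 t a e
    · rw [if_neg (show ¬ t + 1 ≤ u by omega)]
      by_cases e' : t ≤ u
      · rw [if_pos e', show t = u by omega, hf, ← hg]
        exact h4 u le_rfl (by omega)
      · rw [if_neg e']
        exact h4 t (by omega) b

lemma St.rch {ω : Om} {x t y : ℤ} (h : St ω x t y) : Rch ω x t y (t + 1) := by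
  refine ⟨by omega, fun a => if a ≤ t then x else y, if_pos le_rfl, if_neg (by omega),
    fun a h1 h2 => ?_⟩
  dsimp only
  rw [show a = t by omega, if_pos le_rfl, if_neg (by omega)]
  exact h

lemma Rch.split {ω : Om} {x s y u : ℤ} (h : Rch ω x s y u) {c : ℤ} (h1 : s ≤ c) (h2 : c ≤ u) :
    ∃ z, Rch ω x s z c ∧ Rch ω z c y u := by
  obtain ⟨-, f, rfl, rfl, hf⟩ := h
  exact ⟨f c, hf.rch le_rfl h1 h2, hf.rch h1 h2 le_rfl⟩

lemma Rch.meet {ω : Om} {x s y u : ℤ} (h : Rch ω x s y u) {g : ℤ → ℤ} (hg : Inc g s u)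
    (h1 : x ≤ g s) (h2 : g u ≤ y) : ∃ c, s ≤ c ∧ c ≤ u ∧ Rch ω x s (g c) c ∧ Rch ω (g c) c y u := by
  obtain ⟨h0, f, rfl, rfl, hf⟩ := h
  obtain ⟨c, a1, a2, a3⟩ := ivt h0 hf.inc hg h1 h2
  exact ⟨c, a1, a2, a3 ▸ hf.rch le_rfl a1 a2, a3 ▸ hf.rch a1 a2 le_rfl⟩

lemma Rch.congr {ω ω' : Om} {x s y u : ℤ} (h : Rch ω x s y u)
    (he : ∀ a t c, x ≤ a → a ≤ c → c ≤ y → s ≤ t → t < u → ω (ed a t c) = ω' (ed a t c)) :
    Rch ω' x s y u := by
  obtain ⟨h0, f, rfl, rfl, hf⟩ := h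
  refine ⟨h0, f, rfl, rfl, fun t a b => ⟨(hf t a b).1, ?_⟩⟩
  have h1 := ((hf.inc.sub le_rfl b.le).bd a).1
  have h2 := ((hf.inc.sub (show s ≤ t + 1 by omega) le_rfl).bd (by omega)).1
  have h3 := (hf t a b).1
  rw [← he _ _ _ h1 (by omega) h2 a b]
  exact (hf t a b).2

/-- the edges inspected from column `x` between levels `s` and `u` -/
def EB (x s u : ℤ) : Set (Sym2 V) := (fun p : ℤ × ℤ × ℤ => ed p.1 p.2.1 p.2.2) ''
  (Set.Icc x (x + (u - s)) ×ˢ Set.Ico s u ×ˢ Set.Icc x (x + (u - s)))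

lemma EB_fin (x s u : ℤ) : (EB x s u).Finite :=
  ((Set.finite_Icc _ _).prod ((Set.finite_Ico _ _).prod (Set.finite_Icc _ _))).image _

def Lo (u : ℤ) : Set (Sym2 V) := {e | lv e < u}

lemma EB_lo (x s : ℤ) {u u' : ℤ} (h : u ≤ u') : EB x s u ⊆ Lo u' := by
  rintro _ ⟨p, ⟨-, h1, -⟩, rfl⟩
  simp only [Lo, Set.mem_ofPred_eq, lv_ed]
  exact h1.2.trans_le h

lemma EB_hi (x u : ℤ) {s s' : ℤ} (h : s' ≤ s) : EB x s u ⊆ (Lo s')ᶜ := by
  rintro _ ⟨p, ⟨-, h1, -⟩, rfl⟩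
  simp only [Lo, Set.mem_compl_iff, Set.mem_ofPred_eq, lv_ed, not_lt]
  exact h.trans h1.1

lemma Rch.congr' {ω ω' : Om} {x s t y u : ℤ} (h : Rch ω x t y u) (hst : s ≤ t)
    (he : ∀ e ∈ EB x s u, ω e = ω' e) : Rch ω' x t y u := by
  have hb := h.bd
  exact h.congr fun a r c h1 h2 h3 h4 h5 => he _ ⟨(a, r, c),
    ⟨⟨h1, by dsimp only; omega⟩, ⟨by dsimp only; omega, h5⟩, ⟨by dsimp only; omega,
      by dsimp only; omega⟩⟩, rfl⟩

noncomputable def R (ω : Om) (b s u : ℤ) : ℤ := sSup {y | ∃ t, s ≤ t ∧ Rch ω b t y u}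

lemma R_bdd (ω : Om) (b s u : ℤ) : BddAbove {y | ∃ t, s ≤ t ∧ Rch ω b t y u} :=
  ⟨b + (u - s), by rintro y ⟨t, h1, h2⟩; have := h2.bd; omega⟩

lemma le_R {ω : Om} {b s u t y : ℤ} (h1 : s ≤ t) (h2 : Rch ω b t y u) : y ≤ R ω b s u :=
  le_csSup (R_bdd ω b s u) ⟨t, h1, h2⟩

lemma R_spec (ω : Om) (b : ℤ) {s u : ℤ} (h : s ≤ u) : ∃ t, s ≤ t ∧ Rch ω b t (R ω b s u) u :=
  Int.csSup_mem (s := {y | ∃ t, s ≤ t ∧ Rch ω b t y u}) ⟨b, u, h, Rch.refl ω b u⟩ (R_bdd ω b s u)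

lemma R_bd (ω : Om) (b : ℤ) {s u : ℤ} (h : s ≤ u) : b ≤ R ω b s u ∧ R ω b s u ≤ b + (u - s) := by
  obtain ⟨t, h1, h2⟩ := R_spec ω b h
  have := h2.bd
  omega

lemma R_mem {b s u : ℤ} (h : s ≤ u) (ω : Om) : R ω b s u ∈ Finset.Icc b (b + (u - s)) :=
  Finset.mem_Icc.2 (R_bd ω b h)

lemma le_R' {ω : Om} {b s u x t y : ℤ} (h0 : x ≤ b) (h1 : s ≤ t) (h2 : Rch ω x t y u) :
    y ≤ R ω b s u := by
  by_cases hy : y ≤ b
  · exact hy.trans (R_bd ω b (h1.trans h2.1)).1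
  · obtain ⟨c, a1, -, -, a4⟩ := h2.meet (g := fun _ => b) (fun _ _ _ => Or.inl rfl) h0 (by omega)
    exact le_R (h1.trans a1) a4

lemma R_mono (ω : Om) {b b' s s' u : ℤ} (hb : b ≤ b') (hs : s' ≤ s) (h : s ≤ u) :
    R ω b s u ≤ R ω b' s' u := by
  obtain ⟨t, h1, h2⟩ := R_spec ω b h
  exact le_R' hb (hs.trans h1) h2

lemma R_sub (ω : Om) (b : ℤ) {s c u : ℤ} (h1 : s ≤ c) (h2 : c ≤ u) :
    R ω b s u ≤ R ω (R ω b s c) c u := by
  obtain ⟨t, a1, a2⟩ := R_spec ω b (h1.trans h2)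
  by_cases ht : c ≤ t
  · exact le_R' (R_bd ω b h1).1 ht a2
  · obtain ⟨z, a3, a4⟩ := a2.split (c := c) (by omega) h2
    exact le_R' (le_R a1 a3) le_rfl a4

lemma dep_R (b s u : ℤ) : Dep (EB b s u) fun ω => R ω b s u := by
  intro ω ω' h
  refine congrArg sSup (Set.ext fun y => ⟨?_, ?_⟩)
  · rintro ⟨t, h1, h2⟩
    exact ⟨t, h1, h2.congr' h1 h⟩
  · rintro ⟨t, h1, h2⟩
    exact ⟨t, h1, h2.congr' h1 fun e he => (h e he).symm⟩

lemma meas_R (b s u k : ℤ) : MeasurableSet {ω | R ω b s u = k} :=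
  (dep_R b s u).meas (EB_fin b s u) (measurableSet_singleton k)

lemma nice_R {b s u : ℤ} (h : s ≤ u) (φ : ℤ → ℝ) : Nice fun ω => φ (R ω b s u) :=
  nice_comp _ (R_mem h) (meas_R b s u) φ

lemma Rch_shift' {ω : Om} {x s y u : ℤ} (k j : ℤ) (h : Rch ω (x + k) (s + j) (y + k) (u + j)) :
    Rch (shift (site k j) ω) x s y u := by
  obtain ⟨h0, f, h1, h2, hf⟩ := h
  refine ⟨by omega, fun t => f (t + j) - k, by simp [h1], by simp [h2], fun t a b => ?_⟩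
  obtain ⟨a1, a2⟩ := hf (t + j) (by omega) (by omega)
  refine ⟨by simp only [add_right_comm t 1 j]; omega, ?_⟩
  rw [← a2]
  simp only [shift, ed, Sym2.map_mk, add_right_comm t 1 j]
  congr 2 <;> exact vext (by simp) (by simp; ring)

lemma shift_shift (a : V) (ω : Om) : shift (-a) (shift a ω) = ω := by
  funext e
  induction e using Sym2.ind with
  | h u v => simp [shift]

lemma Rch_shift {ω : Om} {x s y u : ℤ} (k j : ℤ) :
    Rch (shift (site k j) ω) x s y u ↔ Rch ω (x + k) (s + j) (y + k) (u + j) := by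
  refine ⟨fun h => ?_, Rch_shift' k j⟩
  have e : site (-k) (-j) = -site k j := vext (by simp) (by simp; ring)
  have := Rch_shift' (ω := shift (site k j) ω) (x := x + k) (s := s + j) (y := y + k) (u := u + j)
    (-k) (-j) (by simpa using h)
  rwa [e, shift_shift] at this

lemma R_shift (ω : Om) (b : ℤ) {s u : ℤ} (h : s ≤ u) (k j : ℤ) :
    R (shift (site k j) ω) b s u = R ω (b + k) (s + j) (u + j) - k := by
  apply le_antisymm
  · obtain ⟨t, h1, h2⟩ := R_spec (shift (site k j) ω) b h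
    have := le_R (show s + j ≤ t + j by omega) ((Rch_shift k j).1 h2)
    omega
  · obtain ⟨t, h1, h2⟩ := R_spec ω (b + k) (show s + j ≤ u + j by omega)
    exact le_R (show s ≤ t - j by omega) (Rch_shift' k j (by simpa using h2))

lemma int_shift (a : V) {f : Om → ℝ} (hf : Measurable f) :
    ∫ ω, f (shift a ω) ∂PP _ = ∫ ω, f ω ∂PP _ := by
  have hs : Measurable (shift a) := by unfold shift; fun_prop
  conv_rhs => rw [← map_shift a]
  rw [integral_map hs.aemeasurable hf.aestronglyMeasurable]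

lemma int_R (b : ℤ) {s u : ℤ} (h : s ≤ u) (φ : ℤ → ℝ) :
    ∫ ω, φ (R ω b s u - b) ∂PP _ = ∫ ω, φ (R ω 0 0 (u - s)) ∂PP _ := by
  rw [← int_shift (site b s) (nice_R (show 0 ≤ u - s by omega) φ).1]
  simp only [R_shift _ _ (show 0 ≤ u - s by omega), zero_add, sub_add_cancel]

/-- two-stage formula: the edge at level `c` and a fresh copy started near it are independent -/
lemma int_two (b κ : ℤ) {s c u : ℤ} (h1 : s ≤ c) (h2 : c ≤ u) (φ : ℤ → ℤ → ℝ) :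
    ∫ ω, φ (R ω b s c) (R ω (R ω b s c + κ) c u - (R ω b s c + κ)) ∂PP _ =
      ∫ ω, (∫ ω', φ (R ω b s c) (R ω' 0 0 (u - c)) ∂PP _) ∂PP _ := by
  rw [stop _ (R_mem h1) (meas_R b s c) (fun _ => Lo c)
    (fun ω ω' h => ((dep_R b s c).mono (EB_lo b s le_rfl) ω ω' h).symm)
    (g := fun k ω => φ k (R ω (k + κ) c u - (k + κ)))
    (fun k => nice_R h2 fun y => φ k (y - (k + κ)))
    (fun k ω ω' h => congrArg (fun y => φ k (y - (k + κ)))
      ((dep_R (k + κ) c u).mono (EB_hi _ u le_rfl) ω ω' h))]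
  simp only [int_R _ h2]

lemma nice_two (b κ : ℤ) {s c u : ℤ} (h1 : s ≤ c) (h2 : c ≤ u) (φ : ℤ → ℤ → ℝ) :
    Nice fun ω => φ (R ω b s c) (R ω (R ω b s c + κ) c u - (R ω b s c + κ)) :=
  nice_adapt _ (R_mem h1) (meas_R b s c) (g := fun k ω => φ k (R ω (k + κ) c u - (k + κ)))
    fun k => nice_R h2 fun y => φ k (y - (k + κ))

end Pool.Agent.Lib.MP_eba68f_edge
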