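import Pool.Agent.Lib.MP_eba68f_edge.Cov

/-! Submultiplicativity of the tail of the excess passage time. -/

namespace Pool.Agent.Lib.MP_eba68f_edge

open MeasureTheory ProbabilityTheory Function Finset Filter SimpleGraph Pool.Agent.Lib.MP_eba68f_pr

/-- level of a lattice point -/
noncomputable def lvl (w : V) : ℝ := (w 0 : ℝ) + w 1

lemma lvl_le_n1 (u v : V) : lvl v - lvl u ≤ n1 (v - u) := by
  simp only [lvl, n1, Pi.sub_apply, Int.cast_sub]
  linarith [le_abs_self ((v 0 : ℝ) - u 0), le_abs_self ((v 1 : ℝ) - u 1)]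

lemma n1_le_LW (ω : Om) {u v : V} (p : G.Walk u v) : n1 (v - u) ≤ LW ω p.edges :=
  (n1_le_length p).trans (by simpa using LW_ge ω p.edges)

lemma lvl_le_LW (ω : Om) {u v : V} (p : G.Walk u v) : lvl v - lvl u ≤ LW ω p.edges :=
  (lvl_le_n1 u v).trans (n1_le_LW ω p)

lemma TT_self (ω : Om) (u : V) : TT ω u u = 0 :=
  le_antisymm (by simpa using TT_le ω (Walk.nil : G.Walk u u)) ((n1_nonneg _).trans (TT_ge ω u u))

lemma TT_step (ω : Om) {u v : V} (h : G.Adj u v) : TT ω u v ≤ wt (ω s(u, v)) := by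
  simpa using TT_le ω (Walk.cons h Walk.nil)

noncomputable def exc (z : V) (ω : Om) : ℝ := TT ω 0 z - lvl z

lemma nice_exc (z : V) : Nice (exc z) := (nice_TT 0 z).sub (Nice.const _)

lemma exc_nonneg (z : V) (ω : Om) : 0 ≤ exc z ω := by
  have := (lvl_le_n1 0 z).trans (TT_ge ω 0 z)
  simp only [lvl, Pi.zero_apply, Int.cast_zero, add_zero, sub_zero] at this
  exact sub_nonneg.2 this

lemma meas_exc (z : V) (a : ℝ) : MeasurableSet {ω | a < exc z ω} :=
  measurableSet_lt measurable_const (nice_exc z).1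

noncomputable def bx (c : ℝ) : Finset V := Fintype.piFinset fun _ : Fin 2 => Icc (-⌈c⌉) ⌈c⌉

open Classical in
noncomputable def Ex (c a : ℝ) (ω : Om) : Finset V :=
  (bx c).filter fun w => TT ω 0 w ≤ c ∧ TT ω 0 w ≤ lvl w + a

lemma mem_Ex {c a : ℝ} {ω : Om} {w : V} :
    w ∈ Ex c a ω ↔ TT ω 0 w ≤ c ∧ TT ω 0 w ≤ lvl w + a := by
  rw [Ex, mem_filter, and_iff_right_iff_imp]
  rintro ⟨h, -⟩
  have h1 := (TT_ge ω 0 w).trans (h.trans (Int.le_ceil c))
  simp only [n1, sub_zero] at h1
  have h2 : |w 0| + |w 1| ≤ ⌈c⌉ := by exact_mod_cast h1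
  simp only [bx, Fintype.mem_piFinset, Fin.forall_fin_two, mem_Icc, ← abs_le]
  constructor <;> linarith [abs_nonneg (w 0), abs_nonneg (w 1)]

def Tch (S : Finset V) : Set (Sym2 V) := {e | ∃ w ∈ S, w ∈ e}

lemma Ex_key {c a : ℝ} {ω ω' : Om} (h : ∀ e ∈ Tch (Ex c a ω), ω e = ω' e) {u w : V}
    (p : G.Walk u w) (h1 : TT ω 0 u + LW ω' p.edges ≤ c)
    (h2 : TT ω 0 u + LW ω' p.edges ≤ lvl w + a) : ∀ e ∈ p.edges, e ∈ Tch (Ex c a ω) := by
  induction p with
  | nil => simp
  | @cons u v w huv p ih =>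
    have a1 := lvl_le_LW ω' (Walk.cons huv p)
    have a0 := (n1_nonneg _).trans (n1_le_LW ω' (Walk.cons huv p))
    have a2 : s(u, v) ∈ Tch (Ex c a ω) := ⟨u, mem_Ex.2 ⟨by linarith, by linarith⟩, by simp⟩
    have a3 := TT_tri ω 0 u v
    have a4 := TT_step ω huv
    rw [h _ a2] at a4
    rw [Walk.edges_cons, LW_cons] at h1 h2
    intro e he
    rw [Walk.edges_cons, List.mem_cons] at he
    rcases he with rfl | he
    · exact a2
    · exact ih (by linarith) (by linarith) e he

lemma Ex_stop (c a : ℝ) (ω ω' : Om) (h : ∀ e ∈ Tch (Ex c a ω), ω e = ω' e) :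
    Ex c a ω' = Ex c a ω := by
  ext w
  rw [mem_Ex, mem_Ex]
  constructor
  · rintro ⟨h1, h2⟩
    obtain ⟨p, -, hp⟩ := exists_geo ω' 0 w
    have a1 := Ex_key h p (by rw [TT_self, hp]; linarith) (by rw [TT_self, hp]; linarith)
    have a2 := TT_le ω p
    rw [LW_congr fun e he => h e (a1 e he), hp] at a2
    exact ⟨a2.trans h1, a2.trans h2⟩
  · rintro ⟨h1, h2⟩
    obtain ⟨p, -, hp⟩ := exists_geo ω 0 w
    have a1 := Ex_key (c := c) (a := a) (ω := ω) (fun _ _ => rfl) p (by rw [TT_self, hp]; linarith)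
      (by rw [TT_self, hp]; linarith)
    have a2 := TT_le ω' p
    rw [← LW_congr fun e he => h e (a1 e he), hp] at a2
    exact ⟨a2.trans h1, a2.trans h2⟩

lemma meas_Ex (c a : ℝ) (S : Finset V) : MeasurableSet {ω | Ex c a ω = S} := by
  simp only [Finset.ext_iff, mem_Ex]
  refine (Measurable.forall fun w => Measurable.iff (Measurable.and ?_ ?_) measurable_const).setOf
  · exact (measurableSet_le (nice_TT 0 w).1 measurable_const).mem
  · exact (measurableSet_le (nice_TT 0 w).1 measurable_const).mem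

def Wev (z : V) (K : ℝ) (S : Finset V) (ω : Om) : Prop := ∃ u ∈ S, ∃ v, G.Adj u v ∧
  ∃ q : G.Walk v z, (∀ e ∈ q.edges, e ∉ Tch S) ∧ LW ω q.edges ≤ lvl z - lvl v + K

lemma meas_Wev (z : V) (K : ℝ) (S : Finset V) : MeasurableSet {ω | Wev z K S ω} :=
  (Measurable.exists fun _ => measurable_const.and (Measurable.exists fun _ =>
    measurable_const.and (Measurable.exists fun _ => measurable_const.and
      (measurableSet_le (meas_LW _) measurable_const).mem))).setOf

lemma last_exit {z : V} {K : ℝ} {S : Finset V} (hz : z ∉ S) (ω : Om) {u : V} (p : G.Walk u z)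
    (h : LW ω p.edges ≤ lvl z - lvl u + K) : (∀ x ∈ p.support, x ∉ S) ∨ Wev z K S ω := by
  induction p with
  | nil => exact Or.inl (by simpa using hz)
  | @cons u v w huv p ih =>
    have a1 := (lvl_le_n1 u v).trans_eq (n1_adj huv)
    have a2 := wt_ge (ω s(u, v))
    rw [Walk.edges_cons, LW_cons] at h
    have a3 : LW ω p.edges ≤ lvl w - lvl v + K := by linarith
    rcases ih hz a3 with h1 | h1
    · by_cases hu : u ∈ S
      · refine Or.inr ⟨u, hu, v, huv, p, ?_, a3⟩
        rintro e he ⟨x, hx, hxe⟩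
        exact h1 x (Walk.mem_support_of_mem_edges he hxe) hx
      · refine Or.inl fun x hx => ?_
        rw [Walk.support_cons, List.mem_cons] at hx
        rcases hx with rfl | hx
        · exact hu
        · exact h1 x hx
    · exact Or.inr h1

theorem sub_mul_tail {z : V} (hz : 0 ≤ lvl z) {a K : ℝ} (ha : 0 ≤ a) (hK0 : 0 ≤ K) :
    (PP _).real {ω | a + K + 3 < exc z ω} ≤
      (PP _).real {ω | a < exc z ω} * (PP _).real {ω | K < exc z ω} := by
  classical
  set c := lvl z + a with hc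
  have hK : ∀ ω, Ex c a ω ∈ (bx c).powerset := fun ω => mem_powerset.2 (filter_subset _ _)
  set g : Finset V → Om → ℝ := fun S ω => ind (z ∉ S ∧ 0 ∈ S) * ind (¬ Wev z K S ω) with hg
  have ng : ∀ S, Nice (g S) := fun S => (nice_ind (meas_Wev z K S).compl).cmul _
  have h1 := int_le (nice_ind (meas_exc z (a + K + 3))) (nice_adapt _ hK (meas_Ex c a) ng)
    fun ω => by
      by_cases h : a + K + 3 < exc z ω
      · have b1 : z ∉ Ex c a ω := fun hz => by
          have := (mem_Ex.1 hz).2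
          unfold exc at h
          linarith
        have b2 : 0 ∈ Ex c a ω := by
          rw [mem_Ex, TT_self]
          exact ⟨by linarith, by simpa [lvl] using ha⟩
        have b3 : ¬ Wev z K (Ex c a ω) ω := by
          rintro ⟨u, hu, v, huv, q, -, hq⟩
          have e1 := (mem_Ex.1 hu).2
          have e2 := TT_tri ω 0 u z
          have e3 := TT_tri ω u v z
          have e4 := (TT_step ω huv).trans (wt_le _)
          have e5 := TT_le ω q
          have e6 := (lvl_le_n1 v u).trans_eq (n1_adj huv.symm)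
          unfold exc at h
          linarith [bb_le]
        simp only [hg]
        rw [ind_pos h, ind_pos ⟨b1, b2⟩, ind_pos b3, one_mul]
      · rw [ind_neg h]
        exact mul_nonneg (ind_nonneg _) (ind_nonneg _)
  rw [int_ind (meas_exc _ _), stop _ hK (meas_Ex c a) Tch (Ex_stop c a) ng ?_] at h1
  · refine h1.trans ((int_le (nice_comp _ hK (meas_Ex c a) fun S => ∫ ω, g S ω ∂PP _)
      ((nice_ind (meas_exc z a)).mul (Nice.const ((PP _).real {ω | K < exc z ω})))
      fun ω => ?_).trans_eq (by rw [integral_mul_const, int_ind (meas_exc _ _)]))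
    simp only [hg]
    rw [integral_const_mul, int_ind (p := fun ω' => ¬ Wev z K (Ex c a ω) ω') (meas_Wev z K _).compl]
    by_cases h : z ∉ Ex c a ω ∧ 0 ∈ Ex c a ω
    · have b1 : a < exc z ω := by
        by_contra b2
        unfold exc at b2
        exact h.1 (mem_Ex.2 ⟨by linarith, by linarith⟩)
      rw [ind_pos h, ind_pos b1, one_mul, one_mul]
      refine measureReal_mono (fun ω' hω' => ?_) (measure_ne_top _ _)
      by_contra b2
      obtain ⟨p, -, hp⟩ := exists_geo ω' 0 z
      simp only [Set.mem_ofPred_eq, exc, not_lt] at b2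
      rcases last_exit (K := K) h.1 ω' p (by
        rw [hp, show lvl 0 = 0 by simp [lvl]]; linarith) with b3 | b3
      · exact b3 0 p.start_mem_support h.2
      · exact hω' b3
    · rw [ind_neg h, zero_mul]
      exact mul_nonneg (ind_nonneg _) measureReal_nonneg
  · intro S ω ω' h
    have key : ∀ ω ω' : Om, (∀ e ∈ (Tch S)ᶜ, ω e = ω' e) → Wev z K S ω → Wev z K S ω' := by
      rintro ω ω' h ⟨u, hu, v, huv, q, b1, b2⟩
      exact ⟨u, hu, v, huv, q, b1, by rwa [← LW_congr fun e he => h e (b1 e he)]⟩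
    simp only [hg]
    rw [propext ⟨key ω ω' h, key ω' ω fun e he => (h e he).symm⟩]

lemma tail_pow {z : V} (hz : 0 ≤ lvl z) {K : ℝ} (hK : 0 ≤ K) (j : ℕ) :
    (PP _).real {ω | K + j * (K + 3) < exc z ω} ≤ (PP _).real {ω | K < exc z ω} ^ (j + 1) := by
  induction j with
  | zero => simp
  | succ j ih =>
    have := sub_mul_tail hz (show 0 ≤ K + j * (K + 3) by positivity) hK
    rw [pow_succ]
    push_cast
    rw [show K + (j + 1) * (K + 3) = K + j * (K + 3) + K + 3 by ring]
    exact this.trans (mul_le_mul_of_nonneg_right ih measureReal_nonneg)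

end Pool.Agent.Lib.MP_eba68f_edge
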