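import Pool.Agent.Lib.MP_eba68f_edge.Dual

/-! The edge speed and an upper bound for the variance of the right edge. -/

namespace Pool.Agent.Lib.MP_eba68f_edge

open MeasureTheory ProbabilityTheory Function Finset Filter Pool.Agent.Lib.MP_eba68f_pr

noncomputable def RR (m : ℕ) (ω : Om) : ℝ := R ω 0 0 m

lemma nice_RR (m : ℕ) : Nice (RR m) := nice_R (Int.natCast_nonneg m) fun y => (y : ℝ)

lemma RR_bd (m : ℕ) (ω : Om) : 0 ≤ RR m ω ∧ RR m ω ≤ m := by
  obtain ⟨h1, h2⟩ := R_bd ω 0 (Int.natCast_nonneg m)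
  unfold RR
  exact ⟨by exact_mod_cast h1, by exact_mod_cast (by omega : R ω 0 0 m ≤ m)⟩

noncomputable def aa (m : ℕ) : ℝ := ∫ ω, RR m ω ∂PP _

lemma aa_bd (m : ℕ) : 0 ≤ aa m ∧ aa m ≤ m :=
  ⟨integral_nonneg fun ω => (RR_bd m ω).1,
    (int_le (nice_RR m) (Nice.const _) fun ω => (RR_bd m ω).2).trans_eq (int_const _)⟩

lemma aa_sub : Subadditive aa := by
  intro m n
  have h1 : (0 : ℤ) ≤ m := Int.natCast_nonneg m
  have h2 : (m : ℤ) ≤ (m + n : ℕ) := by push_cast; omega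
  have h3 := int_two 0 0 h1 h2 fun a b => (a : ℝ) + b
  have h4 := int_le (nice_RR (m + n)) (nice_two 0 0 h1 h2 fun a b => (a : ℝ) + b) fun ω => by
    have := R_sub ω 0 h1 h2
    unfold RR
    rw [add_zero]
    exact_mod_cast (by omega : R ω 0 0 (m + n : ℕ) ≤ R ω 0 0 m +
      (R ω (R ω 0 0 m) m (m + n : ℕ) - R ω 0 0 m))
  rw [h3, show ((m + n : ℕ) : ℤ) - m = n by push_cast; ring] at h4
  have h5 : ∀ a : ℝ, ∫ ω', (a + (R ω' 0 0 n : ℝ)) ∂PP _ = a + aa n := fun a =>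
    (int_add (Nice.const a) (nice_RR n)).trans (by rw [int_const]; rfl)
  simp only [h5] at h4
  exact h4.trans_eq ((int_add (nice_RR m) (Nice.const _)).trans (by rw [int_const]; rfl))

lemma aa_bdd : BddBelow (Set.range fun n : ℕ => aa n / n) :=
  ⟨0, by rintro _ ⟨n, rfl⟩; exact div_nonneg (aa_bd n).1 (Nat.cast_nonneg n)⟩

/-- the speed of the right edge -/
noncomputable def al : ℝ := aa_sub.lim

lemma al_le (m : ℕ) : al * m ≤ aa m := by
  rcases Nat.eq_zero_or_pos m with rfl | hm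
  · simpa using (aa_bd 0).1
  · exact (le_div_iff₀ (by exact_mod_cast hm)).1 (aa_sub.lim_le_div aa_bdd hm.ne')

lemma al_le_one : al ≤ 1 := by simpa using (al_le 1).trans (aa_bd 1).2

lemma al_nonneg : 0 ≤ al := ge_of_tendsto' (aa_sub.tendsto_lim aa_bdd) fun n =>
  div_nonneg (aa_bd n).1 (Nat.cast_nonneg n)

lemma exists_block {ε : ℝ} (hε : 0 < ε) : ∃ m : ℕ, 1 ≤ m ∧ aa m ≤ (al + ε) * m := by
  obtain ⟨m, h1, h2⟩ := (((aa_sub.tendsto_lim aa_bdd).eventually
    (gt_mem_nhds (show al < al + ε by linarith))).and (eventually_ge_atTop 1)).exists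
  exact ⟨m, h2, (div_le_iff₀ (by exact_mod_cast h2)).1 h1.le⟩

lemma R_low (ω : Om) {c u : ℤ} (l : ℕ) (h0 : 0 ≤ c) (h1 : c ≤ u)
    (hl : ∀ x, 0 ≤ x → x ≤ c → Surv ω x (c - l) c → Surv ω x (c - l) u) :
    R ω (R ω 0 0 c + -l) c u ≤ R ω 0 0 u := by
  obtain ⟨t, a1, a2⟩ := R_spec ω 0 h0
  by_cases ht : c - l ≤ t
  · exact R_mono ω (by have := a2.bd; omega) h0 h1
  obtain ⟨x, a3, a4⟩ := a2.split (c := c - l) (by omega) (by omega)
  have b3 := a3.bd
  have b4 := a4.bd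
  obtain ⟨y, -, f, f1, f2, hf⟩ := hl x (by omega) (by omega) ⟨_, a4⟩
  obtain ⟨t', c1, c2⟩ := R_spec ω (R ω 0 0 c + -l) h1
  have c3 := c2.1
  have key : ∀ r, c - l ≤ r → r ≤ u → Rch ω 0 t (f r) r := fun r e1 e2 =>
    a3.trans (f1 ▸ hf.rch le_rfl e1 e2)
  by_cases hy : R ω (R ω 0 0 c + -l) c u ≤ f u
  · exact hy.trans (le_R a1 (key u (by omega) le_rfl))
  · have c4 := ((hf.inc.sub le_rfl c3).bd (by omega)).1
    obtain ⟨r, d1, d2, -, d4⟩ := c2.meet (hf.inc.sub (by omega) le_rfl) (by omega) (by omega)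
    exact le_R a1 ((key r (by omega) d2).trans d4)

lemma int_sq_add {f : Om → ℝ} (hf : Nice f) (c : ℝ) :
    ∫ ω, (c + (f ω - ∫ ω', f ω' ∂PP _)) ^ 2 ∂PP _ = c ^ 2 + Vr f := by
  have hg : Nice fun ω => f ω - ∫ ω', f ω' ∂PP _ := hf.sub (Nice.const _)
  simp only [add_sq]
  rw [int_add ((Nice.const _).add (hg.cmul _)) hg.sq, int_add (Nice.const _) (hg.cmul _),
    int_const, integral_const_mul, int_sub hf (Nice.const _), int_const, sub_self, mul_zero,
    add_zero]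
  rfl

noncomputable def vv (m : ℕ) : ℝ := Vr (RR m)

lemma vv_nonneg (m : ℕ) : 0 ≤ vv m := integral_nonneg fun _ => sq_nonneg _

lemma sq_split (S l : ℝ) (hl : 1 ≤ l) :
    max S 0 ^ 2 + min (S - l) 0 ^ 2 ≤ (1 + 1 / l) * S ^ 2 + (l ^ 3 + l ^ 2) := by
  have h1 : max S 0 ^ 2 + min (S - l) 0 ^ 2 ≤ (|S| + l) ^ 2 := by
    rcases le_total S 0 with h | h
    · rw [max_eq_right h, min_eq_left (by linarith), abs_of_nonpos h]; nlinarith
    · rw [max_eq_left h, abs_of_nonneg h]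
      rcases le_total (S - l) 0 with h' | h'
      · rw [min_eq_left h']; nlinarith
      · rw [min_eq_right h']; nlinarith
  have h2 : 0 ≤ 1 / l * (|S| - l ^ 2) ^ 2 := by positivity
  have h3 : 1 / l * (|S| - l ^ 2) ^ 2 = 1 / l * |S| ^ 2 - 2 * l * |S| + l ^ 3 := by
    field_simp; ring
  rw [← sq_abs S]
  nlinarith

lemma vv_step (m n l N : ℕ) (hl : 1 ≤ l) (hN : m + n ≤ N) (hN' : N ^ 3 ≤ 2 ^ l) :
    vv (m + n) ≤ (1 + 1 / l) * (vv m + vv n) + ((l : ℝ) ^ 3 + l ^ 2 + 1) := by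
  have h1 : (0 : ℤ) ≤ m := Int.natCast_nonneg m
  have h2 : (m : ℤ) ≤ (m + n : ℕ) := by push_cast; omega
  have hl' : (1 : ℝ) ≤ l := by exact_mod_cast hl
  set u : ℤ := ((m + n : ℕ) : ℤ) with hu
  set S : ℤ → ℤ → ℝ := fun a b => ((a : ℝ) - aa m) + ((b : ℝ) - aa n) with hS
  set B : Om → Prop := fun ω => ∃ x ∈ Icc (0 : ℤ) m, Surv ω x (m - l) m ∧ ¬ Surv ω x (m - l) u
    with hB
  have hBe : {ω | B ω} = ⋃ x ∈ Icc (0 : ℤ) m, {ω | Surv ω x (m - l) m ∧ ¬ Surv ω x (m - l) u} := by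
    ext ω; simp only [hB, Set.mem_iUnion, Set.mem_ofPred_eq, exists_prop]
  have hBm : MeasurableSet {ω | B ω} := by
    rw [hBe]
    exact Finset.measurableSet_biUnion _ fun x _ => (meas_surv _ _ _).inter (meas_surv _ _ _).compl
  have hBp : (PP _).real {ω | B ω} ≤ ((m : ℝ) + 1) * ((1 / 2) ^ l / 64) := by
    rw [hBe]
    refine (measureReal_biUnion_finset_le _ _).trans 
      ((sum_le_card_nsmul _ _ ((1 / 2) ^ l / 64) fun x _ => ?_).trans (le_of_eq ?_))
    · simpa only [sub_add_cancel] using prob_die x (m - l) l (N := u) (by omega)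
    · simp
  have n1 := nice_two 0 0 h1 h2 fun a b => max (S a b) 0 ^ 2
  have n2 := nice_two 0 (-l) h1 h2 fun a b => min (S a b - l) 0 ^ 2
  have n3 := (nice_ind hBm).cmul ((N : ℝ) ^ 2)
  have hNr : (m : ℝ) + n ≤ N := by exact_mod_cast hN
  have h3 := int_le ((nice_RR (m + n)).sub (Nice.const (aa m + aa n))).sq ((n1.add n2).add n3)
    fun ω => by
      have e0 := sq_nonneg (max (S (R ω 0 0 m) (R ω (R ω 0 0 m + 0) m u - (R ω 0 0 m + 0))) 0)
      have e1 := sq_nonneg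
        (min (S (R ω 0 0 m) (R ω (R ω 0 0 m + -l) m u - (R ω 0 0 m + -l)) - l) 0)
      by_cases hb : B ω
      · rw [ind_pos hb]
        have e2 := RR_bd (m + n) ω
        push_cast at e2
        have e3 : (RR (m + n) ω - (aa m + aa n)) ^ 2 ≤ (N : ℝ) ^ 2 :=
          sq_le_sq' (by linarith [(aa_bd m).2, (aa_bd n).2]) (by linarith [(aa_bd m).1, (aa_bd n).1])
        linarith
      · rw [ind_neg hb, mul_zero, add_zero]
        have e2 : RR (m + n) ω ≤ R ω (R ω 0 0 m) m u := by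
          unfold RR; exact_mod_cast R_sub ω 0 h1 h2
        have e3 : (R ω (R ω 0 0 m + -l) m u : ℝ) ≤ RR (m + n) ω := by
          unfold RR
          exact_mod_cast R_low ω l h1 h2 fun x a1 a2 a3 => by
            by_contra a4
            exact hb ⟨x, mem_Icc.2 ⟨a1, a2⟩, a3, a4⟩
        rcases le_total 0 (RR (m + n) ω - (aa m + aa n)) with e | e
        · refine le_trans (pow_le_pow_left₀ e (le_max_of_le_left ?_) 2) (le_add_of_nonneg_right e1)
          simp only [hS, add_zero]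
          push_cast
          linarith
        · refine le_trans ?_ (le_add_of_nonneg_left e0)
          rw [← neg_sq, ← neg_sq (min _ _)]
          refine pow_le_pow_left₀ (by linarith) (neg_le_neg (min_le_of_left_le ?_)) 2
          simp only [hS]
          push_cast
          linarith
  rw [int_add (n1.add n2) n3, int_add n1 n2, int_two 0 0 h1 h2 fun a b => max (S a b) 0 ^ 2,
    int_two 0 (-l) h1 h2 fun a b => min (S a b - l) 0 ^ 2, integral_const_mul, int_ind hBm,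
    show u - m = n by rw [hu]; push_cast; ring] at h3
  have hn0 : (0 : ℤ) ≤ n := Int.natCast_nonneg n
  have m1 := nice_R (b := 0) h1 fun a => ∫ ω', max (S a (R ω' 0 0 n)) 0 ^ 2 ∂PP _
  have m2 := nice_R (b := 0) h1 fun a => ∫ ω', min (S a (R ω' 0 0 n) - l) 0 ^ 2 ∂PP _
  have m3 : Nice fun ω => (RR m ω - aa m) ^ 2 := ((nice_RR m).sub (Nice.const _)).sq
  have h4 := int_le (m1.add m2) (((m3.add (Nice.const (vv n))).cmul (1 + 1 / l)).add
    (Nice.const ((l : ℝ) ^ 3 + l ^ 2))) fun ω => by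
      have k1 := nice_R (b := 0) hn0 fun b => max (S (R ω 0 0 m) b) 0 ^ 2
      have k2 := nice_R (b := 0) hn0 fun b => min (S (R ω 0 0 m) b - l) 0 ^ 2
      have k3 := nice_R (b := 0) hn0 fun b => S (R ω 0 0 m) b ^ 2
      have k4 := int_le (k1.add k2) ((k3.cmul (1 + 1 / l)).add (Nice.const ((l : ℝ) ^ 3 + l ^ 2)))
        fun ω' => sq_split _ _ hl'
      rw [int_add k1 k2, int_add (k3.cmul _) (Nice.const _), int_const, integral_const_mul] at k4
      have k5 := int_sq_add (nice_RR n) (RR m ω - aa m)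
      exact k4.trans_eq (by rw [← show _ = (RR m ω - aa m) ^ 2 + vv n from k5]; rfl)
  rw [int_add m1 m2, int_add ((m3.add (Nice.const _)).cmul _) (Nice.const _), int_const,
    integral_const_mul, int_add m3 (Nice.const _), int_const] at h4
  have h5 := Vr_le (nice_RR (m + n)) (aa m + aa n)
  have h6 : (N : ℝ) ^ 2 * (PP _).real {ω | B ω} ≤ 1 := by
    refine (mul_le_mul_of_nonneg_left hBp (by positivity)).trans ?_
    have e1 : (N : ℝ) ^ 3 * (1 / 2) ^ l ≤ 1 := by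
      have : (N : ℝ) ^ 3 ≤ 2 ^ l := by exact_mod_cast hN'
      refine (mul_le_mul_of_nonneg_right this (by positivity)).trans (le_of_eq ?_)
      rw [← mul_pow]; norm_num
    have e2 : (N : ℝ) ^ 2 * ((m : ℝ) + 1) ≤ 64 * N ^ 3 := by
      rcases Nat.eq_zero_or_pos N with rfl | h
      · simp
      · have : (1 : ℝ) ≤ N := by exact_mod_cast h
        have : (0 : ℝ) ≤ n := Nat.cast_nonneg n
        nlinarith [sq_nonneg (N : ℝ)]
    have e3 : (0 : ℝ) ≤ (1 / 2) ^ l := by positivity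
    nlinarith
  have h7 : ∫ ω, (RR m ω - aa m) ^ 2 ∂PP _ = vv m := rfl
  rw [h7] at h4
  unfold vv at *
  linarith

lemma vv_rec (l N : ℕ) (hl : 1 ≤ l) (hN' : N ^ 3 ≤ 2 ^ l) (k : ℕ) : ∀ m, m ≤ N → m ≤ 2 ^ k →
    vv m + ((l : ℝ) ^ 3 + l ^ 2 + 1) ≤ (2 * (1 + 1 / l)) ^ k * ((l : ℝ) ^ 3 + l ^ 2 + 2) := by
  have hl' : (1 : ℝ) ≤ l := by exact_mod_cast hl
  induction k with
  | zero =>
    intro m _ hm
    have h1 := (Vr_le (nice_RR m) 0).trans ((int_le ((nice_RR m).sub (Nice.const 0)).sq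
      (Nice.const 1) fun ω => by
        have h2 := RR_bd m ω
        have h3 : (m : ℝ) ≤ 1 := by exact_mod_cast hm
        nlinarith).trans_eq (int_const _))
    unfold vv
    linarith
  | succ k ih =>
    intro m h1 h2
    have h3 := vv_step (m / 2) (m - m / 2) l N hl (by omega) hN'
    rw [show m / 2 + (m - m / 2) = m by omega] at h3
    have h4 := ih (m / 2) (by omega) (by omega)
    have h5 := ih (m - m / 2) (by omega) (by omega)
    have h6 : (0 : ℝ) ≤ 1 / l := by positivity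
    have h7 : (0 : ℝ) ≤ (l : ℝ) ^ 3 + l ^ 2 + 1 := by positivity
    rw [pow_succ (2 * (1 + 1 / (l : ℝ)))]
    nlinarith [mul_le_mul_of_nonneg_left (add_le_add h4 h5) (show (0 : ℝ) ≤ 1 + 1 / l by linarith),
      mul_nonneg h6 h7]

/-- the logarithmic scale -/
def LL (n : ℕ) : ℕ := 3 * (Nat.log 2 n + 1)

lemma LL_ge (n : ℕ) : 3 ≤ LL n := by unfold LL; omega

lemma LL_pow (n : ℕ) : n ^ 3 ≤ 2 ^ LL n := by
  rw [LL, mul_comm, pow_mul]
  exact Nat.pow_le_pow_left (Nat.lt_pow_succ_log_self one_lt_two n).le 3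

theorem vv_le (n : ℕ) (hn : 1 ≤ n) : vv n ≤ 16 * (LL n : ℝ) ^ 3 * n := by
  have h1 := vv_rec (LL n) n (by linarith [LL_ge n]) (LL_pow n) (Nat.log 2 n + 1) n le_rfl
    (Nat.lt_pow_succ_log_self one_lt_two n).le
  have hl : (3 : ℝ) ≤ LL n := by exact_mod_cast LL_ge n
  have h2 : (2 : ℝ) ^ (Nat.log 2 n + 1) ≤ 2 * n := by
    rw [pow_succ, mul_comm]
    have : ((2 ^ Nat.log 2 n : ℕ) : ℝ) ≤ n := by exact_mod_cast Nat.pow_log_le_self 2 (by omega)
    push_cast at this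
    linarith
  have h3 : (1 + 1 / (LL n : ℝ)) ^ (Nat.log 2 n + 1) ≤ 4 := by
    have e1 : 1 + 1 / (LL n : ℝ) ≤ Real.exp (1 / LL n) := by linarith [Real.add_one_le_exp (1 / (LL n : ℝ))]
    refine (pow_le_pow_left₀ (by positivity) e1 _).trans ?_
    rw [← Real.exp_nat_mul]
    refine (Real.exp_le_exp.2 (show _ ≤ 1 from ?_)).trans (by linarith [Real.exp_one_lt_d9])
    rw [mul_one_div, div_le_one (by linarith)]
    exact_mod_cast (by unfold LL; omega : Nat.log 2 n + 1 ≤ LL n)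
  rw [mul_pow] at h1
  have h4 : (LL n : ℝ) ^ 3 + LL n ^ 2 + 2 ≤ 2 * (LL n : ℝ) ^ 3 := by nlinarith
  have h5 := mul_le_mul (mul_le_mul h2 h3 (by positivity) (by positivity)) h4 (by positivity)
    (by positivity)
  have h7 : (0 : ℝ) ≤ (LL n : ℝ) ^ 3 + LL n ^ 2 + 1 := by positivity
  linarith

end Pool.Agent.Lib.MP_eba68f_edge
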